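import Mathlib

set_option autoImplicit false

/-! Brjuno's counting argument for products of small divisors. -/

namespace Pool.Agent.Lib.MP_eb1abe_an

/-- The counting function. -/
def brjN (ind : ℕ → ℕ) : ℕ → ℕ
  | n => if h : 2 ≤ n then ind (n - 1) +
      Finset.univ.sup (fun i : Fin (n - 1) => brjN ind (i.1 + 1) + brjN ind (n - (i.1 + 1)))
    else 0
  termination_by n => n
  decreasing_by all_goals omega

theorem brjN_small (ind : ℕ → ℕ) {n : ℕ} (h : n < 2) : brjN ind n = 0 := by
  rw [brjN, dif_neg (by omega)]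

theorem brjN_le (ind : ℕ → ℕ) {i j : ℕ} (hi : 1 ≤ i) (hj : 1 ≤ j) :
    brjN ind i + brjN ind j + ind (i + j - 1) ≤ brjN ind (i + j) := by
  rw [brjN.eq_1 ind (i + j), dif_pos (by omega)]
  have h1 : brjN ind i + brjN ind j ≤ Finset.univ.sup (fun t : Fin (i + j - 1) =>
      brjN ind (t.1 + 1) + brjN ind (i + j - (t.1 + 1))) := by
    have h2 := Finset.le_sup (f := fun t : Fin (i + j - 1) =>
      brjN ind (t.1 + 1) + brjN ind (i + j - (t.1 + 1)))
      (Finset.mem_univ (⟨i - 1, by omega⟩ : Fin (i + j - 1)))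
    have e1 : i - 1 + 1 = i := by omega
    have e2 : i + j - (i - 1 + 1) = j := by omega
    simp only [e1, e2] at h2
    have e3 : i + j - i = j := by omega
    rw [e3] at h2
    exact h2
  omega

theorem brjN_attained (ind : ℕ → ℕ) {n : ℕ} (hn : 2 ≤ n) : ∃ i j, 1 ≤ j ∧ j ≤ i ∧ i + j = n ∧
    brjN ind n = ind (n - 1) + (brjN ind i + brjN ind j) := by
  rw [brjN.eq_1 ind n, dif_pos hn]
  have hne : (Finset.univ : Finset (Fin (n - 1))).Nonempty := ⟨⟨0, by omega⟩, Finset.mem_univ _⟩
  obtain ⟨t, -, ht⟩ := Finset.exists_mem_eq_sup Finset.univ hne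
    (fun i : Fin (n - 1) => brjN ind (i.1 + 1) + brjN ind (n - (i.1 + 1)))
  have ht2 := t.2
  rcases Nat.le_total (t.1 + 1) (n - (t.1 + 1)) with h | h
  · exact ⟨n - (t.1 + 1), t.1 + 1, by omega, h, by omega, by rw [ht]; ring⟩
  · exact ⟨t.1 + 1, n - (t.1 + 1), by omega, h, by omega, by rw [ht]⟩

/-- Brjuno's counting lemma. -/
theorem brjN_bound (ind : ℕ → ℕ) (G : ℕ) (hG : 0 < G) (h0 : ∀ j, ind j ≤ 1)
    (h1 : ∀ j, ind j ≠ 0 → G < 2 * j)
    (h2 : ∀ j j', ind j ≠ 0 → ind j' ≠ 0 → j' < j → G < 2 * (j - j')) (n : ℕ) :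
    (2 * n ≤ G → brjN ind n = 0) ∧ (G < 2 * n → G * (brjN ind n + 1) ≤ 4 * n) := by
  induction n using Nat.strong_induction_on with
  | _ n ih =>
    rcases Nat.lt_or_ge n 2 with hn | hn
    · rw [brjN_small ind hn]
      refine ⟨fun _ => rfl, fun h => ?_⟩
      omega
    obtain ⟨x, y, hy1, hyx, hxy, hN⟩ := brjN_attained ind hn
    obtain ⟨ihx1, ihx2⟩ := ih x (by omega)
    obtain ⟨ihy1, ihy2⟩ := ih y (by omega)
    constructor
    · intro h
      have hind : ind (n - 1) = 0 := by
        by_contra hne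
        have := h1 _ hne
        omega
      rw [hN, hind, ihx1 (by omega), ihy1 (by omega)]
    · intro h
      by_cases hind : ind (n - 1) = 0
      · rw [hN, hind]
        rcases Nat.lt_or_ge G (2 * x) with hx | hx
        · rcases Nat.lt_or_ge G (2 * y) with hy | hy
          · have a1 := ihx2 hx
            have a2 := ihy2 hy
            nlinarith
          · have a1 := ihx2 hx
            rw [ihy1 hy]
            nlinarith
        · rw [ihx1 hx, ihy1 (by omega)]
          omega
      · have hind1 : ind (n - 1) = 1 := by have := h0 (n - 1); omega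
        -- inner claim
        have inner : ∀ k, k < n → 4 * (n - k) < G → G * (brjN ind k + 2) ≤ 4 * n := by
          intro k
          induction k using Nat.strong_induction_on with
          | _ k ihk =>
            intro hk hk4
            rcases Nat.lt_or_ge k 2 with hk2 | hk2
            · rw [brjN_small ind hk2]; omega
            obtain ⟨p, q, hq1, hqp, hpq, hNk⟩ := brjN_attained ind hk2
            have hindk : ind (k - 1) = 0 := by
              by_contra hne
              have := h2 (n - 1) (k - 1) hind hne (by omega)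
              omega
            obtain ⟨p1, p2⟩ := ih p (by omega)
            obtain ⟨q1, q2⟩ := ih q (by omega)
            rw [hNk, hindk]
            rcases Nat.lt_or_ge G (2 * p) with hp | hp
            · rcases Nat.lt_or_ge G (2 * q) with hq | hq
              · have a1 := p2 hp
                have a2 := q2 hq
                nlinarith
              · rw [q1 hq]
                rcases Nat.lt_or_ge (4 * (n - p)) G with h4 | h4
                · have := ihk p (by omega) (by omega) h4
                  simpa using this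
                · have a1 := p2 hp
                  have a3 : G + 4 * p ≤ 4 * n := by omega
                  nlinarith
            · rw [p1 hp, q1 (by omega)]
              omega
        rw [hN, hind1]
        rcases Nat.lt_or_ge G (2 * x) with hx | hx
        · rcases Nat.lt_or_ge G (2 * y) with hy | hy
          · have a1 := ihx2 hx
            have a2 := ihy2 hy
            nlinarith
          · rw [ihy1 hy]
            rcases Nat.lt_or_ge (4 * y) G with h4 | h4
            · have := inner x (by omega) (by omega)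
              have e : 1 + (brjN ind x + 0) + 1 = brjN ind x + 2 := by ring
              rw [e]; exact this
            · have a1 := ihx2 hx
              have a3 : G + 4 * x ≤ 4 * n := by omega
              nlinarith
        · rw [ihx1 hx, ihy1 (by omega)]
          omega

/-- The indicator of small divisors. -/
noncomputable def brjInd (a : ℂ) (m j : ℕ) : ℕ :=
  open Classical in if 1 ≤ j ∧ ‖a ^ j - 1‖ < (1 / 2 : ℝ) ^ m then 1 else 0

theorem brjInd_le (a : ℂ) (m j : ℕ) : brjInd a m j ≤ 1 := by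
  unfold brjInd
  split_ifs <;> omega

theorem brjInd_ne (a : ℂ) {m j : ℕ} (h : brjInd a m j ≠ 0) :
    1 ≤ j ∧ ‖a ^ j - 1‖ < (1 / 2 : ℝ) ^ m := by
  unfold brjInd at h
  by_contra hn
  rw [if_neg hn] at h
  exact h rfl

theorem brjInd_eq (a : ℂ) {m j : ℕ} (h1 : 1 ≤ j) (h2 : ‖a ^ j - 1‖ < (1 / 2 : ℝ) ^ m) :
    brjInd a m j = 1 := by
  unfold brjInd
  rw [if_pos ⟨h1, h2⟩]

theorem brj_pow_lt {m k : ℕ} (hk : 1 ≤ k) {c : ℝ} (h : 1 / (k : ℝ) < c * (1 / 2 : ℝ) ^ m) :
    (2 : ℝ) ^ m < c * k := by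
  have hk' : (0 : ℝ) < k := by exact_mod_cast hk
  have h2 : (0 : ℝ) < 2 ^ m := by positivity
  rw [one_div_pow, div_lt_iff₀ hk'] at h
  have h3 : c * (1 / 2 ^ m) * (k : ℝ) * 2 ^ m = c * k := by field_simp
  have h4 := mul_lt_mul_of_pos_right h h2
  rw [h3, one_mul] at h4
  exact h4

theorem brj_count (a : ℂ) (ha : ‖a‖ = 1)
    (hd : ∀ n : ℕ, 1 ≤ n → 1 / (n : ℝ) ≤ ‖a ^ n - 1‖) (m n : ℕ) :
    (brjN (brjInd a m) n : ℝ) ≤ 4 * n * (1 / 2 : ℝ) ^ m := by
  obtain ⟨b1, b2⟩ := brjN_bound (brjInd a m) (2 ^ m) (by positivity) (brjInd_le a m)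
    (by
      intro j hj
      obtain ⟨hj1, hj2⟩ := brjInd_ne a hj
      have h3 := brj_pow_lt (c := 1) hj1 (by rw [one_mul]; exact lt_of_le_of_lt (hd j hj1) hj2)
      rw [one_mul] at h3
      have h4 : 2 ^ m < j := by exact_mod_cast h3
      omega)
    (by
      intro j j' hj hj' hjj
      obtain ⟨hj1, hj2⟩ := brjInd_ne a hj
      obtain ⟨hj1', hj2'⟩ := brjInd_ne a hj'
      have e : ‖a ^ (j - j') - 1‖ ≤ ‖a ^ j - 1‖ + ‖a ^ j' - 1‖ := by
        have h5 : a ^ j' * (a ^ (j - j') - 1) = (a ^ j - 1) - (a ^ j' - 1) := by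
          rw [mul_sub, ← pow_add, mul_one, show j' + (j - j') = j by omega]; ring
        have h6 : ‖a ^ j' * (a ^ (j - j') - 1)‖ = ‖a ^ (j - j') - 1‖ := by
          rw [norm_mul, norm_pow, ha, one_pow, one_mul]
        rw [← h6, h5]
        exact norm_sub_le _ _
      have h3 := brj_pow_lt (m := m) (k := j - j') (c := 2) (by omega)
        (by have := hd (j - j') (by omega); linarith)
      exact_mod_cast h3)
    n
  rcases Nat.lt_or_ge (2 ^ m) (2 * n) with h | h
  · have h1 := b2 h
    have h2 : (2 : ℝ) ^ m * ((brjN (brjInd a m) n : ℝ) + 1) ≤ 4 * n := by exact_mod_cast h1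
    have h3 : (0 : ℝ) < 2 ^ m := by positivity
    rw [one_div_pow, mul_one_div, le_div_iff₀ h3]
    nlinarith
  · rw [b1 h]
    push_cast
    positivity

theorem exists_delta (a : ℂ) (ha : ‖a‖ = 1) (hd : ∀ n : ℕ, 1 ≤ n → 1 / (n : ℝ) ≤ ‖a ^ n - 1‖) :
    ∃ δ : ℕ → ℝ, (∀ n, 1 ≤ δ n) ∧ (∀ n, δ n ≤ 256 ^ n) ∧
      ∀ i j : ℕ, 1 ≤ i → 1 ≤ j → δ i * δ j ≤ min 1 ‖a ^ (i + j - 1) - 1‖ * δ (i + j) := by
  let S : ℕ → ℕ := fun n => ∑ m ∈ Finset.range (n + 2), brjN (brjInd a m) n
  refine ⟨fun n => 2 ^ S n, fun n => one_le_pow₀ (by norm_num), fun n => ?_, ?_⟩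
  · have h1 : (S n : ℝ) ≤ 8 * n := by
      have h2 : (S n : ℝ) = ∑ m ∈ Finset.range (n + 2), (brjN (brjInd a m) n : ℝ) := by
        simp only [S]; push_cast; rfl
      have h3 : ∑ m ∈ Finset.range (n + 2), (brjN (brjInd a m) n : ℝ) ≤
          ∑ m ∈ Finset.range (n + 2), 4 * (n : ℝ) * (1 / 2 : ℝ) ^ m :=
        Finset.sum_le_sum (fun m _ => brj_count a ha hd m n)
      have h4 : ∑ m ∈ Finset.range (n + 2), (1 / 2 : ℝ) ^ m ≤ 2 := by
        have := sum_geometric_two_le (n + 2)
        exact this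
      rw [← Finset.mul_sum] at h3
      have h5 : (0 : ℝ) ≤ n := Nat.cast_nonneg n
      rw [h2]
      nlinarith
    have h2 : S n ≤ 8 * n := by exact_mod_cast h1
    calc (2 : ℝ) ^ S n ≤ 2 ^ (8 * n) := pow_le_pow_right₀ (by norm_num) h2
      _ = 256 ^ n := by rw [pow_mul]; norm_num
  · intro i j hi hj
    have hsum : S i + S j + ∑ m ∈ Finset.range (i + j + 2), brjInd a m (i + j - 1) ≤
        S (i + j) := by
      have e1 : S i ≤ ∑ m ∈ Finset.range (i + j + 2), brjN (brjInd a m) i :=
        Finset.sum_le_sum_of_subset (Finset.range_mono (by omega))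
      have e2 : S j ≤ ∑ m ∈ Finset.range (i + j + 2), brjN (brjInd a m) j :=
        Finset.sum_le_sum_of_subset (Finset.range_mono (by omega))
      have e3 : ∑ m ∈ Finset.range (i + j + 2), (brjN (brjInd a m) i + brjN (brjInd a m) j +
          brjInd a m (i + j - 1)) ≤ S (i + j) :=
        Finset.sum_le_sum (fun m _ => brjN_le (brjInd a m) hi hj)
      rw [Finset.sum_add_distrib, Finset.sum_add_distrib] at e3
      omega
    set c := ∑ m ∈ Finset.range (i + j + 2), brjInd a m (i + j - 1) with hc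
    set ε := ‖a ^ (i + j - 1) - 1‖ with hε
    have hε1 : 1 / ((i + j - 1 : ℕ) : ℝ) ≤ ε := hd (i + j - 1) (by omega)
    have hpos : (0 : ℝ) < ((i + j - 1 : ℕ) : ℝ) := by
      have : 1 ≤ i + j - 1 := by omega
      exact_mod_cast this
    have hε0 : 0 < ε := lt_of_lt_of_le (by positivity) hε1
    have key : 1 ≤ min 1 ε * 2 ^ c := by
      rcases le_or_gt 1 ε with h | h
      · rw [min_eq_left h, one_mul]
        exact one_le_pow₀ (by norm_num)
      · rw [min_eq_right h.le]
        have hex : (1 / 2 : ℝ) ^ (i + j + 2) ≤ ε := by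
          refine le_trans ?_ hε1
          rw [one_div_pow]
          refine one_div_le_one_div_of_le hpos ?_
          have h1 : i + j - 1 ≤ 2 ^ (i + j + 2) := by
            have := (Nat.lt_two_pow_self (n := i + j + 2)).le
            omega
          exact_mod_cast h1
        have hex' : ∃ m : ℕ, (1 / 2 : ℝ) ^ m ≤ ε := ⟨_, hex⟩
        classical
        have hf1 := Nat.find_spec hex'
        have hf2 : Nat.find hex' ≤ i + j + 2 := Nat.find_min' hex' hex
        have hf3 : ∀ m < Nat.find hex', ε < (1 / 2 : ℝ) ^ m := fun m hm =>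
          not_le.1 (Nat.find_min hex' hm)
        set k := Nat.find hex'
        have hck : k ≤ c := by
          have e1 : ∑ m ∈ Finset.range k, brjInd a m (i + j - 1) ≤ c :=
            Finset.sum_le_sum_of_subset (Finset.range_mono hf2)
          have e2 : ∑ m ∈ Finset.range k, brjInd a m (i + j - 1) = k := by
            rw [Finset.sum_congr rfl (fun m hm => brjInd_eq a (by omega)
              (hf3 m (Finset.mem_range.1 hm)))]
            simp
          omega
        have h2 : (2 : ℝ) ^ k ≤ 2 ^ c := pow_le_pow_right₀ (by norm_num) hck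
        have h3 : (1 : ℝ) ≤ ε * 2 ^ k := by
          rw [one_div_pow, div_le_iff₀ (by positivity)] at hf1
          exact hf1
        nlinarith
    have h1 : (2 : ℝ) ^ (S i + S j + c) ≤ 2 ^ S (i + j) := pow_le_pow_right₀ (by norm_num) hsum
    have h2 : (0 : ℝ) < 2 ^ (S i + S j) := by positivity
    have h3 : (0 : ℝ) ≤ min 1 ε := le_min zero_le_one hε0.le
    calc (2 : ℝ) ^ S i * 2 ^ S j = 2 ^ (S i + S j) * 1 := by rw [mul_one, pow_add]
      _ ≤ 2 ^ (S i + S j) * (min 1 ε * 2 ^ c) := mul_le_mul_of_nonneg_left key h2.le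
      _ = min 1 ε * 2 ^ (S i + S j + c) := by rw [pow_add]; ring
      _ ≤ min 1 ε * 2 ^ S (i + j) := mul_le_mul_of_nonneg_left h1 h3

end Pool.Agent.Lib.MP_eb1abe_an
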