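import Mathlib

set_option autoImplicit false

/-! The quadratic holomorphic map of the projective plane used in the counterexample. -/

namespace Pool.Agent.Lib.MP_eb1abe_an

/-- the homogeneous quadratic map -/
noncomputable def FF (a : ℂ) (κ : ℝ) (v : Fin 3 → ℂ) : Fin 3 → ℂ :=
  ![a * v 0 * (v 1 - v 2) + 27 * (κ : ℂ) * v 1 ^ 2,
    100 * (v 1 * (v 1 - v 2) - (κ : ℂ) * v 0 ^ 2),
    v 2 * (v 1 - v 2) + (κ : ℂ) * (v 1 ^ 2 - v 0 ^ 2)]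

/-- the Jacobian determinant of `FF` divided by `200`. -/
noncomputable def JJ (a : ℂ) (κ : ℝ) (z w t : ℂ) : ℂ :=
  a * (w - t) ^ 3 + a * (κ : ℂ) * (w - t) * w ^ 2 + 2 * a * (κ : ℂ) ^ 2 * z ^ 2 * w +
    108 * (κ : ℂ) ^ 2 * z * w * (w - t)

/-- data of the invariant leaf through the neutral fixed point: `f (X z, V z) = (X (a z), V (a z))`. -/
structure LeafData (a : ℂ) (κ : ℝ) (X V : ℂ → ℂ) : Prop where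
  X0 : X 0 = 0
  V0 : V 0 = 0
  lipX : ∀ z w : ℂ, ‖z‖ ≤ 8 → ‖w‖ ≤ 8 → ‖(X z - z) - (X w - w)‖ ≤ (1 / 128) * ‖z - w‖
  lipV : ∀ z w : ℂ, ‖z‖ ≤ 8 → ‖w‖ ≤ 8 → ‖V z - V w‖ ≤ (1 / 128) * ‖z - w‖
  eq1 : ∀ z : ℂ, ‖z‖ ≤ 8 → X (a * z) * ((V z - 1) + (κ : ℂ) * (V z ^ 2 - X z ^ 2)) =
    a * X z * (V z - 1) + 27 * (κ : ℂ) * V z ^ 2
  eq2 : ∀ z : ℂ, ‖z‖ ≤ 8 → V (a * z) * ((V z - 1) + (κ : ℂ) * (V z ^ 2 - X z ^ 2)) =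
    100 * (V z * (V z - 1) - (κ : ℂ) * X z ^ 2)

/-- the open region (affine chart `t = 1`) -/
def RW (X V : ℂ → ℂ) : Set (ℂ × ℂ) :=
  {y | ∃ χ σ : ℂ, ‖χ‖ + ‖σ‖ / 8 < 5 ∧ y.1 = X χ ∧ y.2 = V χ + σ ∧ ‖y.2‖ < 2}

/-- the closed region (affine chart `t = 1`) -/
def RL (X V : ℂ → ℂ) : Set (ℂ × ℂ) :=
  {y | ∃ χ σ : ℂ, ‖χ‖ + ‖σ‖ / 8 ≤ 4 ∧ y.1 = X χ ∧ y.2 = V χ + σ ∧ ‖y.2‖ ≤ 3 / 2}

/-- cone over a subset of the affine chart -/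
def cone (A : Set (ℂ × ℂ)) : Set (Fin 3 → ℂ) := {v | v 2 ≠ 0 ∧ (v 0 / v 2, v 1 / v 2) ∈ A}

end Pool.Agent.Lib.MP_eb1abe_an
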