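import Mathlib
import Pool.Agent.Lib.MP_eb1abe_an.Defs

set_option autoImplicit false

/-! No hyperbolic splitting at the neutral fixed point `[0:0:1]`. -/

namespace Pool.Agent.Lib.MP_eb1abe_an

/-- the derivative of the map at `(0, 0, s)` -/
noncomputable def HypD (a s : ℂ) : (Fin 3 → ℂ) →L[ℂ] (Fin 3 → ℂ) :=
  ContinuousLinearMap.pi ![(-(a * s)) • ContinuousLinearMap.proj 0,
    (-(100 * s)) • ContinuousLinearMap.proj 1,
    s • ContinuousLinearMap.proj 1 - (2 * s) • ContinuousLinearMap.proj 2]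

lemma Hyp_D0 (a s : ℂ) (v : Fin 3 → ℂ) : HypD a s v 0 = -(a * s) * v 0 := by
  simp [HypD]

lemma Hyp_D1 (a s : ℂ) (v : Fin 3 → ℂ) : HypD a s v 1 = -(100 * s) * v 1 := by
  simp [HypD]

lemma Hyp_hasFDerivAt (a : ℂ) (κ : ℝ) (s : ℂ) :
    HasFDerivAt (FF a κ) (HypD a s) ![0, 0, s] := by
  have hp : ∀ i : Fin 3, HasFDerivAt (fun v : Fin 3 → ℂ => v i)
      (ContinuousLinearMap.proj (R := ℂ) (φ := fun _ : Fin 3 => ℂ) i) ![0, 0, s] := fun i =>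
    (ContinuousLinearMap.proj (R := ℂ) (φ := fun _ : Fin 3 => ℂ) i).hasFDerivAt
  rw [hasFDerivAt_pi']
  intro i
  fin_cases i
  · have h := (((hp 0).const_mul a).mul ((hp 1).sub (hp 2))).add
      (((hp 1).pow 2).const_mul (27 * (κ : ℂ)))
    convert! h using 1
    ext v
    simp [HypD]
    ring
  · have h := (((hp 1).mul ((hp 1).sub (hp 2))).sub (((hp 0).pow 2).const_mul (κ : ℂ))).const_mul
      (100 : ℂ)
    convert! h using 1
    ext v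
    simp [HypD]
    ring
  · have h := ((hp 2).mul ((hp 1).sub (hp 2))).add
      ((((hp 1).pow 2).sub ((hp 0).pow 2)).const_mul (κ : ℂ))
    convert! h using 1
    ext v
    simp [HypD]
    ring

lemma Hyp_FF_pt (a : ℂ) (κ : ℝ) (s : ℂ) : FF a κ ![0, 0, s] = ![0, 0, -s ^ 2] := by
  ext i
  fin_cases i <;> simp [FF]
  ring

lemma Hyp_iter (a : ℂ) (κ : ℝ) (n : ℕ) : ∃ (s ε : ℂ) (L : (Fin 3 → ℂ) →L[ℂ] (Fin 3 → ℂ)),
    ‖s‖ = 1 ∧ ‖ε‖ = 1 ∧ (FF a κ)^[n] ![0, 0, 1] = ![0, 0, s] ∧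
    HasFDerivAt ((FF a κ)^[n]) L ![0, 0, 1] ∧ (∀ w, L w 0 = ε * a ^ n * w 0) ∧
    ∀ w, L w 1 = ε * 100 ^ n * w 1 := by
  induction n with
  | zero =>
    refine ⟨1, 1, ContinuousLinearMap.id ℂ _, norm_one, norm_one, rfl, ?_, ?_, ?_⟩
    · simpa using hasFDerivAt_id (𝕜 := ℂ) (![0, 0, 1] : Fin 3 → ℂ)
    · intro w; simp
    · intro w; simp
  | succ n ih =>
    obtain ⟨s, ε, L, hs, hε, hpt, hd, h0, h1⟩ := ih
    refine ⟨-s ^ 2, -(s * ε), (HypD a s).comp L, ?_, ?_, ?_, ?_, ?_, ?_⟩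
    · simp [hs]
    · simp [hs, hε]
    · rw [Function.iterate_succ_apply', hpt, Hyp_FF_pt]
    · rw [Function.iterate_succ']
      refine HasFDerivAt.comp _ ?_ hd
      rw [hpt]
      exact Hyp_hasFDerivAt a κ s
    · intro w
      rw [ContinuousLinearMap.comp_apply, Hyp_D0, h0]
      ring
    · intro w
      rw [ContinuousLinearMap.comp_apply, Hyp_D1, h1]
      ring

lemma Hyp_range (s : ℂ) (w : Fin 3 → ℂ) :
    w ∈ Set.range (fun t : ℂ => t • (![0, 0, s] : Fin 3 → ℂ)) → w 0 = 0 ∧ w 1 = 0 := by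
  rintro ⟨t, rfl⟩
  simp

lemma Hyp_le_infDist (s : ℂ) (w : Fin 3 → ℂ) :
    ‖w 0‖ ≤ Metric.infDist w (Set.range fun t : ℂ => t • (![0, 0, s] : Fin 3 → ℂ)) ∧
    ‖w 1‖ ≤ Metric.infDist w (Set.range fun t : ℂ => t • (![0, 0, s] : Fin 3 → ℂ)) := by
  have hne : (Set.range fun t : ℂ => t • (![0, 0, s] : Fin 3 → ℂ)).Nonempty := ⟨_, 0, rfl⟩
  constructor
  · rw [Metric.le_infDist hne]
    intro y hy
    have h := (Hyp_range s y hy).1
    have h2 := norm_le_pi_norm (w - y) 0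
    rw [Pi.sub_apply, h, sub_zero] at h2
    rwa [dist_eq_norm]
  · rw [Metric.le_infDist hne]
    intro y hy
    have h := (Hyp_range s y hy).2
    have h2 := norm_le_pi_norm (w - y) 1
    rw [Pi.sub_apply, h, sub_zero] at h2
    rwa [dist_eq_norm]

lemma Hyp_infDist_le {s : ℂ} (hs : s ≠ 0) (w : Fin 3 → ℂ) {M : ℝ} (h0 : ‖w 0‖ ≤ M)
    (h1 : ‖w 1‖ ≤ M) :
    Metric.infDist w (Set.range fun t : ℂ => t • (![0, 0, s] : Fin 3 → ℂ)) ≤ M := by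
  have hM : 0 ≤ M := (norm_nonneg _).trans h0
  have hmem : (w 2 / s) • (![0, 0, s] : Fin 3 → ℂ) ∈
      (Set.range fun t : ℂ => t • (![0, 0, s] : Fin 3 → ℂ)) := ⟨w 2 / s, rfl⟩
  refine (Metric.infDist_le_dist_of_mem hmem).trans ?_
  rw [dist_eq_norm, pi_norm_le_iff_of_nonneg hM]
  intro i
  fin_cases i
  · simpa using h0
  · simpa using h1
  · simp [div_mul_cancel₀ _ hs, hM]

lemma Hyp_norm_pt (s : ℂ) (hs : ‖s‖ = 1) : ‖(![0, 0, s] : Fin 3 → ℂ)‖ = 1 := by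
  apply le_antisymm
  · rw [pi_norm_le_iff_of_nonneg zero_le_one]
    intro i
    fin_cases i <;> simp [hs]
  · have := norm_le_pi_norm (![0, 0, s] : Fin 3 → ℂ) 2
    simpa [hs] using this

lemma Hyp_small {x C mu q : ℝ} (hx : 0 ≤ x) (hC : 0 < C) (hmu : mu < 1) (hq : 0 ≤ q)
    (h : ∀ n : ℕ, 1 ≤ n → x ≤ C * mu ^ n * q) : x = 0 := by
  rcases lt_or_ge mu 0 with hneg | hpos
  · have h1 := h 1 le_rfl
    rw [pow_one] at h1
    have : C * mu * q ≤ 0 := mul_nonpos_of_nonpos_of_nonneg (mul_neg_of_pos_of_neg hC hneg).le hq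
    linarith
  · have ht : Filter.Tendsto (fun n : ℕ => C * mu ^ n * q) Filter.atTop (nhds (C * 0 * q)) :=
      ((tendsto_pow_atTop_nhds_zero_of_lt_one hpos hmu).const_mul C).mul_const q
    rw [mul_zero, zero_mul] at ht
    have := ge_of_tendsto ht (Filter.eventually_atTop.2 ⟨1, fun n hn => h n hn⟩)
    linarith

theorem no_splitting (a : ℂ) (ha : ‖a‖ = 1) (κ : ℝ) (Φ : (Fin 3 → ℂ) → (Fin 3 → ℂ))
    (hΦ : Φ = FF a κ) (K : Set (Fin 3 → ℂ)) (hK : ∀ t : ℂ, t ≠ 0 → (![0, 0, t] : Fin 3 → ℂ) ∈ K)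
    (H : Set (ℕ → Fin 3 → ℂ)) (hH : H = {u | ∀ k, u k ∈ K ∧ ∃ t : ℂ, Φ (u (k + 1)) = t • u k}) :
    ¬ ∃ Eu Es : (ℕ → Fin 3 → ℂ) → Submodule ℂ (Fin 3 → ℂ),
    (∀ u ∈ H, ∀ u' ∈ H, (∀ k, ∃ t : ℂ, u' k = t • u k) → Eu u' = Eu u ∧ Es u' = Es u) ∧
    (∀ u ∈ H, u 0 ∈ Eu u ∧ u 0 ∈ Es u ∧ Eu u ⊔ Es u = ⊤ ∧
        Eu u ⊓ Es u = Submodule.span ℂ {u 0}) ∧
    (∀ u ∈ H, ∀ w : Fin 3 → ℂ,
        (w ∈ Eu u → fderiv ℂ Φ (u 0) w ∈ Eu (fun k => if k = 0 then Φ (u 0) else u (k - 1))) ∧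
        (w ∈ Es u → fderiv ℂ Φ (u 0) w ∈ Es (fun k => if k = 0 then Φ (u 0) else u (k - 1)))) ∧
    (∀ u ∈ H, ∀ U : ℕ → ℕ → Fin 3 → ℂ, (∀ m, U m ∈ H) →
        (∀ k, Filter.Tendsto (fun m => U m k) Filter.atTop (nhds (u k))) →
        (∀ᶠ m in Filter.atTop, Module.finrank ℂ (Eu (U m)) = Module.finrank ℂ (Eu u) ∧
            Module.finrank ℂ (Es (U m)) = Module.finrank ℂ (Es u)) ∧
        (∀ w ∈ Eu u, ∃ W : ℕ → Fin 3 → ℂ, (∀ m, W m ∈ Eu (U m)) ∧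
            Filter.Tendsto W Filter.atTop (nhds w)) ∧
        (∀ w ∈ Es u, ∃ W : ℕ → Fin 3 → ℂ, (∀ m, W m ∈ Es (U m)) ∧
            Filter.Tendsto W Filter.atTop (nhds w))) ∧
    ∃ c C lam mu : ℝ, 0 < c ∧ 0 < C ∧ 1 < lam ∧ mu < 1 ∧
      ∀ u ∈ H, ∀ n : ℕ, 1 ≤ n → ∀ w : Fin 3 → ℂ,
        (w ∈ Eu u →
          c * lam ^ n * (Metric.infDist w (Set.range fun t : ℂ => t • u 0) / ‖u 0‖) ≤
            Metric.infDist (fderiv ℂ (Φ^[n]) (u 0) w) (Set.range fun t : ℂ => t • (Φ^[n]) (u 0)) /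
              ‖(Φ^[n]) (u 0)‖) ∧
        (w ∈ Es u →
          Metric.infDist (fderiv ℂ (Φ^[n]) (u 0) w) (Set.range fun t : ℂ => t • (Φ^[n]) (u 0)) /
              ‖(Φ^[n]) (u 0)‖ ≤
            C * mu ^ n * (Metric.infDist w (Set.range fun t : ℂ => t • u 0) / ‖u 0‖)) := by
  rintro ⟨Eu, Es, -, hsplit, -, -, c, C, lam, mu, hc, hC, hlam, hmu, hest⟩
  subst hΦ
  have hu : (fun _ => ![0, 0, 1] : ℕ → Fin 3 → ℂ) ∈ H := by
    rw [hH]
    intro k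
    refine ⟨hK 1 one_ne_zero, -1, ?_⟩
    rw [Hyp_FF_pt]
    ext i
    fin_cases i <;> simp
  obtain ⟨-, -, htop, -⟩ := hsplit _ hu
  have he : (![1, 0, 0] : Fin 3 → ℂ) ∈ Eu (fun _ => ![0, 0, 1]) ⊔ Es (fun _ => ![0, 0, 1]) := by
    rw [htop]; trivial
  obtain ⟨wu, hwu, ws, hws, hsum⟩ := Submodule.mem_sup.1 he
  have hn1 : ‖(![0, 0, 1] : Fin 3 → ℂ)‖ = 1 := Hyp_norm_pt 1 norm_one
  have hs0 : ∀ n : ℕ, 1 ≤ n → ‖ws 0‖ ≤ C * mu ^ n *
      Metric.infDist ws (Set.range fun t : ℂ => t • (![0, 0, 1] : Fin 3 → ℂ)) := by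
    intro n hn
    obtain ⟨s, ε, L, hs, hε, hpt, hd, h0, h1⟩ := Hyp_iter a κ n
    have h2 := (hest _ hu n hn ws).2 hws
    rw [hd.fderiv, hpt, Hyp_norm_pt s hs, hn1, div_one, div_one] at h2
    refine le_trans ?_ h2
    refine le_trans ?_ (Hyp_le_infDist s (L ws)).1
    rw [h0, norm_mul, norm_mul, hε, norm_pow, ha, one_pow, one_mul, one_mul]
  have hs1 : ∀ n : ℕ, 1 ≤ n → ‖ws 1‖ ≤ C * mu ^ n *
      Metric.infDist ws (Set.range fun t : ℂ => t • (![0, 0, 1] : Fin 3 → ℂ)) := by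
    intro n hn
    obtain ⟨s, ε, L, hs, hε, hpt, hd, h0, h1⟩ := Hyp_iter a κ n
    have h2 := (hest _ hu n hn ws).2 hws
    rw [hd.fderiv, hpt, Hyp_norm_pt s hs, hn1, div_one, div_one] at h2
    refine le_trans ?_ h2
    refine le_trans ?_ (Hyp_le_infDist s (L ws)).2
    rw [h1, norm_mul, norm_mul, hε, norm_pow, one_mul]
    have h100 : (1 : ℝ) ≤ ‖(100 : ℂ)‖ ^ n := by
      rw [Complex.norm_ofNat]
      exact one_le_pow₀ (by norm_num)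
    exact le_mul_of_one_le_left (norm_nonneg _) h100
  have hws0 : ws 0 = 0 := norm_eq_zero.1
    (Hyp_small (norm_nonneg _) hC hmu Metric.infDist_nonneg hs0)
  have hws1 : ws 1 = 0 := norm_eq_zero.1
    (Hyp_small (norm_nonneg _) hC hmu Metric.infDist_nonneg hs1)
  have hwu0 : wu 0 = 1 := by
    have := congrFun hsum 0
    rw [Pi.add_apply, hws0, add_zero] at this
    simpa using this
  have hwu1 : wu 1 = 0 := by
    have := congrFun hsum 1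
    rw [Pi.add_apply, hws1, add_zero] at this
    simpa using this
  have hgrow : ∀ n : ℕ, 1 ≤ n → c * lam ^ n ≤ 1 := by
    intro n hn
    obtain ⟨s, ε, L, hs, hε, hpt, hd, h0, h1⟩ := Hyp_iter a κ n
    have h2 := (hest _ hu n hn wu).1 hwu
    rw [hd.fderiv, hpt, Hyp_norm_pt s hs, hn1, div_one, div_one] at h2
    have h3 : Metric.infDist (L wu) (Set.range fun t : ℂ => t • (![0, 0, s] : Fin 3 → ℂ)) ≤ 1 := by
      apply Hyp_infDist_le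
      · intro h
        rw [h, norm_zero] at hs
        exact zero_ne_one hs
      · rw [h0, hwu0, norm_mul, norm_mul, hε, norm_pow, ha, one_pow, norm_one]
        norm_num
      · rw [h1, hwu1, mul_zero, norm_zero]
        exact zero_le_one
    have h4 : 1 ≤ Metric.infDist wu (Set.range fun t : ℂ => t • (![0, 0, 1] : Fin 3 → ℂ)) := by
      have := (Hyp_le_infDist 1 wu).1
      rwa [hwu0, norm_one] at this
    have h5 : 0 ≤ c * lam ^ n := by positivity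
    calc c * lam ^ n = c * lam ^ n * 1 := (mul_one _).symm
      _ ≤ c * lam ^ n * Metric.infDist wu (Set.range fun t : ℂ => t • (![0, 0, 1] : Fin 3 → ℂ)) :=
        mul_le_mul_of_nonneg_left h4 h5
      _ ≤ 1 := h2.trans h3
  obtain ⟨n, hn⟩ := pow_unbounded_of_one_lt (1 / c) hlam
  have h6 := hgrow (n + 1) (Nat.le_add_left _ _)
  have h7 : lam ^ n ≤ lam ^ (n + 1) := pow_le_pow_right₀ hlam.le (Nat.le_succ n)
  have h8 : 1 / c < lam ^ (n + 1) := hn.trans_le h7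
  rw [div_lt_iff₀ hc] at h8
  linarith

end Pool.Agent.Lib.MP_eb1abe_an
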