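import Mathlib
import Pool.Agent.Lib.MP_eb1abe_an.Defs

set_option autoImplicit false

/-! Non-vanishing of the Jacobian at the preimages (affine chart `t = 1`). -/

namespace Pool.Agent.Lib.MP_eb1abe_an

private theorem Jac_case1 (a : ℂ) (ha : ‖a‖ = 1) (κ : ℝ) (hκ0 : 0 < κ) (hκ : κ ≤ 1 / 2 ^ 60)
    (z w : ℂ) (hz : ‖z‖ ≤ 6) (hw : ‖w‖ ≤ 3 / 100) : JJ a κ z w 1 ≠ 0 := by
  intro h
  unfold JJ at h
  have hκn : ‖(κ : ℂ)‖ = κ := by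
    rw [Complex.norm_real, Real.norm_eq_abs, abs_of_pos hκ0]
  have hκ' : κ ≤ 1 / 1000000 := hκ.trans (by norm_num)
  -- lower bound for `w - 1`
  have h1 : 97 / 100 ≤ ‖w - 1‖ := by
    have : ‖(1 : ℂ)‖ - ‖w‖ ≤ ‖1 - w‖ := norm_sub_norm_le _ _
    rw [norm_one, norm_sub_rev] at this
    linarith
  have h1' : ‖w - 1‖ ≤ 2 := by
    have := norm_sub_le w (1 : ℂ)
    rw [norm_one] at this
    linarith
  have h3 : a * (w - 1) ^ 3 = -(a * (κ : ℂ) * (w - 1) * w ^ 2 + 2 * a * (κ : ℂ) ^ 2 * z ^ 2 * w +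
    108 * (κ : ℂ) ^ 2 * z * w * (w - 1)) := by
    linear_combination h
  have h4 : ‖a * (w - 1) ^ 3‖ = ‖w - 1‖ ^ 3 := by
    rw [norm_mul, ha, one_mul, norm_pow]
  have hκ2 : κ ^ 2 ≤ 1 / 1000000 := by nlinarith
  have hw0 := norm_nonneg w
  have hz0 := norm_nonneg z
  have hs0 := norm_nonneg (w - 1)
  have b1 : ‖a * (κ : ℂ) * (w - 1) * w ^ 2‖ ≤ 1 / 1000 := by
    rw [norm_mul, norm_mul, norm_mul, norm_pow, ha, hκn, one_mul]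
    calc κ * ‖w - 1‖ * ‖w‖ ^ 2 ≤ (1 / 1000000) * 2 * (3 / 100) ^ 2 := by gcongr
      _ ≤ 1 / 1000 := by norm_num
  have b2 : ‖2 * a * (κ : ℂ) ^ 2 * z ^ 2 * w‖ ≤ 1 / 1000 := by
    rw [norm_mul, norm_mul, norm_mul, norm_mul, norm_pow, norm_pow, ha, hκn]
    calc ‖(2 : ℂ)‖ * 1 * κ ^ 2 * ‖z‖ ^ 2 * ‖w‖ ≤ 2 * 1 * (1 / 1000000) * 6 ^ 2 * (3 / 100) := by
          have : ‖(2 : ℂ)‖ = 2 := by simp
          rw [this]
          gcongr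
      _ ≤ 1 / 1000 := by norm_num
  have b3 : ‖108 * (κ : ℂ) ^ 2 * z * w * (w - 1)‖ ≤ 1 / 1000 := by
    rw [norm_mul, norm_mul, norm_mul, norm_mul, norm_pow, hκn]
    calc ‖(108 : ℂ)‖ * κ ^ 2 * ‖z‖ * ‖w‖ * ‖w - 1‖ ≤ 108 * (1 / 1000000) * 6 * (3 / 100) * 2 := by
          have : ‖(108 : ℂ)‖ = 108 := by simp
          rw [this]
          gcongr
      _ ≤ 1 / 1000 := by norm_num
  have h5 : ‖w - 1‖ ^ 3 ≤ 3 / 1000 := by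
    rw [← h4, h3, norm_neg]
    refine (norm_add_le _ _).trans ?_
    have := norm_add_le (a * (κ : ℂ) * (w - 1) * w ^ 2) (2 * a * (κ : ℂ) ^ 2 * z ^ 2 * w)
    linarith
  have h6 : (97 / 100 : ℝ) ^ 3 ≤ ‖w - 1‖ ^ 3 := by gcongr
  norm_num at h6
  linarith

private theorem Jac_case2 (a : ℂ) (ha : ‖a‖ = 1) (κ : ℝ) (hκ0 : 0 < κ) (hκ : κ ≤ 1 / 2 ^ 60)
    (z w Y₂ : ℂ) (hY₂ : ‖Y₂‖ ≤ 2)
    (h2 : (w - 1) * (100 * w - Y₂) + (κ : ℂ) * (-(100 * z ^ 2) - Y₂ * (w ^ 2 - z ^ 2)) = 0)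
    (hw : ‖w - 1‖ ≤ 1 / 100) (hz : ‖z‖ ≤ 13 / 4) (hz' : 5 / 2 ≤ ‖z‖) : JJ a κ z w 1 ≠ 0 := by
  have hκn : ‖(κ : ℂ)‖ = κ := by
    rw [Complex.norm_real, Real.norm_eq_abs, abs_of_pos hκ0]
  have hκc : (κ : ℂ) ≠ 0 := by exact_mod_cast hκ0.ne'
  have hκ' : κ ≤ 1 / 1000000 := hκ.trans (by norm_num)
  obtain ⟨u, hu⟩ : ∃ u : ℂ, w - 1 = κ * u := ⟨(w - 1) / κ, by field_simp⟩
  have e1 : u * (100 * w - Y₂) = 100 * z ^ 2 + Y₂ * (w ^ 2 - z ^ 2) := by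
    have : (κ : ℂ) * (u * (100 * w - Y₂) - (100 * z ^ 2 + Y₂ * (w ^ 2 - z ^ 2))) = 0 := by
      rw [hu] at h2
      linear_combination h2
    rcases mul_eq_zero.mp this with h | h
    · exact absurd h hκc
    · exact sub_eq_zero.mp h
  have hw1 : ‖w‖ ≤ 101 / 100 := by
    have : w = (w - 1) + 1 := by ring
    rw [this]
    refine (norm_add_le _ _).trans ?_
    rw [norm_one]
    linarith
  have hw2 : 99 / 100 ≤ ‖w‖ := by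
    have : ‖(1 : ℂ)‖ - ‖1 - w‖ ≤ ‖(1 : ℂ) - (1 - w)‖ := norm_sub_norm_le _ _
    rw [norm_one, norm_sub_rev, sub_sub_cancel] at this
    linarith
  have hzn : ‖z ^ 2‖ ≤ 169 / 16 := by
    rw [norm_pow]
    calc ‖z‖ ^ 2 ≤ (13 / 4) ^ 2 := by gcongr
      _ = 169 / 16 := by norm_num
  have hwn : ‖w ^ 2‖ ≤ 11 / 10 := by
    rw [norm_pow]
    calc ‖w‖ ^ 2 ≤ (101 / 100) ^ 2 := by gcongr
      _ ≤ 11 / 10 := by norm_num
  have hd : ‖w ^ 2 - z ^ 2‖ ≤ 12 := by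
    refine (norm_sub_le _ _).trans ?_
    linarith
  have h97 : 97 ≤ ‖100 * w - Y₂‖ := by
    have h := norm_sub_norm_le (100 * w) Y₂
    have : ‖100 * w‖ = 100 * ‖w‖ := by rw [norm_mul]; simp
    rw [this] at h
    linarith
  have hu1 : ‖u‖ ≤ 12 := by
    have h := congrArg norm e1
    rw [norm_mul] at h
    have h' : ‖100 * z ^ 2 + Y₂ * (w ^ 2 - z ^ 2)‖ ≤ 100 * (169 / 16) + 2 * 12 := by
      refine (norm_add_le _ _).trans ?_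
      rw [norm_mul, norm_mul]
      have : ‖(100 : ℂ)‖ = 100 := by simp
      rw [this]
      gcongr
    have h3 : ‖u‖ * 97 ≤ 100 * (169 / 16) + 2 * 12 := by
      calc ‖u‖ * 97 ≤ ‖u‖ * ‖100 * w - Y₂‖ := by gcongr
        _ ≤ _ := by rw [h]; exact h'
    norm_num at h3
    linarith
  have e2 : 100 * (u * w - z ^ 2) = Y₂ * (w ^ 2 - z ^ 2 + u) := by
    linear_combination e1
  have h5 : ‖u * w - z ^ 2‖ ≤ 1 / 2 := by
    have h := congrArg norm e2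
    rw [norm_mul, norm_mul] at h
    have : ‖(100 : ℂ)‖ = 100 := by simp
    rw [this] at h
    have h' : ‖w ^ 2 - z ^ 2 + u‖ ≤ 24 := by
      refine (norm_add_le _ _).trans ?_
      linarith
    have h'' : ‖Y₂‖ * ‖w ^ 2 - z ^ 2 + u‖ ≤ 2 * 24 := by gcongr
    linarith
  have h6 : 18 ≤ ‖u * w + 2 * z ^ 2‖ := by
    have h := norm_sub_norm_le (3 * z ^ 2) (z ^ 2 - u * w)
    have e3 : 3 * z ^ 2 - (z ^ 2 - u * w) = u * w + 2 * z ^ 2 := by ring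
    rw [e3, norm_sub_rev (z ^ 2) (u * w)] at h
    have e4 : ‖3 * z ^ 2‖ = 3 * ‖z‖ ^ 2 := by rw [norm_mul, norm_pow]; simp
    rw [e4] at h
    have : (5 / 2 : ℝ) ^ 2 ≤ ‖z‖ ^ 2 := by gcongr
    norm_num at this
    linarith
  have hJ : JJ a κ z w 1 = (κ : ℂ) ^ 2 * (a * w * (u * w + 2 * z ^ 2) +
      κ * (a * u ^ 3 + 108 * z * w * u)) := by
    unfold JJ
    rw [hu]
    ring
  rw [hJ]
  apply mul_ne_zero (pow_ne_zero _ hκc)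
  intro h
  have h7 : a * w * (u * w + 2 * z ^ 2) = -(κ * (a * u ^ 3 + 108 * z * w * u)) := by
    linear_combination h
  have h8 : 17 ≤ ‖a * w * (u * w + 2 * z ^ 2)‖ := by
    rw [norm_mul, norm_mul, ha, one_mul]
    calc (17 : ℝ) ≤ 99 / 100 * 18 := by norm_num
      _ ≤ _ := by gcongr
  have h9 : ‖(κ : ℂ) * (a * u ^ 3 + 108 * z * w * u)‖ ≤ 1 := by
    rw [norm_mul, hκn]
    have h10 : ‖a * u ^ 3 + 108 * z * w * u‖ ≤ 12 ^ 3 + 108 * (13 / 4) * (101 / 100) * 12 := by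
      refine (norm_add_le _ _).trans ?_
      rw [norm_mul, norm_mul, norm_mul, norm_mul, norm_pow, ha, one_mul]
      have : ‖(108 : ℂ)‖ = 108 := by simp
      rw [this]
      gcongr
    calc κ * ‖a * u ^ 3 + 108 * z * w * u‖ ≤
        (1 / 1000000) * (12 ^ 3 + 108 * (13 / 4) * (101 / 100) * 12) := by gcongr
      _ ≤ 1 := by norm_num
  rw [h7, norm_neg] at h8
  linarith

theorem jac_ne (a : ℂ) (ha : ‖a‖ = 1) (κ : ℝ) (hκ0 : 0 < κ) (hκ : κ ≤ 1 / 2 ^ 60)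
    (z w Y₁ Y₂ : ℂ) (hY₁ : ‖Y₁‖ ≤ 26 / 5) (hY₂ : ‖Y₂‖ ≤ 2)
    (h2 : (w - 1) * (100 * w - Y₂) + (κ : ℂ) * (-(100 * z ^ 2) - Y₂ * (w ^ 2 - z ^ 2)) = 0)
    (hc : (‖z - Y₁ / a‖ ≤ 1 / 100 ∧ ‖w - Y₂ / 100‖ ≤ 1 / 100) ∨
      (‖w - 1‖ ≤ 1 / 100 ∧ ‖z‖ ≤ 13 / 4 ∧ 5 / 2 ≤ ‖z‖)) :
    JJ a κ z w 1 ≠ 0 := by
  rcases hc with ⟨h3, h4⟩ | ⟨h3, h4, h5⟩
  · apply Jac_case1 a ha κ hκ0 hκ z w
    · have e : z = (z - Y₁ / a) + Y₁ / a := by ring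
      rw [e]
      refine (norm_add_le _ _).trans ?_
      rw [norm_div, ha, div_one]
      linarith
    · have e : w = (w - Y₂ / 100) + Y₂ / 100 := by ring
      rw [e]
      refine (norm_add_le _ _).trans ?_
      rw [norm_div]
      have : ‖(100 : ℂ)‖ = 100 := by simp
      rw [this]
      linarith
  · exact Jac_case2 a ha κ hκ0 hκ z w Y₂ hY₂ h2 h3 h4 h5

end Pool.Agent.Lib.MP_eb1abe_an
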