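import Mathlib
import Pool.Agent.Lib.MP_eb1abe_an.Defs

set_option autoImplicit false

/-! From power series to the leaf. -/

namespace Pool.Agent.Lib.MP_eb1abe_an

open PowerSeries

/-- absolute summability of a power series at a point -/
def LeafS (z : ℂ) (P : ℂ⟦X⟧) : Prop := Summable (fun n : ℕ => ‖coeff n P * z ^ n‖)

/-- value of a power series at a point -/
noncomputable def leafEv (z : ℂ) (P : ℂ⟦X⟧) : ℂ := ∑' n : ℕ, coeff n P * z ^ n

theorem LeafS.add {z : ℂ} {P Q : ℂ⟦X⟧} (hP : LeafS z P) (hQ : LeafS z Q) : LeafS z (P + Q) := by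
  unfold LeafS at *
  refine Summable.of_nonneg_of_le (fun n => norm_nonneg _) (fun n => ?_) (Summable.add hP hQ)
  rw [map_add, add_mul]
  exact norm_add_le _ _

theorem LeafS.sub {z : ℂ} {P Q : ℂ⟦X⟧} (hP : LeafS z P) (hQ : LeafS z Q) : LeafS z (P - Q) := by
  unfold LeafS at *
  refine Summable.of_nonneg_of_le (fun n => norm_nonneg _) (fun n => ?_) (Summable.add hP hQ)
  rw [map_sub, sub_mul]
  exact norm_sub_le _ _

theorem leafEv_add {z : ℂ} {P Q : ℂ⟦X⟧} (hP : LeafS z P) (hQ : LeafS z Q) :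
    leafEv z (P + Q) = leafEv z P + leafEv z Q := by
  unfold leafEv
  rw [← hP.of_norm.tsum_add hQ.of_norm]
  refine tsum_congr fun n => ?_
  rw [map_add, add_mul]

theorem leafEv_sub {z : ℂ} {P Q : ℂ⟦X⟧} (hP : LeafS z P) (hQ : LeafS z Q) :
    leafEv z (P - Q) = leafEv z P - leafEv z Q := by
  unfold leafEv
  rw [← hP.of_norm.tsum_sub hQ.of_norm]
  refine tsum_congr fun n => ?_
  rw [map_sub, sub_mul]

theorem leaf_coeff_mul (z : ℂ) (P Q : ℂ⟦X⟧) (n : ℕ) :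
    coeff n (P * Q) * z ^ n =
      ∑ kl ∈ Finset.HasAntidiagonal.antidiagonal n, (coeff kl.1 P * z ^ kl.1) * (coeff kl.2 Q * z ^ kl.2) := by
  rw [coeff_mul, Finset.sum_mul]
  refine Finset.sum_congr rfl fun kl hkl => ?_
  rw [← Finset.HasAntidiagonal.mem_antidiagonal.mp hkl, pow_add]
  ring

theorem LeafS.mul {z : ℂ} {P Q : ℂ⟦X⟧} (hP : LeafS z P) (hQ : LeafS z Q) : LeafS z (P * Q) := by
  unfold LeafS at *
  have h := summable_norm_sum_mul_antidiagonal_of_summable_norm hP hQ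
  refine h.congr fun n => ?_
  rw [leaf_coeff_mul]

theorem leafEv_mul {z : ℂ} {P Q : ℂ⟦X⟧} (hP : LeafS z P) (hQ : LeafS z Q) :
    leafEv z (P * Q) = leafEv z P * leafEv z Q := by
  unfold leafEv
  have h := tsum_mul_tsum_eq_tsum_sum_antidiagonal_of_summable_norm hP hQ
  rw [h]
  refine tsum_congr fun n => ?_
  rw [leaf_coeff_mul]

theorem LeafS.C (z c : ℂ) : LeafS z (PowerSeries.C c) := by
  unfold LeafS
  refine summable_of_ne_finset_zero (s := {0}) fun n hn => ?_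
  have : n ≠ 0 := by simpa using hn
  rw [coeff_C, if_neg this]
  simp

theorem leafEv_C (z c : ℂ) : leafEv z (PowerSeries.C c) = c := by
  unfold leafEv
  rw [tsum_eq_single 0]
  · simp
  · intro n hn
    rw [coeff_C, if_neg hn]
    simp

theorem LeafS.one (z : ℂ) : LeafS z 1 := by
  have := LeafS.C z 1
  rwa [map_one] at this

theorem leafEv_one (z : ℂ) : leafEv z 1 = 1 := by
  have := leafEv_C z 1
  rwa [map_one] at this

theorem LeafS.X (z : ℂ) : LeafS z PowerSeries.X := by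
  unfold LeafS
  refine summable_of_ne_finset_zero (s := {1}) fun n hn => ?_
  have : n ≠ 1 := by simpa using hn
  rw [coeff_X, if_neg this]
  simp

theorem leafEv_X (z : ℂ) : leafEv z PowerSeries.X = z := by
  unfold leafEv
  rw [tsum_eq_single 1]
  · simp
  · intro n hn
    rw [coeff_X, if_neg hn]
    simp

theorem LeafS.pow {z : ℂ} {P : ℂ⟦X⟧} (hP : LeafS z P) : LeafS z (P ^ 2) := by
  rw [pow_two]; exact hP.mul hP

theorem leafEv_pow {z : ℂ} {P : ℂ⟦X⟧} (hP : LeafS z P) : leafEv z (P ^ 2) = leafEv z P ^ 2 := by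
  rw [pow_two, pow_two]; exact leafEv_mul hP hP

theorem LeafS.rescale {z a : ℂ} {P : ℂ⟦X⟧} (hP : LeafS (a * z) P) :
    LeafS z (PowerSeries.rescale a P) := by
  unfold LeafS at *
  refine hP.congr fun n => ?_
  rw [coeff_rescale, mul_pow]
  congr 1
  ring

theorem leafEv_rescale (z a : ℂ) (P : ℂ⟦X⟧) :
    leafEv z (PowerSeries.rescale a P) = leafEv (a * z) P := by
  unfold leafEv
  refine tsum_congr fun n => ?_
  rw [coeff_rescale, mul_pow]
  ring

theorem LeafS.of_bound {z : ℂ} (hz : ‖z‖ ≤ 8) {P : ℂ⟦X⟧}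
    (hP : ∀ n : ℕ, ‖coeff n P‖ ≤ (1 / 32) * (1 / 16) ^ n) : LeafS z P := by
  unfold LeafS
  have hs : Summable (fun n : ℕ => (1 / 32 : ℝ) * (1 / 2 : ℝ) ^ n) :=
    (summable_geometric_of_lt_one (by norm_num) (by norm_num)).mul_left _
  refine Summable.of_nonneg_of_le (fun n => norm_nonneg _) (fun n => ?_) hs
  rw [norm_mul, norm_pow]
  calc ‖coeff n P‖ * ‖z‖ ^ n ≤ ((1 / 32) * (1 / 16) ^ n) * 8 ^ n := by
        apply mul_le_mul (hP n) (pow_le_pow_left₀ (norm_nonneg _) hz n) (by positivity) (by positivity)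
    _ = (1 / 32 : ℝ) * (1 / 2 : ℝ) ^ n := by
        rw [mul_assoc, ← mul_pow]; norm_num

theorem leaf_pow_sub (z w : ℂ) (hz : ‖z‖ ≤ 8) (hw : ‖w‖ ≤ 8) (n : ℕ) :
    ‖z ^ n - w ^ n‖ * 8 ≤ n * 8 ^ n * ‖z - w‖ := by
  induction n with
  | zero => simp
  | succ n ih =>
    have e : z ^ (n + 1) - w ^ (n + 1) = z * (z ^ n - w ^ n) + (z - w) * w ^ n := by ring
    have h1 : ‖z ^ (n + 1) - w ^ (n + 1)‖ ≤ 8 * ‖z ^ n - w ^ n‖ + ‖z - w‖ * 8 ^ n := by
      rw [e]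
      refine (norm_add_le _ _).trans ?_
      rw [norm_mul, norm_mul, norm_pow]
      gcongr
    push_cast
    calc ‖z ^ (n + 1) - w ^ (n + 1)‖ * 8 ≤ (8 * ‖z ^ n - w ^ n‖ + ‖z - w‖ * 8 ^ n) * 8 := by
          gcongr
      _ = 8 * (‖z ^ n - w ^ n‖ * 8) + ‖z - w‖ * 8 ^ n * 8 := by ring
      _ ≤ 8 * (n * 8 ^ n * ‖z - w‖) + ‖z - w‖ * 8 ^ n * 8 := by gcongr
      _ = (n + 1) * 8 ^ (n + 1) * ‖z - w‖ := by ring

theorem leaf_lip {z w : ℂ} (hz : ‖z‖ ≤ 8) (hw : ‖w‖ ≤ 8) {P : ℂ⟦X⟧}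
    (hP : ∀ n : ℕ, ‖coeff n P‖ ≤ (1 / 32) * (1 / 16) ^ n) :
    ‖leafEv z P - leafEv w P‖ ≤ (1 / 128) * ‖z - w‖ := by
  have hg : HasSum (fun n : ℕ => ((1 / 256 : ℝ) * ‖z - w‖) * ((n : ℝ) * (1 / 2 : ℝ) ^ n))
      (((1 / 256 : ℝ) * ‖z - w‖) * ((1 / 2) / (1 - 1 / 2) ^ 2)) := by
    refine HasSum.mul_left _ ?_
    exact hasSum_coe_mul_geometric_of_norm_lt_one (by norm_num)
  have e : leafEv z P - leafEv w P = ∑' n : ℕ, (coeff n P * z ^ n - coeff n P * w ^ n) := by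
    unfold leafEv
    rw [(LeafS.of_bound hz hP).of_norm.tsum_sub (LeafS.of_bound hw hP).of_norm]
  rw [e]
  have h := tsum_of_norm_bounded hg (f := fun n : ℕ => coeff n P * z ^ n - coeff n P * w ^ n) ?_
  · refine h.trans (le_of_eq ?_)
    ring
  · intro n
    rw [← mul_sub, norm_mul]
    have h1 := leaf_pow_sub z w hz hw n
    have h2 : ‖z ^ n - w ^ n‖ ≤ n * 8 ^ n * ‖z - w‖ / 8 := by
      rw [le_div_iff₀ (by norm_num)]; exact h1
    calc ‖coeff n P‖ * ‖z ^ n - w ^ n‖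
        ≤ ((1 / 32) * (1 / 16) ^ n) * (n * 8 ^ n * ‖z - w‖ / 8) :=
          mul_le_mul (hP n) h2 (norm_nonneg _) (by positivity)
      _ = ((1 / 256 : ℝ) * ‖z - w‖) * ((n : ℝ) * ((1 / 16) ^ n * 8 ^ n)) := by ring
      _ = ((1 / 256 : ℝ) * ‖z - w‖) * ((n : ℝ) * (1 / 2 : ℝ) ^ n) := by
          rw [← mul_pow]; norm_num

theorem leaf_of_series (a : ℂ) (ha : ‖a‖ = 1) (κ : ℝ) (X V : ℂ⟦X⟧)
    (hX0 : coeff 0 X = 0) (hX1 : coeff 1 X = 1) (hV0 : coeff 0 V = 0) (hV1 : coeff 1 V = 0)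
    (hX : ∀ n : ℕ, 2 ≤ n → ‖coeff n X‖ ≤ (1 / 32) * (1 / 16) ^ n)
    (hV : ∀ n : ℕ, 2 ≤ n → ‖coeff n V‖ ≤ (1 / 32) * (1 / 16) ^ n)
    (e1 : rescale a X * ((V - 1) + C (κ : ℂ) * (V ^ 2 - X ^ 2)) =
        C a * X * (V - 1) + C (27 * (κ : ℂ)) * V ^ 2)
    (e2 : rescale a V * ((V - 1) + C (κ : ℂ) * (V ^ 2 - X ^ 2)) =
        C 100 * (V * (V - 1) - C (κ : ℂ) * X ^ 2)) :
    ∃ Xf Vf : ℂ → ℂ, LeafData a κ Xf Vf := by
  -- the remainder of `X`
  have hX' : ∀ n : ℕ, ‖coeff n (X - PowerSeries.X)‖ ≤ (1 / 32) * (1 / 16) ^ n := by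
    intro n
    rcases Nat.lt_or_ge n 2 with h | h
    · have : coeff n (X - PowerSeries.X) = 0 := by
        interval_cases n
        · rw [map_sub, hX0]; simp
        · rw [map_sub, hX1]; simp
      rw [this, norm_zero]; positivity
    · rw [map_sub, coeff_X, if_neg (by omega), sub_zero]
      exact hX n h
  have hV' : ∀ n : ℕ, ‖coeff n V‖ ≤ (1 / 32) * (1 / 16) ^ n := by
    intro n
    rcases Nat.lt_or_ge n 2 with h | h
    · have : coeff n V = 0 := by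
        interval_cases n
        · exact hV0
        · exact hV1
      rw [this, norm_zero]; positivity
    · exact hV n h
  have hXe : (X - PowerSeries.X) + PowerSeries.X = X := by ring
  have sX : ∀ z : ℂ, ‖z‖ ≤ 8 → LeafS z X := fun z hz => by
    have := (LeafS.of_bound hz hX').add (LeafS.X z)
    rwa [hXe] at this
  have sV : ∀ z : ℂ, ‖z‖ ≤ 8 → LeafS z V := fun z hz => LeafS.of_bound hz hV'
  have eX : ∀ z : ℂ, ‖z‖ ≤ 8 → leafEv z X - z = leafEv z (X - PowerSeries.X) := fun z hz => by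
    rw [leafEv_sub (sX z hz) (LeafS.X z), leafEv_X]
  have haz : ∀ z : ℂ, ‖z‖ ≤ 8 → ‖a * z‖ ≤ 8 := fun z hz => by rw [norm_mul, ha, one_mul]; exact hz
  refine ⟨fun z => leafEv z X, fun z => leafEv z V, ?_, ?_, ?_, ?_, ?_, ?_⟩
  · show leafEv 0 X = 0
    unfold leafEv
    rw [tsum_eq_single 0]
    · rw [hX0, zero_mul]
    · intro n hn
      rw [zero_pow hn, mul_zero]
  · show leafEv 0 V = 0
    unfold leafEv
    rw [tsum_eq_single 0]
    · rw [hV0, zero_mul]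
    · intro n hn
      rw [zero_pow hn, mul_zero]
  · intro z w hz hw
    show ‖(leafEv z X - z) - (leafEv w X - w)‖ ≤ (1 / 128) * ‖z - w‖
    rw [eX z hz, eX w hw]
    exact leaf_lip hz hw hX'
  · intro z w hz hw
    exact leaf_lip hz hw hV'
  · intro z hz
    show leafEv (a * z) X * ((leafEv z V - 1) + (κ : ℂ) * (leafEv z V ^ 2 - leafEv z X ^ 2)) =
      a * leafEv z X * (leafEv z V - 1) + 27 * (κ : ℂ) * leafEv z V ^ 2
    have hx := sX z hz
    have hv := sV z hz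
    have hr := (sX (a * z) (haz z hz)).rescale
    have hv1 := hv.sub (LeafS.one z)
    have h := congrArg (leafEv z) e1
    rw [leafEv_mul hr (hv1.add ((LeafS.C z _).mul (hv.pow.sub hx.pow))),
      leafEv_add hv1 ((LeafS.C z _).mul (hv.pow.sub hx.pow)),
      leafEv_mul (LeafS.C z _) (hv.pow.sub hx.pow), leafEv_sub hv.pow hx.pow, leafEv_pow hv,
      leafEv_pow hx, leafEv_sub hv (LeafS.one z), leafEv_one, leafEv_C, leafEv_rescale,
      leafEv_add (((LeafS.C z _).mul hx).mul hv1) ((LeafS.C z _).mul hv.pow),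
      leafEv_mul ((LeafS.C z _).mul hx) hv1, leafEv_mul (LeafS.C z _) hx,
      leafEv_mul (LeafS.C z _) hv.pow, leafEv_C, leafEv_C, leafEv_pow hv,
      leafEv_sub hv (LeafS.one z), leafEv_one] at h
    exact h
  · intro z hz
    show leafEv (a * z) V * ((leafEv z V - 1) + (κ : ℂ) * (leafEv z V ^ 2 - leafEv z X ^ 2)) =
      100 * (leafEv z V * (leafEv z V - 1) - (κ : ℂ) * leafEv z X ^ 2)
    have hx := sX z hz
    have hv := sV z hz
    have hr := (sV (a * z) (haz z hz)).rescale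
    have hv1 := hv.sub (LeafS.one z)
    have h := congrArg (leafEv z) e2
    rw [leafEv_mul hr (hv1.add ((LeafS.C z _).mul (hv.pow.sub hx.pow))),
      leafEv_add hv1 ((LeafS.C z _).mul (hv.pow.sub hx.pow)),
      leafEv_mul (LeafS.C z _) (hv.pow.sub hx.pow), leafEv_sub hv.pow hx.pow, leafEv_pow hv,
      leafEv_pow hx, leafEv_sub hv (LeafS.one z), leafEv_one, leafEv_C, leafEv_rescale,
      leafEv_mul (LeafS.C z _) ((hv.mul hv1).sub ((LeafS.C z _).mul hx.pow)),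
      leafEv_sub (hv.mul hv1) ((LeafS.C z _).mul hx.pow), leafEv_mul hv hv1,
      leafEv_mul (LeafS.C z _) hx.pow, leafEv_C, leafEv_C, leafEv_pow hx,
      leafEv_sub hv (LeafS.one z), leafEv_one] at h
    exact h

end Pool.Agent.Lib.MP_eb1abe_an
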