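import Mathlib

set_option autoImplicit false

/-! A unimodular number with good Diophantine properties. -/

namespace Pool.Agent.Lib.MP_eb1abe_an

/-- Distance of `n √2` to an integer. -/
private theorem NT_sqrt_two (n : ℕ) (hn : 1 ≤ n) :
    1 / (4 * (n : ℝ)) ≤ |(n : ℝ) * √2 - round ((n : ℝ) * √2)| := by
  set m : ℤ := round ((n : ℝ) * √2) with hm
  have h2 : √2 * √2 = 2 := Real.mul_self_sqrt (by norm_num)
  have h0 : (0 : ℝ) ≤ √2 := Real.sqrt_nonneg 2
  have h15 : √2 ≤ 1.5 := by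
    rw [Real.sqrt_le_left (by norm_num)]; norm_num
  have hn' : (1 : ℝ) ≤ n := by exact_mod_cast hn
  have hr : |(n : ℝ) * √2 - m| ≤ 1 / 2 := abs_sub_round _
  have hr1 := abs_le.mp hr
  have hm0 : (0 : ℝ) ≤ (n : ℝ) * √2 + m := by
    have : (1 : ℝ) ≤ √2 := by
      rw [Real.one_le_sqrt]; norm_num
    nlinarith [hr1.2]
  have hm1 : (n : ℝ) * √2 + m ≤ 4 * n := by nlinarith [hr1.1]
  -- the integer `2 n^2 - m^2` is nonzero
  have hint : (1 : ℝ) ≤ |((n : ℝ) * √2 - m) * ((n : ℝ) * √2 + m)| := by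
    have e : ((n : ℝ) * √2 - m) * ((n : ℝ) * √2 + m) = ((2 * (n : ℤ) ^ 2 - m ^ 2 : ℤ) : ℝ) := by
      push_cast
      have : ((n : ℝ) * √2 - m) * ((n : ℝ) * √2 + m) = (n : ℝ) ^ 2 * (√2 * √2) - (m : ℝ) ^ 2 := by
        ring
      rw [this, h2]; ring
    rw [e]
    have hne : (2 * (n : ℤ) ^ 2 - m ^ 2 : ℤ) ≠ 0 := by
      intro h
      have h' : ((2 * (n : ℤ) ^ 2 - m ^ 2 : ℤ) : ℝ) = 0 := by rw [h]; simp
      rw [← e] at h'
      have hirr := irrational_sqrt_two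
      rcases mul_eq_zero.mp h' with h3 | h3
      · apply hirr
        refine ⟨(m : ℚ) / n, ?_⟩
        push_cast
        rw [div_eq_iff (by positivity)]
        linarith
      · apply hirr
        refine ⟨(-m : ℚ) / n, ?_⟩
        push_cast
        rw [div_eq_iff (by positivity)]
        linarith
    rw [← Int.cast_abs]
    exact_mod_cast Int.one_le_abs hne
  rw [abs_mul, abs_of_nonneg hm0] at hint
  rw [div_le_iff₀ (by positivity)]
  nlinarith [abs_nonneg ((n : ℝ) * √2 - m)]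

theorem exists_a : ∃ a : ℂ, ‖a‖ = 1 ∧ ∀ n : ℕ, 1 ≤ n → 1 / (n : ℝ) ≤ ‖a ^ n - 1‖ := by
  refine ⟨Complex.exp (Complex.I * ((2 * Real.pi * √2 : ℝ) : ℂ)), ?_, ?_⟩
  · rw [mul_comm, Complex.norm_exp_ofReal_mul_I]
  · intro n hn
    set m : ℤ := round ((n : ℝ) * √2) with hm
    set x : ℝ := (n : ℝ) * √2 - m with hx
    have e : Complex.exp (Complex.I * ((2 * Real.pi * √2 : ℝ) : ℂ)) ^ n =
        Complex.exp (Complex.I * ((2 * Real.pi * x : ℝ) : ℂ)) := by
      rw [← Complex.exp_nat_mul]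
      have : (n : ℂ) * (Complex.I * ((2 * Real.pi * √2 : ℝ) : ℂ)) =
          Complex.I * ((2 * Real.pi * x : ℝ) : ℂ) + m * (2 * Real.pi * Complex.I) := by
        rw [hx]; push_cast; ring
      rw [this, Complex.exp_add, Complex.exp_int_mul_two_pi_mul_I, mul_one]
    rw [e, Complex.norm_exp_I_mul_ofReal_sub_one]
    have hx1 : |x| ≤ 1 / 2 := abs_sub_round _
    have hx2 : 1 / (4 * (n : ℝ)) ≤ |x| := NT_sqrt_two n hn
    have e2 : 2 * Real.pi * x / 2 = Real.pi * x := by ring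
    rw [e2, Real.norm_eq_abs, abs_mul, abs_of_pos (by norm_num : (0 : ℝ) < 2)]
    have hpi := Real.pi_pos
    have h1 : 2 / Real.pi * |Real.pi * x| ≤ |Real.sin (Real.pi * x)| := by
      apply Real.mul_abs_le_abs_sin
      rw [abs_mul, abs_of_pos hpi]
      nlinarith
    have h3 : 2 / Real.pi * |Real.pi * x| = 2 * |x| := by
      rw [abs_mul, abs_of_pos hpi]
      field_simp
    rw [h3] at h1
    have h4 : 1 / (n : ℝ) = 4 * (1 / (4 * (n : ℝ))) := by
      field_simp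
    rw [h4]
    linarith

end Pool.Agent.Lib.MP_eb1abe_an
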