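import Mathlib
import Pool.Agent.Lib.MP_eb1abe_an.Defs

set_option autoImplicit false

/-! The homogeneous polynomials and their Jacobian. -/

namespace Pool.Agent.Lib.MP_eb1abe_an

open MvPolynomial

/-- the three homogeneous polynomials -/
noncomputable def PF (a : ℂ) (κ : ℝ) : Fin 3 → MvPolynomial (Fin 3) ℂ :=
  ![C a * X 0 * (X 1 - X 2) + C (27 * (κ : ℂ)) * X 1 ^ 2,
    C 100 * (X 1 * (X 1 - X 2) - C (κ : ℂ) * X 0 ^ 2),
    X 2 * (X 1 - X 2) + C (κ : ℂ) * (X 1 ^ 2 - X 0 ^ 2)]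

theorem PF_hom (a : ℂ) (κ : ℝ) (i : Fin 3) : (PF a κ i).IsHomogeneous 2 := by
  have hX : ∀ j : Fin 3, (X j : MvPolynomial (Fin 3) ℂ).IsHomogeneous 1 := fun j => isHomogeneous_X ℂ j
  have hC : ∀ c : ℂ, (C c : MvPolynomial (Fin 3) ℂ).IsHomogeneous 0 := fun c => isHomogeneous_C _ c
  have hd : (X 1 - X 2 : MvPolynomial (Fin 3) ℂ).IsHomogeneous 1 := (hX 1).sub (hX 2)
  have hsq : ∀ j : Fin 3, (X j ^ 2 : MvPolynomial (Fin 3) ℂ).IsHomogeneous 2 := fun j => by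
    have := (hX j).pow 2
    simpa using this
  fin_cases i
  · show (C a * X 0 * (X 1 - X 2) + C (27 * (κ : ℂ)) * X 1 ^ 2 : MvPolynomial (Fin 3) ℂ).IsHomogeneous 2
    refine IsHomogeneous.add ?_ ?_
    · exact ((hC a).mul (hX 0)).mul hd
    · exact (hC _).mul (hsq 1)
  · show (C 100 * (X 1 * (X 1 - X 2) - C (κ : ℂ) * X 0 ^ 2) : MvPolynomial (Fin 3) ℂ).IsHomogeneous 2
    have h1 : (X 1 * (X 1 - X 2) - C (κ : ℂ) * X 0 ^ 2 : MvPolynomial (Fin 3) ℂ).IsHomogeneous 2 :=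
      ((hX 1).mul hd).sub ((hC _).mul (hsq 0))
    exact (hC _).mul h1
  · show (X 2 * (X 1 - X 2) + C (κ : ℂ) * (X 1 ^ 2 - X 0 ^ 2) : MvPolynomial (Fin 3) ℂ).IsHomogeneous 2
    refine IsHomogeneous.add ((hX 2).mul hd) ?_
    exact (hC _).mul ((hsq 1).sub (hsq 0))

theorem PF_eval (a : ℂ) (κ : ℝ) (x : Fin 3 → ℂ) (i : Fin 3) : eval x (PF a κ i) = FF a κ x i := by
  fin_cases i <;> simp [PF, FF]

theorem PF_det (a : ℂ) (κ : ℝ) (c : Fin 3 → ℂ) :
    Matrix.det (Matrix.of fun i j => eval c (pderiv j (PF a κ i))) = 200 * JJ a κ (c 0) (c 1) (c 2) := by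
  have d0 : ∀ j : Fin 3, eval c (pderiv j (PF a κ 0)) =
      ![a * (c 1 - c 2), a * c 0 + 54 * κ * c 1, - (a * c 0)] j := by
    intro j
    fin_cases j <;>
      simp [PF, pderiv_X, Pi.single_apply, Derivation.leibniz, pderiv_C, pderiv_pow] <;> ring
  have d1 : ∀ j : Fin 3, eval c (pderiv j (PF a κ 1)) =
      ![-(200 * κ * c 0), 100 * (2 * c 1 - c 2), - (100 * c 1)] j := by
    intro j
    fin_cases j <;>
      simp [PF, pderiv_X, Pi.single_apply, Derivation.leibniz, pderiv_C, pderiv_pow] <;> ring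
  have d2 : ∀ j : Fin 3, eval c (pderiv j (PF a κ 2)) =
      ![-(2 * κ * c 0), c 2 + 2 * κ * c 1, c 1 - 2 * c 2] j := by
    intro j
    fin_cases j <;>
      simp [PF, pderiv_X, Pi.single_apply, Derivation.leibniz, pderiv_C, pderiv_pow] <;> ring
  rw [Matrix.det_fin_three]
  simp only [Matrix.of_apply, d0, d1, d2]
  simp [JJ]
  ring

end Pool.Agent.Lib.MP_eb1abe_an
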