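import Mathlib

set_option autoImplicit false

/-! Location of the preimages. -/

namespace Pool.Agent.Lib.MP_eb1abe_an

private lemma Pre_A {z w Y₁ : ℂ} (hz : ‖z‖ ≤ 1) (hw : ‖w‖ ≤ 1)
    (hY₁ : ‖Y₁‖ ≤ 26 / 5) :
    ‖(27 * w ^ 2 - Y₁ * (w ^ 2 - z ^ 2) : ℂ)‖ ≤ 38 := by
  have h1 : ‖w ^ 2‖ ≤ 1 := by
    rw [norm_pow]; exact pow_le_one₀ (norm_nonneg _) hw
  have h2 : ‖z ^ 2‖ ≤ 1 := by
    rw [norm_pow]; exact pow_le_one₀ (norm_nonneg _) hz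
  have h3 : ‖w ^ 2 - z ^ 2‖ ≤ 2 := (norm_sub_le _ _).trans (by linarith)
  have h4 : ‖Y₁ * (w ^ 2 - z ^ 2)‖ ≤ 26 / 5 * 2 := by
    rw [norm_mul]
    exact mul_le_mul hY₁ h3 (norm_nonneg _) (by norm_num)
  have h5 : ‖(27 : ℂ) * w ^ 2‖ ≤ 27 := by
    rw [norm_mul]
    have : ‖(27 : ℂ)‖ = 27 := by norm_num
    rw [this]; linarith
  exact (norm_sub_le _ _).trans (by linarith)

private lemma Pre_B {z w Y₂ : ℂ} (hz : ‖z‖ ≤ 1) (hw : ‖w‖ ≤ 1)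
    (hY₂ : ‖Y₂‖ ≤ 2) :
    ‖(-(100 * z ^ 2) - Y₂ * (w ^ 2 - z ^ 2) : ℂ)‖ ≤ 104 := by
  have h1 : ‖w ^ 2‖ ≤ 1 := by
    rw [norm_pow]; exact pow_le_one₀ (norm_nonneg _) hw
  have h2 : ‖z ^ 2‖ ≤ 1 := by
    rw [norm_pow]; exact pow_le_one₀ (norm_nonneg _) hz
  have h3 : ‖w ^ 2 - z ^ 2‖ ≤ 2 := (norm_sub_le _ _).trans (by linarith)
  have h4 : ‖Y₂ * (w ^ 2 - z ^ 2)‖ ≤ 2 * 2 := by
    rw [norm_mul]
    exact mul_le_mul hY₂ h3 (norm_nonneg _) (by norm_num)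
  have h5 : ‖-((100 : ℂ) * z ^ 2)‖ ≤ 100 := by
    rw [norm_neg, norm_mul]
    have : ‖(100 : ℂ)‖ = 100 := by norm_num
    rw [this]; linarith
  exact (norm_sub_le _ _).trans (by linarith)

/-- the case where `w - t` is not small -/
private lemma Pre_caseI {a : ℂ} (ha : ‖a‖ = 1) {κ : ℝ} (hκ0 : 0 < κ) (hκ : κ ≤ 1 / 2 ^ 60)
    {z w t Y₁ Y₂ : ℂ} (hz : ‖z‖ ≤ 1) (hw : ‖w‖ ≤ 1)
    (hmax : ‖z‖ = 1 ∨ ‖w‖ = 1 ∨ ‖t‖ = 1) (hY₁ : ‖Y₁‖ ≤ 26 / 5) (hY₂ : ‖Y₂‖ ≤ 2)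
    (h1 : (w - t) * (a * z - Y₁ * t) + (κ : ℂ) * (27 * w ^ 2 - Y₁ * (w ^ 2 - z ^ 2)) = 0)
    (h2 : (w - t) * (100 * w - Y₂ * t) + (κ : ℂ) * (-(100 * z ^ 2) - Y₂ * (w ^ 2 - z ^ 2)) = 0)
    (hs : 1 / 2 ^ 30 ≤ ‖w - t‖) :
    t ≠ 0 ∧ (‖z / t - Y₁ / a‖ ≤ 1 / 100 ∧ ‖w / t - Y₂ / 100‖ ≤ 1 / 100) := by
  have ha0 : a ≠ 0 := by
    rintro rfl; norm_num at ha
  have hκn : ‖(κ : ℂ)‖ = κ := by
    rw [Complex.norm_real, Real.norm_eq_abs, abs_of_pos hκ0]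
  have key : ∀ P Q : ℂ, ∀ C : ℝ, (w - t) * P + (κ : ℂ) * Q = 0 → ‖Q‖ ≤ C → 0 ≤ C →
      ‖P‖ ≤ C / 2 ^ 30 := by
    intro P Q C h hQ hC
    have e1 : (w - t) * P = -((κ : ℂ) * Q) := eq_neg_of_add_eq_zero_left h
    have e2 : ‖w - t‖ * ‖P‖ = κ * ‖Q‖ := by
      rw [← norm_mul, e1, norm_neg, norm_mul, hκn]
    have e3 : 1 / 2 ^ 30 * ‖P‖ ≤ ‖w - t‖ * ‖P‖ := mul_le_mul_of_nonneg_right hs (norm_nonneg _)
    have e4 : κ * ‖Q‖ ≤ 1 / 2 ^ 60 * C := mul_le_mul hκ hQ (norm_nonneg _) (by norm_num)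
    have e5 : 1 / 2 ^ 30 * ‖P‖ ≤ 1 / 2 ^ 60 * C := by linarith
    have e6 : ‖P‖ = 2 ^ 30 * (1 / 2 ^ 30 * ‖P‖) := by ring
    rw [e6]
    calc 2 ^ 30 * (1 / 2 ^ 30 * ‖P‖) ≤ 2 ^ 30 * (1 / 2 ^ 60 * C) := by
          exact mul_le_mul_of_nonneg_left e5 (by norm_num)
      _ = C / 2 ^ 30 := by ring
  have k1 := key _ _ 38 h1 (Pre_A hz hw hY₁) (by norm_num)
  have k2 := key _ _ 104 h2 (Pre_B hz hw hY₂) (by norm_num)
  have hz' : ‖z‖ ≤ 26 / 5 * ‖t‖ + 38 / 2 ^ 30 := by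
    have e : ‖z‖ = ‖a * z‖ := by rw [norm_mul, ha, one_mul]
    have e' : a * z = (a * z - Y₁ * t) + Y₁ * t := by ring
    rw [e, e']
    refine (norm_add_le _ _).trans ?_
    rw [norm_mul Y₁ t]
    have := mul_le_mul_of_nonneg_right hY₁ (norm_nonneg t)
    linarith
  have hw' : ‖w‖ ≤ 1 / 50 * ‖t‖ + 104 / 2 ^ 30 := by
    have e : 100 * ‖w‖ = ‖100 * w‖ := by rw [norm_mul]; norm_num
    have e' : 100 * w = (100 * w - Y₂ * t) + Y₂ * t := by ring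
    have e2 : 100 * ‖w‖ ≤ 104 / 2 ^ 30 + 2 * ‖t‖ := by
      rw [e, e']
      refine (norm_add_le _ _).trans ?_
      rw [norm_mul Y₂ t]
      have := mul_le_mul_of_nonneg_right hY₂ (norm_nonneg t)
      linarith
    have : (0:ℝ) ≤ 104 / 2 ^ 30 := by norm_num
    linarith
  have ht8 : 1 / 8 ≤ ‖t‖ := by
    by_contra hlt
    push Not at hlt
    rcases hmax with h | h | h
    · rw [h] at hz'; norm_num at hz'; linarith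
    · rw [h] at hw'; norm_num at hw'; linarith
    · rw [h] at hlt; norm_num at hlt
  have htpos : 0 < ‖t‖ := lt_of_lt_of_le (by norm_num) ht8
  have ht0 : t ≠ 0 := norm_pos_iff.mp htpos
  refine ⟨ht0, ?_, ?_⟩
  · have e : z / t - Y₁ / a = (a * z - Y₁ * t) / (a * t) := by
      field_simp
    rw [e, norm_div, norm_mul, ha, one_mul, div_le_iff₀ htpos]
    refine k1.trans ?_
    have : (38 : ℝ) / 2 ^ 30 ≤ 1 / 100 * (1 / 8) := by norm_num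
    linarith
  · have e : w / t - Y₂ / 100 = (100 * w - Y₂ * t) / (100 * t) := by
      field_simp
    rw [e, norm_div, norm_mul]
    have h100 : ‖(100 : ℂ)‖ = 100 := by norm_num
    rw [h100, div_le_iff₀ (by positivity)]
    refine k2.trans ?_
    have : (104 : ℝ) / 2 ^ 30 ≤ 1 / 100 * (100 * (1 / 8)) := by norm_num
    linarith

/-- the case where `w - t` is small -/
private lemma Pre_caseII {a : ℂ} (ha : ‖a‖ = 1) {κ : ℝ} (hκ0 : 0 < κ)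
    {z w t Y₁ Y₂ : ℂ} (hz : ‖z‖ ≤ 1) (hw : ‖w‖ ≤ 1) (ht : ‖t‖ ≤ 1)
    (hmax : ‖z‖ = 1 ∨ ‖w‖ = 1 ∨ ‖t‖ = 1) (hY₁ : ‖Y₁‖ ≤ 26 / 5) (hY₂ : ‖Y₂‖ ≤ 2)
    (h1 : (w - t) * (a * z - Y₁ * t) + (κ : ℂ) * (27 * w ^ 2 - Y₁ * (w ^ 2 - z ^ 2)) = 0)
    (h2 : (w - t) * (100 * w - Y₂ * t) + (κ : ℂ) * (-(100 * z ^ 2) - Y₂ * (w ^ 2 - z ^ 2)) = 0)
    (hs : ‖w - t‖ < 1 / 2 ^ 30) :
    t ≠ 0 ∧ (‖w / t - 1‖ ≤ 1 / 100 ∧ ‖z / t‖ ≤ 13 / 4 ∧ 5 / 2 ≤ ‖z / t‖) := by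
  have hκc : (κ : ℂ) ≠ 0 := by
    exact_mod_cast hκ0.ne'
  set s : ℂ := w - t with hsdef
  have hwt : w = t + s := by rw [hsdef]; ring
  have hη : (1 : ℝ) / 2 ^ 30 = 1 / 1073741824 := by norm_num
  rw [hη] at hs
  -- the exact cubic
  have hcub : (27 * w ^ 2 - Y₁ * (w ^ 2 - z ^ 2)) * (100 * w - Y₂ * t) +
      (100 * z ^ 2 + Y₂ * (w ^ 2 - z ^ 2)) * (a * z - Y₁ * t) = 0 := by
    have : (κ : ℂ) * ((27 * w ^ 2 - Y₁ * (w ^ 2 - z ^ 2)) * (100 * w - Y₂ * t) +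
      (100 * z ^ 2 + Y₂ * (w ^ 2 - z ^ 2)) * (a * z - Y₁ * t)) = 0 := by
      linear_combination (100 * w - Y₂ * t) * h1 - (a * z - Y₁ * t) * h2
    exact (mul_eq_zero.mp this).resolve_left hκc
  -- the main part and the error
  have hid : (100 - Y₂) * (27 * t ^ 3 + a * z ^ 3) =
      100 * Y₁ * t ^ 3 - a * Y₂ * z * t ^ 2 -
      s * ((27 * w ^ 2 - Y₁ * (w ^ 2 - z ^ 2)) * 100 +
        (27 - Y₁) * (w + t) * ((100 - Y₂) * t) + Y₂ * (w + t) * (a * z - Y₁ * t)) := by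
    rw [hwt] at hcub ⊢
    linear_combination hcub
  have hA := Pre_A hz hw hY₁
  have hwtn : ‖w + t‖ ≤ 2 := (norm_add_le _ _).trans (by linarith)
  have h27 : ‖27 - Y₁‖ ≤ 33 := (norm_sub_le _ _).trans (by
    have : ‖(27 : ℂ)‖ = 27 := by norm_num
    rw [this]; linarith)
  have h100' : ‖100 - Y₂‖ ≤ 102 := (norm_sub_le _ _).trans (by
    have : ‖(100 : ℂ)‖ = 100 := by norm_num
    rw [this]; linarith)
  have h98 : 98 ≤ ‖100 - Y₂‖ := by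
    have := norm_sub_norm_le (100 : ℂ) Y₂
    have e : ‖(100 : ℂ)‖ = 100 := by norm_num
    rw [e] at this; linarith
  have hP1 : ‖a * z - Y₁ * t‖ ≤ 31 / 5 := by
    refine (norm_sub_le _ _).trans ?_
    rw [norm_mul, norm_mul, ha, one_mul]
    have := mul_le_mul hY₁ ht (norm_nonneg _) (by norm_num)
    linarith
  have hE : ‖(27 * w ^ 2 - Y₁ * (w ^ 2 - z ^ 2)) * 100 +
        (27 - Y₁) * (w + t) * ((100 - Y₂) * t) + Y₂ * (w + t) * (a * z - Y₁ * t)‖ ≤ 12000 := by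
    have e1 : ‖(27 * w ^ 2 - Y₁ * (w ^ 2 - z ^ 2)) * 100‖ ≤ 3800 := by
      rw [norm_mul]
      have : ‖(100 : ℂ)‖ = 100 := by norm_num
      rw [this]; linarith
    have e2 : ‖(27 - Y₁) * (w + t) * ((100 - Y₂) * t)‖ ≤ 33 * 2 * (102 * 1) := by
      rw [norm_mul, norm_mul, norm_mul]
      gcongr
    have e3 : ‖Y₂ * (w + t) * (a * z - Y₁ * t)‖ ≤ 2 * 2 * (31 / 5) := by
      rw [norm_mul, norm_mul]
      gcongr
    refine (norm_add₃_le).trans ?_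
    linarith
  have hmain : 98 * ‖27 * t ^ 3 + a * z ^ 3‖ ≤
      520 * ‖t‖ ^ 3 + 2 * ‖z‖ * ‖t‖ ^ 2 + 12000 / 1073741824 := by
    have e1 : 98 * ‖27 * t ^ 3 + a * z ^ 3‖ ≤ ‖(100 - Y₂) * (27 * t ^ 3 + a * z ^ 3)‖ := by
      rw [norm_mul]
      exact mul_le_mul_of_nonneg_right h98 (norm_nonneg _)
    refine e1.trans ?_
    rw [hid]
    refine (norm_sub_le _ _).trans ?_
    have e2 : ‖100 * Y₁ * t ^ 3 - a * Y₂ * z * t ^ 2‖ ≤ 520 * ‖t‖ ^ 3 + 2 * ‖z‖ * ‖t‖ ^ 2 := by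
      refine (norm_sub_le _ _).trans ?_
      rw [norm_mul, norm_mul, norm_mul, norm_mul, norm_mul, norm_pow, norm_pow, ha, one_mul]
      have : ‖(100 : ℂ)‖ = 100 := by norm_num
      rw [this]
      gcongr
      linarith
    have e3 : ‖s * ((27 * w ^ 2 - Y₁ * (w ^ 2 - z ^ 2)) * 100 +
        (27 - Y₁) * (w + t) * ((100 - Y₂) * t) + Y₂ * (w + t) * (a * z - Y₁ * t))‖ ≤
        1 / 1073741824 * 12000 := by
      rw [norm_mul]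
      exact mul_le_mul hs.le hE (norm_nonneg _) (by norm_num)
    linarith
  -- `t` is not small
  have ht4 : 1 / 4 < ‖t‖ := by
    by_contra hle
    push Not at hle
    have hw1 : ‖w‖ ≤ 1 / 4 + 1 / 1073741824 := by
      rw [hwt]
      exact (norm_add_le _ _).trans (by linarith)
    have hz1 : ‖z‖ = 1 := by
      rcases hmax with h | h | h
      · exact h
      · rw [h] at hw1; norm_num at hw1
      · rw [h] at hle; norm_num at hle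
    have e1 : 1 ≤ ‖27 * t ^ 3 + a * z ^ 3‖ + 27 * ‖t‖ ^ 3 := by
      have e : a * z ^ 3 = (27 * t ^ 3 + a * z ^ 3) - 27 * t ^ 3 := by ring
      have e' : ‖a * z ^ 3‖ = 1 := by rw [norm_mul, norm_pow, ha, hz1]; norm_num
      rw [← e']
      calc ‖a * z ^ 3‖ = ‖(27 * t ^ 3 + a * z ^ 3) - 27 * t ^ 3‖ := by rw [← e]
        _ ≤ ‖27 * t ^ 3 + a * z ^ 3‖ + ‖27 * t ^ 3‖ := norm_sub_le _ _
        _ = ‖27 * t ^ 3 + a * z ^ 3‖ + 27 * ‖t‖ ^ 3 := by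
          rw [norm_mul (27 : ℂ), norm_pow]; norm_num
    have e2 : ‖t‖ ^ 3 ≤ 1 / 64 := by
      calc ‖t‖ ^ 3 ≤ (1 / 4) ^ 3 := pow_le_pow_left₀ (norm_nonneg _) hle 3
        _ = 1 / 64 := by norm_num
    have e3 : ‖t‖ ^ 2 ≤ 1 / 16 := by
      calc ‖t‖ ^ 2 ≤ (1 / 4) ^ 2 := pow_le_pow_left₀ (norm_nonneg _) hle 2
        _ = 1 / 16 := by norm_num
    rw [hz1] at hmain
    norm_num at hmain
    linarith
  have htpos : 0 < ‖t‖ := lt_trans (by norm_num) ht4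
  have ht0 : t ≠ 0 := norm_pos_iff.mp htpos
  refine ⟨ht0, ?_⟩
  have h3 : 1 / 64 ≤ ‖t‖ ^ 3 := by
    calc (1 / 64 : ℝ) = (1 / 4) ^ 3 := by norm_num
      _ ≤ ‖t‖ ^ 3 := pow_le_pow_left₀ (by norm_num) ht4.le 3
  set r : ℝ := ‖z / t‖ with hr
  have hr0 : 0 ≤ r := norm_nonneg _
  have hzr : ‖z‖ = r * ‖t‖ := by
    rw [hr, norm_div, div_mul_cancel₀ _ htpos.ne']
  have hdiv : ‖27 + a * (z / t) ^ 3‖ * ‖t‖ ^ 3 = ‖27 * t ^ 3 + a * z ^ 3‖ := by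
    rw [← norm_pow, ← norm_mul]
    congr 1
    field_simp
  have hm2 : 98 * ‖27 + a * (z / t) ^ 3‖ ≤ 520 + 2 * r + 768000 / 1073741824 := by
    rw [← hdiv, hzr] at hmain
    have e : (98 * ‖27 + a * (z / t) ^ 3‖) * ‖t‖ ^ 3 ≤
        (520 + 2 * r + 768000 / 1073741824) * ‖t‖ ^ 3 := by
      have e1 : (12000 : ℝ) / 1073741824 ≤ 768000 / 1073741824 * ‖t‖ ^ 3 := by
        nlinarith
      nlinarith
    exact le_of_mul_le_mul_right e (by positivity)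
  have hac : ‖a * (z / t) ^ 3‖ = r ^ 3 := by
    rw [norm_mul, norm_pow, ha, one_mul]
  have hup : r ^ 3 ≤ 27 + ‖27 + a * (z / t) ^ 3‖ := by
    rw [← hac]
    have e : a * (z / t) ^ 3 = (27 + a * (z / t) ^ 3) - 27 := by ring
    calc ‖a * (z / t) ^ 3‖ = ‖(27 + a * (z / t) ^ 3) - 27‖ := by rw [← e]
      _ ≤ ‖27 + a * (z / t) ^ 3‖ + ‖(27 : ℂ)‖ := norm_sub_le _ _
      _ = 27 + ‖27 + a * (z / t) ^ 3‖ := by
        have : ‖(27 : ℂ)‖ = 27 := by norm_num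
        rw [this]; ring
  have hlo : 27 ≤ ‖27 + a * (z / t) ^ 3‖ + r ^ 3 := by
    rw [← hac]
    have e : (27 : ℂ) = (27 + a * (z / t) ^ 3) - a * (z / t) ^ 3 := by ring
    calc (27 : ℝ) = ‖(27 : ℂ)‖ := by norm_num
      _ = ‖(27 + a * (z / t) ^ 3) - a * (z / t) ^ 3‖ := by rw [← e]
      _ ≤ ‖27 + a * (z / t) ^ 3‖ + ‖a * (z / t) ^ 3‖ := norm_sub_le _ _
  refine ⟨?_, ?_, ?_⟩
  · have e : w / t - 1 = s / t := by
      rw [hsdef]; field_simp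
    rw [e, norm_div, div_le_iff₀ htpos]
    have : (1 : ℝ) / 1073741824 ≤ 1 / 100 * (1 / 4) := by norm_num
    nlinarith
  · by_contra hgt
    push Not at hgt
    have e1 : (13 / 4) * r * r ≤ r ^ 3 := by nlinarith [mul_nonneg hr0 hr0]
    nlinarith
  · by_contra hlt
    push Not at hlt
    have e1 : r ^ 3 ≤ (5 / 2) ^ 3 := pow_le_pow_left₀ hr0 hlt.le 3
    norm_num at e1
    linarith

theorem pre_cases (a : ℂ) (ha : ‖a‖ = 1) (κ : ℝ) (hκ0 : 0 < κ) (hκ : κ ≤ 1 / 2 ^ 60)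
    (z w t Y₁ Y₂ : ℂ) (hx : ¬ (z = 0 ∧ w = 0 ∧ t = 0)) (hY₁ : ‖Y₁‖ ≤ 26 / 5) (hY₂ : ‖Y₂‖ ≤ 2)
    (h1 : (w - t) * (a * z - Y₁ * t) + (κ : ℂ) * (27 * w ^ 2 - Y₁ * (w ^ 2 - z ^ 2)) = 0)
    (h2 : (w - t) * (100 * w - Y₂ * t) + (κ : ℂ) * (-(100 * z ^ 2) - Y₂ * (w ^ 2 - z ^ 2)) = 0) :
    t ≠ 0 ∧ ((‖z / t - Y₁ / a‖ ≤ 1 / 100 ∧ ‖w / t - Y₂ / 100‖ ≤ 1 / 100) ∨
      (‖w / t - 1‖ ≤ 1 / 100 ∧ ‖z / t‖ ≤ 13 / 4 ∧ 5 / 2 ≤ ‖z / t‖)) := by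
  set M : ℝ := max ‖z‖ (max ‖w‖ ‖t‖) with hM
  have hzM : ‖z‖ ≤ M := le_max_left _ _
  have hwM : ‖w‖ ≤ M := (le_max_left _ _).trans (le_max_right _ _)
  have htM : ‖t‖ ≤ M := (le_max_right _ _).trans (le_max_right _ _)
  have hM0 : 0 < M := by
    by_contra hle
    push Not at hle
    apply hx
    refine ⟨norm_le_zero_iff.mp (hzM.trans hle), norm_le_zero_iff.mp (hwM.trans hle),
      norm_le_zero_iff.mp (htM.trans hle)⟩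
  have hMc : (M : ℂ) ≠ 0 := by exact_mod_cast hM0.ne'
  have hMn : ‖(M : ℂ)‖ = M := by
    rw [Complex.norm_real, Real.norm_eq_abs, abs_of_pos hM0]
  have hmax : ‖z / M‖ = 1 ∨ ‖w / M‖ = 1 ∨ ‖t / M‖ = 1 := by
    rw [norm_div, norm_div, norm_div, hMn, div_eq_one_iff_eq hM0.ne', div_eq_one_iff_eq hM0.ne',
      div_eq_one_iff_eq hM0.ne']
    rcases max_choice ‖z‖ (max ‖w‖ ‖t‖) with h | h
    · left; rw [hM, h]
    · rcases max_choice ‖w‖ ‖t‖ with h' | h'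
      · right; left; rw [hM, h, h']
      · right; right; rw [hM, h, h']
  have hz1 : ‖z / M‖ ≤ 1 := by rw [norm_div, hMn]; exact (div_le_one hM0).mpr hzM
  have hw1 : ‖w / M‖ ≤ 1 := by rw [norm_div, hMn]; exact (div_le_one hM0).mpr hwM
  have ht1 : ‖t / M‖ ≤ 1 := by rw [norm_div, hMn]; exact (div_le_one hM0).mpr htM
  have g1 : (w / M - t / M) * (a * (z / M) - Y₁ * (t / M)) +
      (κ : ℂ) * (27 * (w / M) ^ 2 - Y₁ * ((w / M) ^ 2 - (z / M) ^ 2)) = 0 := by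
    have : (w / M - t / M) * (a * (z / M) - Y₁ * (t / M)) +
      (κ : ℂ) * (27 * (w / M) ^ 2 - Y₁ * ((w / M) ^ 2 - (z / M) ^ 2)) =
      ((w - t) * (a * z - Y₁ * t) + (κ : ℂ) * (27 * w ^ 2 - Y₁ * (w ^ 2 - z ^ 2))) / M ^ 2 := by
      field_simp
    rw [this, h1, zero_div]
  have g2 : (w / M - t / M) * (100 * (w / M) - Y₂ * (t / M)) +
      (κ : ℂ) * (-(100 * (z / M) ^ 2) - Y₂ * ((w / M) ^ 2 - (z / M) ^ 2)) = 0 := by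
    have : (w / M - t / M) * (100 * (w / M) - Y₂ * (t / M)) +
      (κ : ℂ) * (-(100 * (z / M) ^ 2) - Y₂ * ((w / M) ^ 2 - (z / M) ^ 2)) =
      ((w - t) * (100 * w - Y₂ * t) +
        (κ : ℂ) * (-(100 * z ^ 2) - Y₂ * (w ^ 2 - z ^ 2))) / M ^ 2 := by
      field_simp
    rw [this, h2, zero_div]
  have q1 : z / M / (t / M) = z / t := div_div_div_cancel_right₀ hMc _ _
  have q2 : w / M / (t / M) = w / t := div_div_div_cancel_right₀ hMc _ _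
  rcases le_or_gt (1 / 2 ^ 30) ‖w / M - t / M‖ with hs | hs
  · obtain ⟨r1, r2, r3⟩ := Pre_caseI ha hκ0 hκ hz1 hw1 hmax hY₁ hY₂ g1 g2 hs
    rw [q1] at r2
    rw [q2] at r3
    refine ⟨?_, Or.inl ⟨r2, r3⟩⟩
    rintro rfl
    simp at r1
  · obtain ⟨r1, r2, r3, r4⟩ := Pre_caseII ha hκ0 hz1 hw1 ht1 hmax hY₁ hY₂ g1 g2 hs
    rw [q2] at r2
    rw [q1] at r3 r4
    refine ⟨?_, Or.inr ⟨r2, r3, r4⟩⟩
    rintro rfl
    simp at r1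

end Pool.Agent.Lib.MP_eb1abe_an
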