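import Mathlib
import Pool.Agent.Lib.MP_eb1abe_an.Defs

set_option autoImplicit false

/-! The regions `RW` (open) and `RL` (compact) and their backward invariance. -/

namespace Pool.Agent.Lib.MP_eb1abe_an

/-- surjectivity of `X` with a bound -/
theorem Reg_surj {a : ℂ} {κ : ℝ} {X V : ℂ → ℂ} (hL : LeafData a κ X V) {z : ℂ}
    (hz : ‖z‖ ≤ 7) : ∃ χ : ℂ, X χ = z ∧ ‖χ‖ ≤ 128 / 127 * ‖z‖ := by
  set r : ℝ := 128 / 127 * ‖z‖ with hr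
  have hr0 : 0 ≤ r := by positivity
  have hr8 : r ≤ 8 := by rw [hr]; linarith
  let f : ℂ → ℂ := fun χ => z - (X χ - χ)
  have hmaps : Set.MapsTo f (Metric.closedBall (0 : ℂ) r) (Metric.closedBall (0 : ℂ) r) := by
    intro χ hχ
    rw [mem_closedBall_zero_iff] at hχ ⊢
    have h1 := hL.lipX χ 0 (hχ.trans hr8) (by simp)
    rw [hL.X0] at h1
    simp only [sub_zero] at h1
    calc ‖z - (X χ - χ)‖ ≤ ‖z‖ + ‖X χ - χ‖ := norm_sub_le _ _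
      _ ≤ ‖z‖ + 1 / 128 * r := by gcongr; exact h1.trans (by gcongr)
      _ = r := by rw [hr]; ring
  have hcon : ContractingWith (1 / 128) (hmaps.restrict f _ _) := by
    refine ⟨by norm_num, LipschitzWith.of_dist_le_mul ?_⟩
    intro u v
    have hu := mem_closedBall_zero_iff.1 u.2
    have hv := mem_closedBall_zero_iff.1 v.2
    have h1 := hL.lipX u v (hu.trans hr8) (hv.trans hr8)
    rw [Subtype.dist_eq, Subtype.dist_eq, dist_eq_norm, dist_eq_norm]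
    have : ((hmaps.restrict f _ _ u : ℂ)) - (hmaps.restrict f _ _ v : ℂ) =
        -((X u - u) - (X v - v)) := by
      simp only [Set.MapsTo.val_restrict_apply, f]; ring
    rw [this, norm_neg]
    simpa using h1
  obtain ⟨y, hy, hfix, -⟩ := hcon.exists_fixedPoint' (s := Metric.closedBall (0 : ℂ) r)
    (isCompact_closedBall (0 : ℂ) r).isComplete hmaps
    (x := 0) (by simp [hr0]) (edist_ne_top _ _)
  refine ⟨y, ?_, by simpa using hy⟩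
  have : z - (X y - y) = y := hfix
  linear_combination -this

theorem Reg_lower {a : ℂ} {κ : ℝ} {X V : ℂ → ℂ} (hL : LeafData a κ X V) {u v : ℂ}
    (hu : ‖u‖ ≤ 8) (hv : ‖v‖ ≤ 8) : ‖u - v‖ ≤ 128 / 127 * ‖X u - X v‖ := by
  have h1 := hL.lipX u v hu hv
  have h2 : ‖u - v‖ ≤ ‖X u - X v‖ + ‖(X u - u) - (X v - v)‖ := by
    have : u - v = (X u - X v) - ((X u - u) - (X v - v)) := by ring
    rw [this]; exact norm_sub_le _ _
  linarith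

theorem Reg_upper {a : ℂ} {κ : ℝ} {X V : ℂ → ℂ} (hL : LeafData a κ X V) {u v : ℂ}
    (hu : ‖u‖ ≤ 8) (hv : ‖v‖ ≤ 8) : ‖X u - X v‖ ≤ 129 / 128 * ‖u - v‖ := by
  have h1 := hL.lipX u v hu hv
  have h2 : ‖X u - X v‖ ≤ ‖u - v‖ + ‖(X u - u) - (X v - v)‖ := by
    have : X u - X v = (u - v) + ((X u - u) - (X v - v)) := by ring
    rw [this]; exact norm_add_le _ _
  linarith

theorem Reg_X_le {a : ℂ} {κ : ℝ} {X V : ℂ → ℂ} (hL : LeafData a κ X V) {u : ℂ}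
    (hu : ‖u‖ ≤ 8) : ‖X u‖ ≤ 129 / 128 * ‖u‖ := by
  have := Reg_upper hL hu (v := 0) (by simp)
  simpa [hL.X0] using this

theorem Reg_V_le {a : ℂ} {κ : ℝ} {X V : ℂ → ℂ} (hL : LeafData a κ X V) {u : ℂ}
    (hu : ‖u‖ ≤ 8) : ‖V u‖ ≤ 1 / 128 * ‖u‖ := by
  have := hL.lipV u 0 hu (by simp)
  simpa [hL.V0] using this

theorem isOpen_RW {a : ℂ} {κ : ℝ} {X V : ℂ → ℂ} (hL : LeafData a κ X V) : IsOpen (RW X V) := by
  rw [Metric.isOpen_iff]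
  rintro ⟨y1, y2⟩ ⟨χ, σ, hN, h1, h2, h3⟩
  simp only at h1 h2 h3
  set δ : ℝ := min ((5 - (‖χ‖ + ‖σ‖ / 8)) / 2) (2 - ‖y2‖) with hδ
  have hχ : ‖χ‖ ≤ 5 := by linarith [norm_nonneg σ]
  have hδ0 : 0 < δ := lt_min (by linarith) (by linarith)
  have hδ1 : δ ≤ (5 - (‖χ‖ + ‖σ‖ / 8)) / 2 := min_le_left _ _
  have hδ2 : δ ≤ 2 - ‖y2‖ := min_le_right _ _
  refine ⟨δ / 4, by positivity, ?_⟩
  rintro ⟨x1, x2⟩ hx
  rw [Metric.mem_ball, Prod.dist_eq, max_lt_iff] at hx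
  obtain ⟨hx1, hx2⟩ := hx
  simp only [dist_eq_norm] at hx1 hx2
  have hXχ := Reg_X_le hL (u := χ) (by linarith)
  have hx1' : ‖x1‖ ≤ 7 := by
    have : ‖x1‖ ≤ ‖x1 - y1‖ + ‖y1‖ := by
      have := norm_add_le (x1 - y1) y1
      simpa using this
    rw [h1] at this
    have hδ5 : δ ≤ 5 / 2 := by
      have := norm_nonneg χ; have := norm_nonneg σ; linarith
    rw [h1] at hx1
    linarith
  obtain ⟨χ', hχ', hχb⟩ := Reg_surj hL hx1'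
  have hχ'8 : ‖χ'‖ ≤ 8 := by linarith
  have hd := Reg_lower hL hχ'8 (v := χ) (by linarith)
  rw [hχ', ← h1] at hd
  have hV := hL.lipV χ' χ hχ'8 (by linarith)
  refine ⟨χ', x2 - V χ', ?_, hχ'.symm, by ring, ?_⟩
  · have e1 : ‖χ'‖ ≤ ‖χ‖ + ‖χ' - χ‖ := by
      have := norm_add_le χ (χ' - χ)
      simpa using this
    have e2 : ‖x2 - V χ'‖ ≤ ‖σ‖ + ‖x2 - y2‖ + ‖V χ' - V χ‖ := by
      have : x2 - V χ' = σ + (x2 - y2) - (V χ' - V χ) := by rw [h2]; ring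
      rw [this]
      exact (norm_sub_le _ _).trans (by gcongr; exact norm_add_le _ _)
    have := norm_nonneg (x2 - y2)
    linarith
  · have : ‖x2‖ ≤ ‖x2 - y2‖ + ‖y2‖ := by
      have := norm_add_le (x2 - y2) y2
      simpa using this
    show ‖x2‖ < 2
    linarith

theorem isCompact_RL {a : ℂ} {κ : ℝ} {X V : ℂ → ℂ} (hL : LeafData a κ X V) : IsCompact (RL X V) := by
  set B : Set (ℂ × ℂ) := {p | ‖p.1‖ + ‖p.2‖ / 8 ≤ 4} with hB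
  have hBc : IsCompact B := by
    refine Metric.isCompact_of_isClosed_isBounded ?_ ?_
    · exact isClosed_le (by fun_prop) continuous_const
    · refine (Metric.isBounded_closedBall (x := (0 : ℂ × ℂ)) (r := 32)).subset ?_
      intro p hp
      rw [mem_closedBall_zero_iff, Prod.norm_def]
      have hp' : ‖p.1‖ + ‖p.2‖ / 8 ≤ 4 := hp
      have h1 := norm_nonneg p.1
      have h2 := norm_nonneg p.2
      exact max_le (by linarith) (by linarith)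
  have hX : ContinuousOn X (Metric.closedBall (0 : ℂ) 8) := by
    have : LipschitzOnWith 2 X (Metric.closedBall (0 : ℂ) 8) := by
      refine LipschitzOnWith.of_dist_le_mul ?_
      intro u hu v hv
      rw [mem_closedBall_zero_iff] at hu hv
      have := Reg_upper hL hu hv
      rw [dist_eq_norm, dist_eq_norm]
      refine this.trans ?_
      gcongr
      norm_num
    exact this.continuousOn
  have hV : ContinuousOn V (Metric.closedBall (0 : ℂ) 8) := by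
    have : LipschitzOnWith 2 V (Metric.closedBall (0 : ℂ) 8) := by
      refine LipschitzOnWith.of_dist_le_mul ?_
      intro u hu v hv
      rw [mem_closedBall_zero_iff] at hu hv
      have := hL.lipV u v hu hv
      rw [dist_eq_norm, dist_eq_norm]
      refine this.trans ?_
      gcongr
      norm_num
    exact this.continuousOn
  have hmap : Set.MapsTo (Prod.fst : ℂ × ℂ → ℂ) B (Metric.closedBall (0 : ℂ) 8) := by
    intro p hp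
    have hp' : ‖p.1‖ + ‖p.2‖ / 8 ≤ 4 := hp
    have h2 := norm_nonneg p.2
    rw [mem_closedBall_zero_iff]
    linarith
  have hΦ : ContinuousOn (fun p : ℂ × ℂ => (X p.1, V p.1 + p.2)) B := by
    refine ContinuousOn.prodMk (hX.comp continuousOn_fst hmap) ?_
    exact (hV.comp continuousOn_fst hmap).add continuousOn_snd
  have : RL X V = (fun p : ℂ × ℂ => (X p.1, V p.1 + p.2)) '' B ∩ {y | ‖y.2‖ ≤ 3 / 2} := by
    ext ⟨y1, y2⟩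
    constructor
    · rintro ⟨χ, σ, h, h1, h2, h3⟩
      exact ⟨⟨(χ, σ), h, by ext <;> simp_all⟩, h3⟩
    · rintro ⟨⟨⟨χ, σ⟩, h, h1⟩, h3⟩
      simp only [Prod.mk.injEq] at h1
      exact ⟨χ, σ, h, h1.1.symm, h1.2.symm, h3⟩
  rw [this]
  exact (hBc.image_of_continuousOn hΦ).inter_right (isClosed_le (by fun_prop) continuous_const)

theorem RW_bound {a : ℂ} {κ : ℝ} {X V : ℂ → ℂ} (hL : LeafData a κ X V) {y : ℂ × ℂ}
    (hy : y ∈ RW X V) : ‖y.1‖ ≤ 26 / 5 ∧ ‖y.2‖ ≤ 2 := by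
  obtain ⟨χ, σ, hN, h1, h2, h3⟩ := hy
  have hσ := norm_nonneg σ
  refine ⟨?_, h3.le⟩
  have := Reg_X_le hL (u := χ) (by linarith)
  rw [h1]
  linarith

theorem mem_RL_of_near {a : ℂ} {κ : ℝ} {X V : ℂ → ℂ} (hL : LeafData a κ X V) {z w : ℂ}
    (hz : ‖z‖ ≤ 13 / 4) (hw : ‖w - 1‖ ≤ 1 / 100) : (z, w) ∈ RL X V := by
  obtain ⟨χ, hχ, hχb⟩ := Reg_surj hL (z := z) (by linarith)
  have hV := Reg_V_le hL (u := χ) (by linarith)
  have hw' : ‖w‖ ≤ 101 / 100 := by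
    have := norm_add_le (w - 1) 1
    simp at this
    linarith
  have hs : ‖w - V χ‖ ≤ ‖w‖ + ‖V χ‖ := norm_sub_le _ _
  refine ⟨χ, w - V χ, by linarith, hχ.symm, by ring, ?_⟩
  show ‖w‖ ≤ 3 / 2
  linarith

theorem Reg_core {a : ℂ} (ha : ‖a‖ = 1) {κ : ℝ} (hκ0 : 0 < κ) (hκ : κ ≤ 1 / 2 ^ 60)
    {X V : ℂ → ℂ} (hL : LeafData a κ X V) {z w c s : ℂ} (hN : ‖c‖ + ‖s‖ / 8 ≤ 5)
    (hy2 : ‖V c + s‖ ≤ 2)
    (h1 : (w - 1) * (a * z - X c) + (κ : ℂ) * (27 * w ^ 2 - X c * (w ^ 2 - z ^ 2)) = 0)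
    (h2 : (w - 1) * (100 * w - (V c + s)) +
      (κ : ℂ) * (-(100 * z ^ 2) - (V c + s) * (w ^ 2 - z ^ 2)) = 0)
    (hz : ‖z - X c / a‖ ≤ 1 / 100) (hw : ‖w - (V c + s) / 100‖ ≤ 1 / 100) :
    ∃ χ σ : ℂ, ‖χ‖ + ‖σ‖ / 8 ≤ ‖c‖ + ‖s‖ / 8 ∧ z = X χ ∧ w = V χ + σ ∧ ‖w‖ ≤ 3 / 100 := by
  have hs0 := norm_nonneg s
  have hκ1 : κ ≤ 1 / 10 ^ 9 := hκ.trans (by norm_num)
  have hc5 : ‖c‖ ≤ 5 := by linarith
  have hXc := Reg_X_le hL (u := c) (by linarith)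
  have hzb : ‖z‖ ≤ 51 / 10 := by
    have e : ‖X c / a‖ = ‖X c‖ := by rw [norm_div, ha, div_one]
    have := norm_add_le (z - X c / a) (X c / a)
    simp only [sub_add_cancel] at this
    rw [e] at this
    linarith
  have hwb : ‖w‖ ≤ 3 / 100 := by
    have e : ‖(V c + s) / 100‖ = ‖V c + s‖ / 100 := by rw [norm_div]; norm_num
    have := norm_add_le (w - (V c + s) / 100) ((V c + s) / 100)
    simp only [sub_add_cancel] at this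
    rw [e] at this
    linarith
  obtain ⟨χ, hχ, hχb⟩ := Reg_surj hL (z := z) (by linarith)
  have hχ8 : ‖χ‖ ≤ 8 := by linarith
  have hVχ := Reg_V_le hL hχ8
  set v := V χ with hv
  set σ := w - v with hσ
  have hvb : ‖v‖ ≤ 5 / 100 := by linarith
  have E1 := hL.eq1 χ hχ8
  have E2 := hL.eq2 χ hχ8
  rw [hχ, ← hv] at E1 E2
  set U1 := X (a * χ) with hU1
  set U2 := V (a * χ) with hU2
  -- denominators
  set Dw : ℂ := (w - 1) + (κ : ℂ) * (w ^ 2 - z ^ 2) with hDw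
  set Dv : ℂ := (v - 1) + (κ : ℂ) * (v ^ 2 - z ^ 2) with hDv
  have hκn : ‖(κ : ℂ)‖ = κ := by rw [Complex.norm_real, Real.norm_eq_abs, abs_of_pos hκ0]
  have hz2 : ‖z ^ 2‖ ≤ 2601 / 100 := by
    rw [norm_pow]
    calc ‖z‖ ^ 2 ≤ (51 / 10) ^ 2 := by gcongr
      _ = _ := by norm_num
  have hw2 : ‖w ^ 2‖ ≤ 1 / 100 := by
    rw [norm_pow]
    calc ‖w‖ ^ 2 ≤ (3 / 100) ^ 2 := by gcongr
      _ ≤ _ := by norm_num
  have hv2 : ‖v ^ 2‖ ≤ 1 / 100 := by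
    rw [norm_pow]
    calc ‖v‖ ^ 2 ≤ (5 / 100) ^ 2 := by gcongr
      _ ≤ _ := by norm_num
  have hwz : ‖w ^ 2 - z ^ 2‖ ≤ 27 := (norm_sub_le _ _).trans (by linarith)
  have hvz : ‖v ^ 2 - z ^ 2‖ ≤ 27 := (norm_sub_le _ _).trans (by linarith)
  have hkw : ‖(κ : ℂ) * (w ^ 2 - z ^ 2)‖ ≤ 1 / 100 := by
    rw [norm_mul, hκn]
    calc κ * ‖w ^ 2 - z ^ 2‖ ≤ 1 / 10 ^ 9 * 27 := by gcongr
      _ ≤ _ := by norm_num
  have hkv : ‖(κ : ℂ) * (v ^ 2 - z ^ 2)‖ ≤ 1 / 100 := by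
    rw [norm_mul, hκn]
    calc κ * ‖v ^ 2 - z ^ 2‖ ≤ 1 / 10 ^ 9 * 27 := by gcongr
      _ ≤ _ := by norm_num
  have hDw1 : 9 / 10 ≤ ‖Dw‖ := by
    have e1 : (1 : ℂ) = w + (κ : ℂ) * (w ^ 2 - z ^ 2) - Dw := by rw [hDw]; ring
    have e2 : (1 : ℝ) ≤ ‖w‖ + ‖(κ : ℂ) * (w ^ 2 - z ^ 2)‖ + ‖Dw‖ := by
      calc (1 : ℝ) = ‖(1 : ℂ)‖ := by simp
        _ = ‖w + (κ : ℂ) * (w ^ 2 - z ^ 2) - Dw‖ := by rw [← e1]
        _ ≤ ‖w + (κ : ℂ) * (w ^ 2 - z ^ 2)‖ + ‖Dw‖ := norm_sub_le _ _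
        _ ≤ _ := by gcongr; exact norm_add_le _ _
    linarith
  have hDv1 : 9 / 10 ≤ ‖Dv‖ := by
    have e1 : (1 : ℂ) = v + (κ : ℂ) * (v ^ 2 - z ^ 2) - Dv := by rw [hDv]; ring
    have e2 : (1 : ℝ) ≤ ‖v‖ + ‖(κ : ℂ) * (v ^ 2 - z ^ 2)‖ + ‖Dv‖ := by
      calc (1 : ℝ) = ‖(1 : ℂ)‖ := by simp
        _ = ‖v + (κ : ℂ) * (v ^ 2 - z ^ 2) - Dv‖ := by rw [← e1]
        _ ≤ ‖v + (κ : ℂ) * (v ^ 2 - z ^ 2)‖ + ‖Dv‖ := norm_sub_le _ _
        _ ≤ _ := by gcongr; exact norm_add_le _ _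
    linarith
  have hDv2 : ‖Dv‖ ≤ 11 / 10 := by
    have : ‖Dv‖ ≤ (‖v‖ + ‖(1 : ℂ)‖) + ‖(κ : ℂ) * (v ^ 2 - z ^ 2)‖ :=
      (norm_add_le _ _).trans (by gcongr; exact norm_sub_le _ _)
    simp only [norm_one] at this
    linarith
  have hσ0 := norm_nonneg σ
  have hDd : ‖Dw - Dv‖ ≤ 11 / 10 * ‖σ‖ := by
    have e : Dw - Dv = σ * (1 + (κ : ℂ) * (w + v)) := by rw [hDw, hDv, hσ]; ring
    rw [e, norm_mul, mul_comm]
    gcongr
    have : ‖(κ : ℂ) * (w + v)‖ ≤ 1 / 10 := by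
      rw [norm_mul, hκn]
      calc κ * ‖w + v‖ ≤ 1 / 10 ^ 9 * (3 / 100 + 5 / 100) := by
            gcongr
            exact (norm_add_le _ _).trans (by linarith)
        _ ≤ _ := by norm_num
    have h3 := norm_add_le (1 : ℂ) ((κ : ℂ) * (w + v))
    simp only [norm_one] at h3
    linarith
  have key : ∀ (A n m : ℂ) (M : ℝ), A * Dw * Dv = (κ : ℂ) * (n * Dv - m * (Dw - Dv)) →
      ‖n‖ ≤ M * ‖σ‖ → ‖m‖ ≤ M → 0 ≤ M → ‖A‖ ≤ 3 * M * κ * ‖σ‖ := by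
    intro A n m M hA hn hm hM
    have h3 : ‖A‖ * ‖Dw‖ * ‖Dv‖ = κ * ‖n * Dv - m * (Dw - Dv)‖ := by
      rw [← norm_mul, ← norm_mul, hA, norm_mul, hκn]
    have h4 : ‖n * Dv - m * (Dw - Dv)‖ ≤ 22 / 10 * M * ‖σ‖ := by
      refine (norm_sub_le _ _).trans ?_
      rw [norm_mul, norm_mul]
      calc ‖n‖ * ‖Dv‖ + ‖m‖ * ‖Dw - Dv‖ ≤ (M * ‖σ‖) * (11 / 10) + M * (11 / 10 * ‖σ‖) := by
            gcongr
        _ = _ := by ring
    have h5 : ‖A‖ * (81 / 100) ≤ ‖A‖ * ‖Dw‖ * ‖Dv‖ := by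
      calc ‖A‖ * (81 / 100) = ‖A‖ * (9 / 10) * (9 / 10) := by ring
        _ ≤ _ := by gcongr
    have h6 : ‖A‖ * (81 / 100) ≤ κ * (22 / 10 * M * ‖σ‖) := by
      rw [h3] at h5
      exact h5.trans (by gcongr)
    have h7 : 0 ≤ M * κ * ‖σ‖ := by positivity
    nlinarith
  have haz : ‖a * z‖ ≤ 51 / 10 := by rw [norm_mul, ha, one_mul]; exact hzb
  have hwv : ‖w + v‖ ≤ 8 / 100 := (norm_add_le _ _).trans (by linarith)
  -- first coordinate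
  have k1 : ‖X c - U1‖ ≤ 3 * 150 * κ * ‖σ‖ := by
    refine key (X c - U1) ((27 - a * z) * (σ * (w + v))) (27 * v ^ 2 - a * z * (v ^ 2 - z ^ 2))
      150 ?_ ?_ ?_ (by norm_num)
    · have e1 : (X c - a * z) * Dw = (κ : ℂ) * (27 * w ^ 2 - a * z * (w ^ 2 - z ^ 2)) := by
        rw [hDw]; linear_combination -h1
      have e2 : (U1 - a * z) * Dv = (κ : ℂ) * (27 * v ^ 2 - a * z * (v ^ 2 - z ^ 2)) := by
        rw [hDv]; linear_combination E1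
      have e3 : (X c - U1) * Dw * Dv = ((X c - a * z) * Dw) * Dv - ((U1 - a * z) * Dv) * Dw := by
        ring
      rw [e3, e1, e2, hσ]
      ring
    · rw [norm_mul, norm_mul]
      have : ‖(27 : ℂ) - a * z‖ ≤ 33 := by
        refine (norm_sub_le _ _).trans ?_
        have : ‖(27 : ℂ)‖ = 27 := by norm_num
        linarith
      calc ‖(27 : ℂ) - a * z‖ * (‖σ‖ * ‖w + v‖) ≤ 33 * (‖σ‖ * (8 / 100)) := by gcongr
        _ ≤ 150 * ‖σ‖ := by nlinarith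
    · refine (norm_sub_le _ _).trans ?_
      rw [norm_mul, norm_mul]
      have : ‖(27 : ℂ)‖ = 27 := by norm_num
      rw [this]
      calc 27 * ‖v ^ 2‖ + ‖a * z‖ * ‖v ^ 2 - z ^ 2‖ ≤ 27 * (1 / 100) + 51 / 10 * 27 := by gcongr
        _ ≤ 150 := by norm_num
  -- second coordinate
  have k2 : ‖V c + s - U2 - 100 * σ‖ ≤ 3 * 3000 * κ * ‖σ‖ := by
    refine key (V c + s - U2 - 100 * σ) (100 * (σ * (z ^ 2 - (w ^ 2 + w * v + v ^ 2))))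
      (100 * (-z ^ 2 - v * (v ^ 2 - z ^ 2))) 3000 ?_ ?_ ?_ (by norm_num)
    · have e1 : (V c + s - 100 * w) * Dw =
          (κ : ℂ) * (100 * (-z ^ 2 - w * (w ^ 2 - z ^ 2))) := by
        rw [hDw]; linear_combination -h2
      have e2 : (U2 - 100 * v) * Dv =
          (κ : ℂ) * (100 * (-z ^ 2 - v * (v ^ 2 - z ^ 2))) := by
        rw [hDv]; linear_combination E2
      have e3 : (V c + s - U2 - 100 * σ) * Dw * Dv =
          ((V c + s - 100 * w) * Dw) * Dv - ((U2 - 100 * v) * Dv) * Dw := by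
        rw [hσ]; ring
      rw [e3, e1, e2, hσ]
      ring
    · rw [norm_mul, norm_mul]
      have h8 : ‖w * v‖ ≤ 1 / 100 := by
        rw [norm_mul]
        calc ‖w‖ * ‖v‖ ≤ 3 / 100 * (5 / 100) := by gcongr
          _ ≤ _ := by norm_num
      have h9 : ‖z ^ 2 - (w ^ 2 + w * v + v ^ 2)‖ ≤ 27 := by
        refine (norm_sub_le _ _).trans ?_
        have := norm_add_le (w ^ 2 + w * v) (v ^ 2)
        have := norm_add_le (w ^ 2) (w * v)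
        linarith
      have : ‖(100 : ℂ)‖ = 100 := by norm_num
      rw [this]
      calc 100 * (‖σ‖ * ‖z ^ 2 - (w ^ 2 + w * v + v ^ 2)‖) ≤ 100 * (‖σ‖ * 27) := by gcongr
        _ ≤ 3000 * ‖σ‖ := by nlinarith
    · rw [norm_mul]
      have : ‖(100 : ℂ)‖ = 100 := by norm_num
      rw [this]
      have h9 : ‖-z ^ 2 - v * (v ^ 2 - z ^ 2)‖ ≤ 30 := by
        refine (norm_sub_le _ _).trans ?_
        rw [norm_neg, norm_mul]
        calc ‖z ^ 2‖ + ‖v‖ * ‖v ^ 2 - z ^ 2‖ ≤ 2601 / 100 + 5 / 100 * 27 := by gcongr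
          _ ≤ 30 := by norm_num
      linarith
  -- conclusion
  have haχ : ‖a * χ‖ = ‖χ‖ := by rw [norm_mul, ha, one_mul]
  have k3 : ‖c - a * χ‖ ≤ 128 / 127 * (3 * 150 * κ * ‖σ‖) :=
    (Reg_lower hL (by linarith) (by rw [haχ]; exact hχ8)).trans (by gcongr)
  have k4 : ‖V c - U2‖ ≤ 1 / 128 * ‖c - a * χ‖ :=
    hL.lipV c (a * χ) (by linarith) (by rw [haχ]; exact hχ8)
  have k5 : ‖χ‖ ≤ ‖c‖ + ‖c - a * χ‖ := by
    rw [← haχ]
    have := norm_sub_le c (c - a * χ)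
    simpa using this
  have k6 : 100 * ‖σ‖ ≤ ‖s‖ + ‖V c - U2‖ + ‖V c + s - U2 - 100 * σ‖ := by
    have e : (100 : ℂ) * σ = s + (V c - U2) - (V c + s - U2 - 100 * σ) := by ring
    have e2 : ‖(100 : ℂ) * σ‖ = 100 * ‖σ‖ := by rw [norm_mul]; norm_num
    rw [← e2]
    calc ‖(100 : ℂ) * σ‖ = ‖s + (V c - U2) - (V c + s - U2 - 100 * σ)‖ := by rw [← e]
      _ ≤ ‖s + (V c - U2)‖ + ‖V c + s - U2 - 100 * σ‖ := norm_sub_le _ _
      _ ≤ _ := by gcongr; exact norm_add_le _ _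
  have k7 : κ * ‖σ‖ ≤ 1 / 10 ^ 9 * ‖σ‖ := by gcongr
  refine ⟨χ, σ, ?_, hχ.symm, by rw [hσ, hv]; ring, hwb⟩
  nlinarith

theorem mem_RW_of_branch {a : ℂ} (ha : ‖a‖ = 1) {κ : ℝ} (hκ0 : 0 < κ) (hκ : κ ≤ 1 / 2 ^ 60)
    {X V : ℂ → ℂ} (hL : LeafData a κ X V) {z w : ℂ} {y : ℂ × ℂ} (hy : y ∈ RW X V)
    (h1 : (w - 1) * (a * z - y.1) + (κ : ℂ) * (27 * w ^ 2 - y.1 * (w ^ 2 - z ^ 2)) = 0)
    (h2 : (w - 1) * (100 * w - y.2) + (κ : ℂ) * (-(100 * z ^ 2) - y.2 * (w ^ 2 - z ^ 2)) = 0)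
    (hz : ‖z - y.1 / a‖ ≤ 1 / 100) (hw : ‖w - y.2 / 100‖ ≤ 1 / 100) : (z, w) ∈ RW X V := by
  obtain ⟨c, s, hN, e1, e2, h3⟩ := hy
  rw [e1] at h1 hz
  rw [e2] at h2 hw h3
  obtain ⟨χ, σ, hle, hz', hw', hwb⟩ := Reg_core ha hκ0 hκ hL hN.le h3.le h1 h2 hz hw
  exact ⟨χ, σ, by linarith, hz', hw', by show ‖w‖ < 2; linarith⟩

theorem mem_RL_of_branch {a : ℂ} (ha : ‖a‖ = 1) {κ : ℝ} (hκ0 : 0 < κ) (hκ : κ ≤ 1 / 2 ^ 60)
    {X V : ℂ → ℂ} (hL : LeafData a κ X V) {z w : ℂ} {y : ℂ × ℂ} (hy : y ∈ RL X V)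
    (h1 : (w - 1) * (a * z - y.1) + (κ : ℂ) * (27 * w ^ 2 - y.1 * (w ^ 2 - z ^ 2)) = 0)
    (h2 : (w - 1) * (100 * w - y.2) + (κ : ℂ) * (-(100 * z ^ 2) - y.2 * (w ^ 2 - z ^ 2)) = 0)
    (hz : ‖z - y.1 / a‖ ≤ 1 / 100) (hw : ‖w - y.2 / 100‖ ≤ 1 / 100) : (z, w) ∈ RL X V := by
  obtain ⟨c, s, hN, e1, e2, h3⟩ := hy
  rw [e1] at h1 hz
  rw [e2] at h2 hw h3
  obtain ⟨χ, σ, hle, hz', hw', hwb⟩ := Reg_core ha hκ0 hκ hL (by linarith) (by linarith)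
    h1 h2 hz hw
  exact ⟨χ, σ, by linarith, hz', hw', by show ‖w‖ ≤ 3 / 2; linarith⟩

end Pool.Agent.Lib.MP_eb1abe_an
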