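import Mathlib

set_option autoImplicit false

/-! Power series solution of the leaf equations, with bounds. -/

namespace Pool.Agent.Lib.MP_eb1abe_an

open PowerSeries

namespace Ser

/-- weights -/
noncomputable def W (δ : ℕ → ℝ) (n : ℕ) : ℝ := δ n / ((n : ℝ) ^ 2 * 4096 ^ n)

/-- small divisor factor -/
noncomputable def M (a : ℂ) (n : ℕ) : ℝ := min 1 ‖a ^ (n - 1) - 1‖

lemma M_nonneg (a : ℂ) (n : ℕ) : 0 ≤ M a n := le_min zero_le_one (norm_nonneg _)

lemma M_le_one (a : ℂ) (n : ℕ) : M a n ≤ 1 := min_le_left _ _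

lemma W_zero (δ : ℕ → ℝ) : W δ 0 = 0 := by simp [W]

lemma W_nonneg (δ : ℕ → ℝ) (h1 : ∀ n, 1 ≤ δ n) (n : ℕ) : 0 ≤ W δ n := by
  unfold W
  have := h1 n
  positivity

lemma sum_inv_sq_aux (N : ℕ) :
    ∑ i ∈ Finset.range (N + 2), 1 / ((i : ℝ) ^ 2) ≤ 2 - 1 / ((N : ℝ) + 1) := by
  induction N with
  | zero => norm_num [Finset.sum_range_succ]
  | succ N ih =>
    rw [Finset.sum_range_succ]
    have h : 1 / (((N + 2 : ℕ) : ℝ) ^ 2) ≤ 1 / ((N : ℝ) + 1) - 1 / ((N : ℝ) + 2) := by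
      have hN : (0 : ℝ) ≤ N := Nat.cast_nonneg N
      push_cast
      rw [div_sub_div _ _ (by positivity) (by positivity), div_le_div_iff₀ (by positivity) (by positivity)]
      nlinarith
    have h2 : ((N + 1 : ℕ) : ℝ) + 1 = (N : ℝ) + 2 := by push_cast; ring
    rw [h2]
    linarith

lemma sum_inv_sq (N : ℕ) : ∑ i ∈ Finset.range N, 1 / ((i : ℝ) ^ 2) ≤ 2 := by
  have h1 : ∑ i ∈ Finset.range N, 1 / ((i : ℝ) ^ 2) ≤ ∑ i ∈ Finset.range (N + 2), 1 / ((i : ℝ) ^ 2) := by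
    apply Finset.sum_le_sum_of_subset_of_nonneg
    · intro i hi
      rw [Finset.mem_range] at *
      omega
    · intro i _ _
      positivity
  have h2 := sum_inv_sq_aux N
  have h3 : (0 : ℝ) ≤ 1 / ((N : ℝ) + 1) := by positivity
  linarith

lemma sum_anti (n : ℕ) :
    ∑ p ∈ Finset.HasAntidiagonal.antidiagonal n, (1 / ((p.1 : ℝ) ^ 2)) * (1 / ((p.2 : ℝ) ^ 2)) ≤ 8 / (n : ℝ) ^ 2 := by
  have h : ∀ p ∈ Finset.HasAntidiagonal.antidiagonal n, (1 / ((p.1 : ℝ) ^ 2)) * (1 / ((p.2 : ℝ) ^ 2)) ≤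
      2 / (n : ℝ) ^ 2 * (1 / ((p.1 : ℝ) ^ 2) + 1 / ((p.2 : ℝ) ^ 2)) := by
    intro p hp
    rw [Finset.HasAntidiagonal.mem_antidiagonal] at hp
    rcases Nat.eq_zero_or_pos p.1 with h0 | h0
    · rw [h0]
      have : (1 / (((0 : ℕ) : ℝ) ^ 2)) = 0 := by norm_num
      rw [this, zero_mul]
      positivity
    rcases Nat.eq_zero_or_pos p.2 with h0' | h0'
    · rw [h0']
      have : (1 / (((0 : ℕ) : ℝ) ^ 2)) = 0 := by norm_num
      rw [this, mul_zero]
      positivity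
    have hi : (0 : ℝ) < (p.1 : ℝ) := by exact_mod_cast h0
    have hj : (0 : ℝ) < (p.2 : ℝ) := by exact_mod_cast h0'
    have hn : (n : ℝ) = (p.1 : ℝ) + (p.2 : ℝ) := by exact_mod_cast hp.symm
    rw [hn]
    set x : ℝ := (p.1 : ℝ)
    set y : ℝ := (p.2 : ℝ)
    have e : 2 / (x + y) ^ 2 * (1 / x ^ 2 + 1 / y ^ 2) - 1 / x ^ 2 * (1 / y ^ 2) =
        (x - y) ^ 2 / ((x + y) ^ 2 * x ^ 2 * y ^ 2) := by
      field_simp
      ring
    have : 0 ≤ (x - y) ^ 2 / ((x + y) ^ 2 * x ^ 2 * y ^ 2) := by positivity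
    linarith
  refine (Finset.sum_le_sum h).trans ?_
  rw [← Finset.mul_sum, Finset.sum_add_distrib]
  have e1 : ∑ p ∈ Finset.HasAntidiagonal.antidiagonal n, 1 / ((p.1 : ℝ) ^ 2) ≤ 2 := by
    rw [Finset.Nat.sum_antidiagonal_eq_sum_range_succ (fun i _ => 1 / ((i : ℝ) ^ 2))]
    exact sum_inv_sq _
  have e2 : ∑ p ∈ Finset.HasAntidiagonal.antidiagonal n, 1 / ((p.2 : ℝ) ^ 2) ≤ 2 := by
    have := Finset.Nat.sum_antidiagonal_swap (n := n) (f := fun p : ℕ × ℕ => 1 / ((p.1 : ℝ) ^ 2))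
    simp only [Prod.fst_swap] at this
    rw [this]
    exact e1
  have e3 : (0 : ℝ) ≤ 2 / (n : ℝ) ^ 2 := by positivity
  calc _ ≤ 2 / (n : ℝ) ^ 2 * (2 + 2) := by gcongr
    _ = _ := by ring

section
variable {a : ℂ} {δ : ℕ → ℝ}

lemma conv (h1 : ∀ n, 1 ≤ δ n)
    (h2 : ∀ i j : ℕ, 1 ≤ i → 1 ≤ j → δ i * δ j ≤ min 1 ‖a ^ (i + j - 1) - 1‖ * δ (i + j)) (n : ℕ) :
    ∑ p ∈ Finset.HasAntidiagonal.antidiagonal n, W δ p.1 * W δ p.2 ≤ 8 * M a n * W δ n := by
  have h : ∀ p ∈ Finset.HasAntidiagonal.antidiagonal n, W δ p.1 * W δ p.2 ≤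
      (M a n * (δ n / 4096 ^ n)) * ((1 / ((p.1 : ℝ) ^ 2)) * (1 / ((p.2 : ℝ) ^ 2))) := by
    intro p hp
    rw [Finset.HasAntidiagonal.mem_antidiagonal] at hp
    have hδn : 0 ≤ δ n := zero_le_one.trans (h1 n)
    have hM := M_nonneg a n
    rcases Nat.eq_zero_or_pos p.1 with h0 | h0
    · rw [h0, W_zero, zero_mul]
      positivity
    rcases Nat.eq_zero_or_pos p.2 with h0' | h0'
    · rw [h0', W_zero, mul_zero]
      positivity
    have hi : (0 : ℝ) < (p.1 : ℝ) := by exact_mod_cast h0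
    have hj : (0 : ℝ) < (p.2 : ℝ) := by exact_mod_cast h0'
    have hh := h2 p.1 p.2 h0 h0'
    rw [hp] at hh
    have e : W δ p.1 * W δ p.2 =
        (δ p.1 * δ p.2 / 4096 ^ n) * ((1 / ((p.1 : ℝ) ^ 2)) * (1 / ((p.2 : ℝ) ^ 2))) := by
      unfold W
      rw [← hp, pow_add]
      field_simp
    rw [e]
    apply mul_le_mul_of_nonneg_right _ (by positivity)
    rw [← mul_div_assoc]
    exact div_le_div_of_nonneg_right hh (by positivity)
  refine (Finset.sum_le_sum h).trans ?_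
  rw [← Finset.mul_sum]
  have hδn : 0 ≤ δ n := zero_le_one.trans (h1 n)
  have hM := M_nonneg a n
  calc _ ≤ (M a n * (δ n / 4096 ^ n)) * (8 / (n : ℝ) ^ 2) := by
        apply mul_le_mul_of_nonneg_left (sum_anti n) (by positivity)
    _ = _ := by
        unfold W
        rw [mul_comm ((n : ℝ) ^ 2) _, ← div_div]
        ring

lemma coeff_mul_le (h1 : ∀ n, 1 ≤ δ n)
    (h2 : ∀ i j : ℕ, 1 ≤ i → 1 ≤ j → δ i * δ j ≤ min 1 ‖a ^ (i + j - 1) - 1‖ * δ (i + j))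
    {φ ψ : ℂ⟦X⟧} {c d : ℝ} (hc : 0 ≤ c) (hd : 0 ≤ d) (n : ℕ)
    (hφ0 : coeff 0 φ = 0) (hψ0 : coeff 0 ψ = 0)
    (hφ : ∀ i < n, ‖coeff i φ‖ ≤ c * W δ i) (hψ : ∀ i < n, ‖coeff i ψ‖ ≤ d * W δ i) :
    ‖coeff n (φ * ψ)‖ ≤ (8 * c * d) * (M a n * W δ n) := by
  rw [PowerSeries.coeff_mul]
  have h : ∀ p ∈ Finset.HasAntidiagonal.antidiagonal n, ‖coeff p.1 φ * coeff p.2 ψ‖ ≤
      (c * d) * (W δ p.1 * W δ p.2) := by
    intro p hp
    rw [Finset.HasAntidiagonal.mem_antidiagonal] at hp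
    rcases Nat.eq_zero_or_pos p.1 with h0 | h0
    · rw [h0, W_zero, hφ0]
      simp
    rcases Nat.eq_zero_or_pos p.2 with h0' | h0'
    · rw [h0', W_zero, hψ0]
      simp
    rw [norm_mul]
    calc _ ≤ (c * W δ p.1) * (d * W δ p.2) := by
          apply mul_le_mul (hφ _ (by omega)) (hψ _ (by omega)) (norm_nonneg _)
          exact mul_nonneg hc (W_nonneg δ h1 _)
      _ = _ := by ring
  refine (norm_sum_le _ _).trans ((Finset.sum_le_sum h).trans ?_)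
  rw [← Finset.mul_sum]
  calc _ ≤ (c * d) * (8 * M a n * W δ n) :=
        mul_le_mul_of_nonneg_left (conv h1 h2 n) (mul_nonneg hc hd)
    _ = _ := by ring

lemma coeff_mul_le' (h1 : ∀ n, 1 ≤ δ n)
    (h2 : ∀ i j : ℕ, 1 ≤ i → 1 ≤ j → δ i * δ j ≤ min 1 ‖a ^ (i + j - 1) - 1‖ * δ (i + j))
    {φ ψ : ℂ⟦X⟧} {c d : ℝ} (hc : 0 ≤ c) (hd : 0 ≤ d) (n : ℕ)
    (hφ0 : coeff 0 φ = 0) (hψ0 : coeff 0 ψ = 0)
    (hφ : ∀ i < n, ‖coeff i φ‖ ≤ c * W δ i) (hψ : ∀ i < n, ‖coeff i ψ‖ ≤ d * W δ i) :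
    ∀ i < n, ‖coeff i (φ * ψ)‖ ≤ (8 * c * d) * W δ i := by
  intro i hi
  refine (coeff_mul_le (a := a) h1 h2 hc hd i hφ0 hψ0 (fun k hk => hφ k (hk.trans hi))
    (fun k hk => hψ k (hk.trans hi))).trans ?_
  apply mul_le_mul_of_nonneg_left _ (by positivity)
  have := W_nonneg δ h1 i
  have := M_le_one a i
  nlinarith

end

/-- right-hand side of the first equation -/
noncomputable def R1 (a : ℂ) (κ : ℝ) (X V : ℂ⟦X⟧) : ℂ⟦X⟧ :=
  (C a * X - rescale a X) * V + C (27 * (κ : ℂ)) * (V * V) -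
    C (κ : ℂ) * (rescale a X * (V * V - X * X))

/-- right-hand side of the second equation -/
noncomputable def R2 (a : ℂ) (κ : ℝ) (X V : ℂ⟦X⟧) : ℂ⟦X⟧ :=
  (C 100 * V - rescale a V) * V - C (100 * (κ : ℂ)) * (X * X) -
    C (κ : ℂ) * (rescale a V * (V * V - X * X))

lemma rescale_dvd (a : ℂ) (φ : ℂ⟦X⟧) (n : ℕ) (h : (PowerSeries.X : ℂ⟦X⟧) ^ n ∣ φ) :
    (PowerSeries.X : ℂ⟦X⟧) ^ n ∣ rescale a φ := by
  rw [X_pow_dvd_iff] at *
  intro m hm
  rw [coeff_rescale, h m hm, mul_zero]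

lemma mul_cong {A B A' B' : ℂ⟦X⟧} (n : ℕ) (hA : (PowerSeries.X : ℂ⟦X⟧) ∣ A)
    (hB' : (PowerSeries.X : ℂ⟦X⟧) ∣ B') (h : (PowerSeries.X : ℂ⟦X⟧) ^ n ∣ A - A')
    (h' : (PowerSeries.X : ℂ⟦X⟧) ^ n ∣ B - B') :
    (PowerSeries.X : ℂ⟦X⟧) ^ (n + 1) ∣ A * B - A' * B' := by
  have e : A * B - A' * B' = A * (B - B') + (A - A') * B' := by ring
  rw [e, pow_succ]
  apply dvd_add
  · rw [mul_comm (PowerSeries.X ^ n)]
    exact mul_dvd_mul hA h'
  · exact mul_dvd_mul h hB'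

lemma dvd_of_succ {n : ℕ} {φ : ℂ⟦X⟧} (h : (PowerSeries.X : ℂ⟦X⟧) ^ (n + 1) ∣ φ) :
    (PowerSeries.X : ℂ⟦X⟧) ^ n ∣ φ := (pow_dvd_pow _ (Nat.le_succ n)).trans h

/-- congruence modulo `X ^ n` of pairs -/
def Cong (n : ℕ) (P Q : ℂ⟦X⟧ × ℂ⟦X⟧) : Prop :=
  (PowerSeries.X : ℂ⟦X⟧) ^ n ∣ P.1 - Q.1 ∧ (PowerSeries.X : ℂ⟦X⟧) ^ n ∣ P.2 - Q.2

/-- no constant terms -/
def ZZ (P : ℂ⟦X⟧ × ℂ⟦X⟧) : Prop :=
  (PowerSeries.X : ℂ⟦X⟧) ∣ P.1 ∧ (PowerSeries.X : ℂ⟦X⟧) ∣ P.2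

lemma rescale_dvd' (a : ℂ) (φ : ℂ⟦X⟧) (h : (PowerSeries.X : ℂ⟦X⟧) ∣ φ) :
    (PowerSeries.X : ℂ⟦X⟧) ∣ rescale a φ := by
  have := rescale_dvd a φ 1 (by simpa using h)
  simpa using this

lemma R_cong (a : ℂ) (κ : ℝ) {P Q : ℂ⟦X⟧ × ℂ⟦X⟧} (hP : ZZ P) (hQ : ZZ Q) (n : ℕ)
    (h : Cong n P Q) :
    (PowerSeries.X : ℂ⟦X⟧) ^ (n + 1) ∣ R1 a κ P.1 P.2 - R1 a κ Q.1 Q.2 ∧
    (PowerSeries.X : ℂ⟦X⟧) ^ (n + 1) ∣ R2 a κ P.1 P.2 - R2 a κ Q.1 Q.2 := by
  obtain ⟨hP1, hP2⟩ := hP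
  obtain ⟨hQ1, hQ2⟩ := hQ
  obtain ⟨h1, h2⟩ := h
  have hr : ∀ φ ψ : ℂ⟦X⟧, (PowerSeries.X : ℂ⟦X⟧) ^ n ∣ φ - ψ →
      (PowerSeries.X : ℂ⟦X⟧) ^ n ∣ rescale a φ - rescale a ψ := by
    intro φ ψ h
    rw [← map_sub]
    exact rescale_dvd a _ n h
  have hVV : (PowerSeries.X : ℂ⟦X⟧) ^ (n + 1) ∣ P.2 * P.2 - Q.2 * Q.2 := mul_cong n hP2 hQ2 h2 h2
  have hXX : (PowerSeries.X : ℂ⟦X⟧) ^ (n + 1) ∣ P.1 * P.1 - Q.1 * Q.1 := mul_cong n hP1 hQ1 h1 h1
  have hVX : (PowerSeries.X : ℂ⟦X⟧) ^ n ∣ (P.2 * P.2 - P.1 * P.1) - (Q.2 * Q.2 - Q.1 * Q.1) := by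
    have e : (P.2 * P.2 - P.1 * P.1) - (Q.2 * Q.2 - Q.1 * Q.1) =
      (P.2 * P.2 - Q.2 * Q.2) - (P.1 * P.1 - Q.1 * Q.1) := by ring
    rw [e]
    exact dvd_of_succ (dvd_sub hVV hXX)
  have hQQ : (PowerSeries.X : ℂ⟦X⟧) ∣ (Q.2 * Q.2 - Q.1 * Q.1) :=
    dvd_sub (hQ2.mul_left _) (hQ1.mul_left _)
  constructor
  · have t1 := mul_cong n (A := C a * P.1 - rescale a P.1) (A' := C a * Q.1 - rescale a Q.1)
      (B := P.2) (B' := Q.2) (dvd_sub (hP1.mul_left _) (rescale_dvd' a _ hP1)) hQ2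
      (by
        have e : C a * P.1 - rescale a P.1 - (C a * Q.1 - rescale a Q.1) =
          C a * (P.1 - Q.1) - (rescale a P.1 - rescale a Q.1) := by ring
        rw [e]
        exact dvd_sub (h1.mul_left _) (hr _ _ h1)) h2
    have t3 := mul_cong n (rescale_dvd' a _ hP1) hQQ (hr _ _ h1) hVX
    have e : R1 a κ P.1 P.2 - R1 a κ Q.1 Q.2 =
      ((C a * P.1 - rescale a P.1) * P.2 - (C a * Q.1 - rescale a Q.1) * Q.2) +
      C (27 * (κ : ℂ)) * (P.2 * P.2 - Q.2 * Q.2) -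
      C (κ : ℂ) * (rescale a P.1 * (P.2 * P.2 - P.1 * P.1) -
        rescale a Q.1 * (Q.2 * Q.2 - Q.1 * Q.1)) := by
      unfold R1; ring
    rw [e]
    exact dvd_sub (dvd_add t1 (hVV.mul_left _)) (t3.mul_left _)
  · have t1 := mul_cong n (A := C 100 * P.2 - rescale a P.2) (A' := C 100 * Q.2 - rescale a Q.2)
      (B := P.2) (B' := Q.2) (dvd_sub (hP2.mul_left _) (rescale_dvd' a _ hP2)) hQ2
      (by
        have e : C 100 * P.2 - rescale a P.2 - (C 100 * Q.2 - rescale a Q.2) =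
          C 100 * (P.2 - Q.2) - (rescale a P.2 - rescale a Q.2) := by ring
        rw [e]
        exact dvd_sub (h2.mul_left _) (hr _ _ h2)) h2
    have t3 := mul_cong n (rescale_dvd' a _ hP2) hQQ (hr _ _ h2) hVX
    have e : R2 a κ P.1 P.2 - R2 a κ Q.1 Q.2 =
      ((C 100 * P.2 - rescale a P.2) * P.2 - (C 100 * Q.2 - rescale a Q.2) * Q.2) -
      C (100 * (κ : ℂ)) * (P.1 * P.1 - Q.1 * Q.1) -
      C (κ : ℂ) * (rescale a P.2 * (P.2 * P.2 - P.1 * P.1) -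
        rescale a Q.2 * (Q.2 * Q.2 - Q.1 * Q.1)) := by
      unfold R2; ring
    rw [e]
    exact dvd_sub (dvd_sub t1 (hXX.mul_left _)) (t3.mul_left _)

/-- the iteration -/
noncomputable def T (a : ℂ) (κ : ℝ) (P : ℂ⟦X⟧ × ℂ⟦X⟧) : ℂ⟦X⟧ × ℂ⟦X⟧ :=
  (PowerSeries.mk fun n => if n = 0 then 0 else if n = 1 then 1 else
      coeff n (R1 a κ P.1 P.2) / (a - a ^ n),
    PowerSeries.mk fun n => if n = 0 then 0 else if n = 1 then 0 else
      coeff n (R2 a κ P.1 P.2) / (100 - a ^ n))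

lemma T_ZZ (a : ℂ) (κ : ℝ) (P : ℂ⟦X⟧ × ℂ⟦X⟧) : ZZ (T a κ P) := by
  constructor
  · rw [PowerSeries.X_dvd_iff, ← coeff_zero_eq_constantCoeff_apply]
    simp [T]
  · rw [PowerSeries.X_dvd_iff, ← coeff_zero_eq_constantCoeff_apply]
    simp [T]

lemma T_cong (a : ℂ) (κ : ℝ) {P Q : ℂ⟦X⟧ × ℂ⟦X⟧} (hP : ZZ P) (hQ : ZZ Q) (n : ℕ)
    (h : Cong n P Q) : Cong (n + 1) (T a κ P) (T a κ Q) := by
  obtain ⟨h1, h2⟩ := R_cong a κ hP hQ n h
  rw [X_pow_dvd_iff] at h1 h2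
  constructor
  · rw [X_pow_dvd_iff]
    intro m hm
    have := h1 m hm
    rw [map_sub, sub_eq_zero] at this
    rw [map_sub, sub_eq_zero]
    simp only [T, coeff_mk, this]
  · rw [X_pow_dvd_iff]
    intro m hm
    have := h2 m hm
    rw [map_sub, sub_eq_zero] at this
    rw [map_sub, sub_eq_zero]
    simp only [T, coeff_mk, this]

/-- iterates -/
noncomputable def S (a : ℂ) (κ : ℝ) (k : ℕ) : ℂ⟦X⟧ × ℂ⟦X⟧ := (T a κ)^[k] (T a κ (0, 0))

lemma S_succ (a : ℂ) (κ : ℝ) (k : ℕ) : S a κ (k + 1) = T a κ (S a κ k) := by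
  unfold S
  rw [Function.iterate_succ_apply']

lemma S_ZZ (a : ℂ) (κ : ℝ) (k : ℕ) : ZZ (S a κ k) := by
  cases k with
  | zero => exact T_ZZ _ _ _
  | succ k => rw [S_succ]; exact T_ZZ _ _ _

lemma S_cong (a : ℂ) (κ : ℝ) (k : ℕ) : Cong (k + 1) (S a κ (k + 1)) (S a κ k) := by
  induction k with
  | zero =>
    rw [S_succ]
    change Cong (0 + 1) (T a κ (S a κ 0)) (T a κ (0, 0))
    apply T_cong a κ (S_ZZ a κ 0) ⟨dvd_zero _, dvd_zero _⟩ 0
    exact ⟨by simp, by simp⟩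
  | succ k ih =>
    rw [S_succ a κ (k + 1), S_succ a κ k]
    apply T_cong a κ (T_ZZ _ _ _) (S_ZZ _ _ _)
    rw [← S_succ]
    exact ih

lemma Cong.mono {m n : ℕ} (h : m ≤ n) {P Q : ℂ⟦X⟧ × ℂ⟦X⟧} (H : Cong n P Q) : Cong m P Q :=
  ⟨(pow_dvd_pow _ h).trans H.1, (pow_dvd_pow _ h).trans H.2⟩

lemma Cong.trans {n : ℕ} {P Q R : ℂ⟦X⟧ × ℂ⟦X⟧} (H : Cong n P Q) (H' : Cong n Q R) : Cong n P R := by
  constructor
  · have e : P.1 - R.1 = (P.1 - Q.1) + (Q.1 - R.1) := by ring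
    rw [e]; exact dvd_add H.1 H'.1
  · have e : P.2 - R.2 = (P.2 - Q.2) + (Q.2 - R.2) := by ring
    rw [e]; exact dvd_add H.2 H'.2

lemma S_cong' (a : ℂ) (κ : ℝ) (k l : ℕ) : Cong (k + 1) (S a κ (k + l)) (S a κ k) := by
  induction l with
  | zero => exact ⟨by simp, by simp⟩
  | succ l ih =>
    exact Cong.trans (Cong.mono (by omega) (S_cong a κ (k + l))) ih

/-- the limit -/
noncomputable def L (a : ℂ) (κ : ℝ) : ℂ⟦X⟧ × ℂ⟦X⟧ :=
  (PowerSeries.mk fun n => coeff n (S a κ n).1, PowerSeries.mk fun n => coeff n (S a κ n).2)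

lemma L_cong (a : ℂ) (κ : ℝ) (k : ℕ) : Cong (k + 1) (L a κ) (S a κ k) := by
  constructor
  · rw [X_pow_dvd_iff]
    intro m hm
    obtain ⟨l, rfl⟩ := Nat.exists_eq_add_of_le (Nat.lt_succ_iff.mp hm)
    have := (S_cong' a κ m l).1
    rw [X_pow_dvd_iff] at this
    have := this m (by omega)
    rw [map_sub, sub_eq_zero] at this
    rw [map_sub, sub_eq_zero, this]
    simp [L]
  · rw [X_pow_dvd_iff]
    intro m hm
    obtain ⟨l, rfl⟩ := Nat.exists_eq_add_of_le (Nat.lt_succ_iff.mp hm)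
    have := (S_cong' a κ m l).2
    rw [X_pow_dvd_iff] at this
    have := this m (by omega)
    rw [map_sub, sub_eq_zero] at this
    rw [map_sub, sub_eq_zero, this]
    simp [L]

lemma L_ZZ (a : ℂ) (κ : ℝ) : ZZ (L a κ) := by
  have h := L_cong a κ 0
  have h' := S_ZZ a κ 0
  constructor
  · have e : (L a κ).1 = ((L a κ).1 - (S a κ 0).1) + (S a κ 0).1 := by ring
    rw [e]
    exact dvd_add (by simpa using h.1) h'.1
  · have e : (L a κ).2 = ((L a κ).2 - (S a κ 0).2) + (S a κ 0).2 := by ring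
    rw [e]
    exact dvd_add (by simpa using h.2) h'.2

lemma L_fix (a : ℂ) (κ : ℝ) : L a κ = T a κ (L a κ) := by
  have key : ∀ n : ℕ, Cong (n + 1) (L a κ) (T a κ (L a κ)) := by
    intro n
    have h1 := L_cong a κ (n + 1)
    rw [S_succ] at h1
    have h2 := T_cong a κ (L_ZZ a κ) (S_ZZ a κ n) (n + 1) (L_cong a κ n)
    have h3 := Cong.trans h1 (show Cong (n + 1 + 1) (T a κ (S a κ n)) (T a κ (L a κ)) from by
      constructor
      · rw [← neg_sub]; exact (dvd_neg.mpr h2.1)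
      · rw [← neg_sub]; exact (dvd_neg.mpr h2.2))
    exact h3.mono (by omega)
  apply Prod.ext
  · ext n
    have := (key n).1
    rw [X_pow_dvd_iff] at this
    have := this n (by omega)
    rwa [map_sub, sub_eq_zero] at this
  · ext n
    have := (key n).2
    rw [X_pow_dvd_iff] at this
    have := this n (by omega)
    rwa [map_sub, sub_eq_zero] at this

end Ser

open Ser in
theorem exists_series (a : ℂ) (ha : ‖a‖ = 1) (hd : ∀ n : ℕ, 1 ≤ n → 0 < ‖a ^ n - 1‖)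
    (δ : ℕ → ℝ) (h1 : ∀ n, 1 ≤ δ n)
    (h2 : ∀ i j : ℕ, 1 ≤ i → 1 ≤ j → δ i * δ j ≤ min 1 ‖a ^ (i + j - 1) - 1‖ * δ (i + j))
    (κ : ℝ) (hκ0 : 0 < κ) (hκ : κ ≤ 1 / 2 ^ 60) :
    ∃ X V : ℂ⟦X⟧, coeff 0 X = 0 ∧ coeff 1 X = 1 ∧ coeff 0 V = 0 ∧ coeff 1 V = 0 ∧
      (∀ n : ℕ, 2 ≤ n → ‖coeff n X‖ ≤ (1 / 32) * (δ n / ((n : ℝ) ^ 2 * 4096 ^ n))) ∧
      (∀ n : ℕ, 2 ≤ n → ‖coeff n V‖ ≤ (1 / 32) * (δ n / ((n : ℝ) ^ 2 * 4096 ^ n))) ∧
      rescale a X * ((V - 1) + C (κ : ℂ) * (V ^ 2 - X ^ 2)) =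
        C a * X * (V - 1) + C (27 * (κ : ℂ)) * V ^ 2 ∧
      rescale a V * ((V - 1) + C (κ : ℂ) * (V ^ 2 - X ^ 2)) =
        C 100 * (V * (V - 1) - C (κ : ℂ) * X ^ 2) := by
  set XX := (L a κ).1 with hXX
  set VV := (L a κ).2 with hVV
  have hfix := L_fix a κ
  have hfix1 : ∀ n, coeff n XX = if n = 0 then 0 else if n = 1 then 1 else
      coeff n (R1 a κ XX VV) / (a - a ^ n) := by
    intro n
    have : XX = (T a κ (L a κ)).1 := by rw [← hfix]
    conv_lhs => rw [this]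
    simp only [T, coeff_mk]
    rfl
  have hfix2 : ∀ n, coeff n VV = if n = 0 then 0 else if n = 1 then 0 else
      coeff n (R2 a κ XX VV) / (100 - a ^ n) := by
    intro n
    have : VV = (T a κ (L a κ)).2 := by rw [← hfix]
    conv_lhs => rw [this]
    simp only [T, coeff_mk]
    rfl
  have x0 : coeff 0 XX = 0 := by rw [hfix1]; simp
  have x1 : coeff 1 XX = 1 := by rw [hfix1]; simp
  have v0 : coeff 0 VV = 0 := by rw [hfix2]; simp
  have v1 : coeff 1 VV = 0 := by rw [hfix2]; simp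
  have ha0 : a ≠ 0 := by rintro rfl; simp at ha
  have hda : ∀ n : ℕ, 2 ≤ n → ‖a - a ^ n‖ = ‖a ^ (n - 1) - 1‖ := by
    intro n hn
    obtain ⟨m, rfl⟩ := Nat.exists_eq_add_of_le hn
    have e : a - a ^ (2 + m) = a * (1 - a ^ (2 + m - 1)) := by
      have : 2 + m - 1 = m + 1 := by omega
      rw [this]; ring
    rw [e, norm_mul, ha, one_mul, norm_sub_rev]
  have hda0 : ∀ n : ℕ, 2 ≤ n → 0 < ‖a - a ^ n‖ := by
    intro n hn
    rw [hda n hn]
    exact hd _ (by omega)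
  have h100 : ∀ n : ℕ, 99 ≤ ‖(100 : ℂ) - a ^ n‖ := by
    intro n
    have h := norm_sub_norm_le (100 : ℂ) (a ^ n)
    rw [norm_pow, ha, one_pow] at h
    have : ‖(100 : ℂ)‖ = 100 := by norm_num
    rw [this] at h
    linarith
  have h101 : ∀ n : ℕ, ‖(100 : ℂ) - a ^ n‖ ≤ 101 := by
    intro n
    have h := norm_sub_le (100 : ℂ) (a ^ n)
    rw [norm_pow, ha, one_pow] at h
    have : ‖(100 : ℂ)‖ = 100 := by norm_num
    rw [this] at h
    linarith
  have m1 : ∀ n, coeff n (C a * XX - rescale a XX) = (a - a ^ n) * coeff n XX := by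
    intro n
    rw [map_sub, coeff_C_mul, coeff_rescale]; ring
  have m2 : ∀ n, coeff n (C 100 * VV - rescale a VV) = (100 - a ^ n) * coeff n VV := by
    intro n
    rw [map_sub, coeff_C_mul, coeff_rescale]; ring
  -- the bounds
  have hW := W_nonneg δ h1
  have key : ∀ n : ℕ, 2 ≤ n → ‖coeff n XX‖ ≤ (1 / 32) * W δ n ∧ ‖coeff n VV‖ ≤ (1 / 32) * W δ n := by
    intro n
    induction n using Nat.strong_induction_on with
    | _ n ih =>
    intro hn
    have bX : ∀ i < n, ‖coeff i XX‖ ≤ 4096 * W δ i := by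
      intro i hi
      rcases Nat.lt_or_ge i 2 with h | h
      · interval_cases i
        · rw [x0]; simp [W_zero]
        · rw [x1]
          have := h1 1
          simp only [W]
          norm_num
          linarith
      · refine (ih i hi h).1.trans ?_
        have := hW i
        linarith
    have bV : ∀ i < n, ‖coeff i VV‖ ≤ (1 / 32) * W δ i := by
      intro i hi
      rcases Nat.lt_or_ge i 2 with h | h
      · interval_cases i
        · rw [v0]; simp [W_zero]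
        · rw [v1]
          have := hW 1
          simp only [norm_zero]
          linarith
      · exact (ih i hi h).2
    have bXa : ∀ i < n, ‖coeff i (rescale a XX)‖ ≤ 4096 * W δ i := by
      intro i hi
      rw [coeff_rescale, norm_mul, norm_pow, ha, one_pow, one_mul]
      exact bX i hi
    have bVa : ∀ i < n, ‖coeff i (rescale a VV)‖ ≤ (1 / 32) * W δ i := by
      intro i hi
      rw [coeff_rescale, norm_mul, norm_pow, ha, one_pow, one_mul]
      exact bV i hi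
    have xa0 : coeff 0 (rescale a XX) = 0 := by rw [coeff_rescale, x0, mul_zero]
    have va0 : coeff 0 (rescale a VV) = 0 := by rw [coeff_rescale, v0, mul_zero]
    have bD : ∀ i < n, ‖coeff i (C a * XX - rescale a XX)‖ ≤ (1 / 16) * W δ i := by
      intro i hi
      rw [m1, norm_mul]
      rcases Nat.lt_or_ge i 2 with h | h
      · interval_cases i
        · rw [x0]; simp [W_zero]
        · have := hW 1
          simp only [pow_one, sub_self, norm_zero, zero_mul]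
          linarith
      · have e : ‖a - a ^ i‖ ≤ 2 := by
          refine (norm_sub_le _ _).trans ?_
          rw [norm_pow, ha]; norm_num
        have := (ih i hi h).1
        calc _ ≤ 2 * ((1 / 32) * W δ i) := by
              apply mul_le_mul e this (norm_nonneg _) (by norm_num)
          _ = _ := by ring
    have bE : ∀ i < n, ‖coeff i (C 100 * VV - rescale a VV)‖ ≤ (101 / 32) * W δ i := by
      intro i hi
      rw [m2, norm_mul]
      calc _ ≤ 101 * ((1 / 32) * W δ i) := by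
            apply mul_le_mul (h101 i) (bV i hi) (norm_nonneg _) (by norm_num)
        _ = _ := by ring
    have d0 : coeff 0 (C a * XX - rescale a XX) = 0 := by rw [m1, x0, mul_zero]
    have e0 : coeff 0 (C 100 * VV - rescale a VV) = 0 := by rw [m2, v0, mul_zero]
    have pDV := coeff_mul_le (a := a) h1 h2 (by norm_num) (by norm_num) n d0 v0 bD bV
    have pEV := coeff_mul_le (a := a) h1 h2 (by norm_num) (by norm_num) n e0 v0 bE bV
    have pVV := coeff_mul_le (a := a) h1 h2 (by norm_num) (by norm_num) n v0 v0 bV bV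
    have pXX := coeff_mul_le (a := a) h1 h2 (by norm_num) (by norm_num) n x0 x0 bX bX
    have qVV := coeff_mul_le' (a := a) h1 h2 (by norm_num) (by norm_num) n v0 v0 bV bV
    have qXX := coeff_mul_le' (a := a) h1 h2 (by norm_num) (by norm_num) n x0 x0 bX bX
    have q : ∀ i < n, ‖coeff i (VV * VV - XX * XX)‖ ≤ (8 * (4096 ^ 2 + 1)) * W δ i := by
      intro i hi
      rw [map_sub]
      refine (norm_sub_le _ _).trans ?_
      have h1' := qVV i hi
      have h2' := qXX i hi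
      have := hW i
      linarith
    have q0 : coeff 0 (VV * VV - XX * XX) = 0 := by
      rw [map_sub, coeff_mul, coeff_mul]
      simp [x0, v0]
    have pX := coeff_mul_le (a := a) h1 h2 (by norm_num) (by norm_num) n xa0 q0 bXa q
    have pV := coeff_mul_le (a := a) h1 h2 (by norm_num) (by norm_num) n va0 q0 bVa q
    have hMW : 0 ≤ M a n * W δ n := mul_nonneg (M_nonneg a n) (hW n)
    set MW := M a n * W δ n with hMWd
    have nκ : ‖(κ : ℂ)‖ = κ := by rw [Complex.norm_real, Real.norm_of_nonneg hκ0.le]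
    have B1 : ‖coeff n (R1 a κ XX VV)‖ ≤ (1 / 32) * MW := by
      unfold R1
      rw [map_sub, map_add, coeff_C_mul, coeff_C_mul]
      refine (norm_sub_le _ _).trans ?_
      refine (add_le_add (norm_add_le _ _) le_rfl).trans ?_
      rw [norm_mul (27 * (κ : ℂ)), norm_mul 27 (κ : ℂ), norm_mul (κ : ℂ), nκ]
      have n27 : ‖(27 : ℂ)‖ = 27 := by norm_num
      rw [n27]
      have t2 : 27 * κ * ‖coeff n (VV * VV)‖ ≤ 27 * (1 / 2 ^ 60) * (8 * (1 / 32) * (1 / 32) * MW) := by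
        apply mul_le_mul _ pVV (norm_nonneg _) (by positivity)
        linarith
      have t3 : κ * ‖coeff n (rescale a XX * (VV * VV - XX * XX))‖ ≤
          (1 / 2 ^ 60) * (8 * 4096 * (8 * (4096 ^ 2 + 1)) * MW) := by
        apply mul_le_mul hκ pX (norm_nonneg _) (by positivity)
      have := add_le_add (add_le_add pDV t2) t3
      refine this.trans ?_
      nlinarith
    have B2 : ‖coeff n (R2 a κ XX VV)‖ ≤ 1 * MW := by
      unfold R2
      rw [map_sub, map_sub, coeff_C_mul, coeff_C_mul]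
      refine (norm_sub_le _ _).trans ?_
      refine (add_le_add (norm_sub_le _ _) le_rfl).trans ?_
      rw [norm_mul (100 * (κ : ℂ)), norm_mul 100 (κ : ℂ), norm_mul (κ : ℂ), nκ]
      have n100 : ‖(100 : ℂ)‖ = 100 := by norm_num
      rw [n100]
      have t2 : 100 * κ * ‖coeff n (XX * XX)‖ ≤ 100 * (1 / 2 ^ 60) * (8 * 4096 * 4096 * MW) := by
        apply mul_le_mul _ pXX (norm_nonneg _) (by positivity)
        linarith
      have t3 : κ * ‖coeff n (rescale a VV * (VV * VV - XX * XX))‖ ≤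
          (1 / 2 ^ 60) * (8 * (1 / 32) * (8 * (4096 ^ 2 + 1)) * MW) := by
        apply mul_le_mul hκ pV (norm_nonneg _) (by positivity)
      have := add_le_add (add_le_add pEV t2) t3
      refine this.trans ?_
      nlinarith
    have hn0 : n ≠ 0 := by omega
    have hn1 : n ≠ 1 := by omega
    constructor
    · rw [hfix1, if_neg hn0, if_neg hn1, norm_div, div_le_iff₀ (hda0 n hn)]
      refine B1.trans ?_
      have hM : M a n ≤ ‖a - a ^ n‖ := by
        rw [hda n hn]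
        exact min_le_right _ _
      have := mul_le_mul_of_nonneg_right hM (hW n)
      rw [hMWd]
      linarith
    · rw [hfix2, if_neg hn0, if_neg hn1, norm_div, div_le_iff₀ (by linarith [h100 n])]
      refine B2.trans ?_
      have hM : MW ≤ W δ n := by
        rw [hMWd]
        have := mul_le_mul_of_nonneg_right (M_le_one a n) (hW n)
        linarith
      have h99 := h100 n
      have := hW n
      nlinarith
  refine ⟨XX, VV, x0, x1, v0, v1, fun n hn => (key n hn).1, fun n hn => (key n hn).2, ?_, ?_⟩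
  · have hz : C a * XX - rescale a XX = R1 a κ XX VV := by
      ext n
      rw [m1]
      rcases Nat.lt_or_ge n 2 with h | h
      · have hc := (R_cong a κ (P := (XX, VV)) (Q := (0, 0)) (L_ZZ a κ)
          ⟨dvd_zero _, dvd_zero _⟩ 1 ⟨by simpa using (L_ZZ a κ).1, by simpa using (L_ZZ a κ).2⟩).1
        have z : R1 a κ 0 0 = 0 := by simp [R1]
        simp only [z, sub_zero] at hc
        rw [X_pow_dvd_iff] at hc
        have hc' := hc n h
        rw [hc']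
        interval_cases n
        · rw [x0, mul_zero]
        · simp
      · have := hfix1 n
        rw [if_neg (by omega), if_neg (by omega)] at this
        rw [this]
        have hne : a - a ^ n ≠ 0 := norm_pos_iff.mp (hda0 n h)
        field_simp
    unfold R1 at hz
    linear_combination hz
  · have hz : C 100 * VV - rescale a VV = R2 a κ XX VV := by
      ext n
      rw [m2]
      rcases Nat.lt_or_ge n 2 with h | h
      · have hc := (R_cong a κ (P := (XX, VV)) (Q := (0, 0)) (L_ZZ a κ)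
          ⟨dvd_zero _, dvd_zero _⟩ 1 ⟨by simpa using (L_ZZ a κ).1, by simpa using (L_ZZ a κ).2⟩).2
        have z : R2 a κ 0 0 = 0 := by simp [R2]
        simp only [z, sub_zero] at hc
        rw [X_pow_dvd_iff] at hc
        have hc' := hc n h
        rw [hc']
        interval_cases n
        · rw [v0, mul_zero]
        · rw [v1, mul_zero]
      · have := hfix2 n
        rw [if_neg (by omega), if_neg (by omega)] at this
        rw [this]
        have hne : (100 : ℂ) - a ^ n ≠ 0 := norm_pos_iff.mp (by linarith [h100 n])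
        field_simp
    unfold R2 at hz
    have hC : C (100 * (κ : ℂ)) = C 100 * C (κ : ℂ) := map_mul _ _ _
    rw [hC] at hz
    linear_combination hz

end Pool.Agent.Lib.MP_eb1abe_an
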