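import Mathlib
import Pool.Agent.Lib.MP_eb1abe_an.Defs
import Pool.Agent.Lib.MP_eb1abe_an.Poly
import Pool.Agent.Lib.MP_eb1abe_an.NT
import Pool.Agent.Lib.MP_eb1abe_an.Brj
import Pool.Agent.Lib.MP_eb1abe_an.Ser
import Pool.Agent.Lib.MP_eb1abe_an.Leaf
import Pool.Agent.Lib.MP_eb1abe_an.Pre
import Pool.Agent.Lib.MP_eb1abe_an.Jac
import Pool.Agent.Lib.MP_eb1abe_an.Reg
import Pool.Agent.Lib.MP_eb1abe_an.Hyp

set_option autoImplicit false

/-! Assembly of the counterexample. -/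

namespace Pool.Agent.Lib.MP_eb1abe_an

open Topology Filter

theorem exists_leafData : ∃ a : ℂ, ‖a‖ = 1 ∧ ∃ X V : ℂ → ℂ, LeafData a (1 / 2 ^ 60) X V := by
  obtain ⟨a, ha, hd⟩ := exists_a
  obtain ⟨δ, h1, h2, h3⟩ := exists_delta a ha hd
  have hd' : ∀ n : ℕ, 1 ≤ n → 0 < ‖a ^ n - 1‖ := fun n hn =>
    lt_of_lt_of_le (by positivity) (hd n hn)
  obtain ⟨X, V, hX0, hX1, hV0, hV1, hX, hV, e1, e2⟩ := exists_series a ha hd' δ h1 h3 (1 / 2 ^ 60)
    (by positivity) le_rfl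
  have hb : ∀ n : ℕ, 2 ≤ n → (1 / 32 : ℝ) * (δ n / ((n : ℝ) ^ 2 * 4096 ^ n)) ≤ (1 / 32) * (1 / 16) ^ n := by
    intro n hn
    refine mul_le_mul_of_nonneg_left ?_ (by norm_num)
    have hn1 : (1 : ℝ) ≤ (n : ℝ) ^ 2 := by
      have : (1 : ℝ) ≤ n := by exact_mod_cast (by omega : 1 ≤ n)
      nlinarith
    have e : (1 / 16 : ℝ) ^ n = 256 ^ n / 4096 ^ n := by
      rw [← div_pow]; norm_num
    rw [e, div_le_div_iff₀ (by positivity) (by positivity)]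
    have h4 : δ n * 4096 ^ n ≤ 256 ^ n * 4096 ^ n := mul_le_mul_of_nonneg_right (h2 n) (by positivity)
    have h5 : (256 : ℝ) ^ n * 4096 ^ n ≤ 256 ^ n * ((n : ℝ) ^ 2 * 4096 ^ n) := by
      refine mul_le_mul_of_nonneg_left ?_ (by positivity)
      nlinarith [pow_pos (by norm_num : (0 : ℝ) < 4096) n]
    exact h4.trans h5
  refine ⟨a, ha, ?_⟩
  exact leaf_of_series a ha _ X V hX0 hX1 hV0 hV1 (fun n hn => (hX n hn).trans (hb n hn))
    (fun n hn => (hV n hn).trans (hb n hn)) e1 e2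

section FFlemmas

variable {a : ℂ} {κ : ℝ}

theorem FF_smul (t : ℂ) (v : Fin 3 → ℂ) : FF a κ (t • v) = t ^ 2 • FF a κ v := by
  funext i
  fin_cases i <;> simp [FF] <;> ring

theorem FF_iter_smul (n : ℕ) (t : ℂ) (v : Fin 3 → ℂ) :
    (FF a κ)^[n] (t • v) = t ^ (2 ^ n) • (FF a κ)^[n] v := by
  induction n with
  | zero => simp
  | succ n ih =>
    rw [Function.iterate_succ_apply', ih, FF_smul, Function.iterate_succ_apply', ← pow_mul, pow_succ]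

theorem FF_eq_zero (ha : ‖a‖ = 1) (hκ0 : 0 < κ) (hκ : κ ≤ 1 / 2 ^ 60) {v : Fin 3 → ℂ} (hv : FF a κ v = 0) :
    v = 0 := by
  have h0 : a * v 0 * (v 1 - v 2) + 27 * (κ : ℂ) * v 1 ^ 2 = 0 := by
    have := congrFun hv 0; simpa [FF] using this
  have h1 : v 1 * (v 1 - v 2) - (κ : ℂ) * v 0 ^ 2 = 0 := by
    have := congrFun hv 1; simpa [FF] using this
  have h2 : v 2 * (v 1 - v 2) + (κ : ℂ) * (v 1 ^ 2 - v 0 ^ 2) = 0 := by
    have := congrFun hv 2; simpa [FF] using this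
  have hκc : (κ : ℂ) ≠ 0 := by exact_mod_cast hκ0.ne'
  set z := v 0 with hz
  set w := v 1 with hw
  set t := v 2 with ht
  have ha0 : a ≠ 0 := by
    intro h; rw [h, norm_zero] at ha; norm_num at ha
  -- key identities
  have key1 : a * (κ : ℂ) * z ^ 3 = -(27 * (κ : ℂ) * w ^ 3) := by
    linear_combination (-(a * z)) * h1 + w * h0
  have key1' : a * z ^ 3 = -(27 * w ^ 3) := by
    have : (κ : ℂ) * (a * z ^ 3) = (κ : ℂ) * (-(27 * w ^ 3)) := by linear_combination key1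
    exact mul_left_cancel₀ hκc this
  by_cases hw0 : w = 0
  · have hz0 : z = 0 := by
      have : a * z ^ 3 = 0 := by rw [key1', hw0]; ring
      rcases mul_eq_zero.1 this with h | h
      · exact absurd h ha0
      · exact pow_eq_zero_iff (by norm_num) |>.1 h
    have ht0 : t = 0 := by
      rw [hw0, hz0] at h2
      have : t ^ 2 = 0 := by linear_combination -h2
      exact pow_eq_zero_iff (by norm_num) |>.1 this
    funext i
    fin_cases i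
    · exact hz0
    · exact hw0
    · exact ht0
  · exfalso
    have hnorm : ‖z‖ ^ 3 = 27 * ‖w‖ ^ 3 := by
      have := congrArg norm key1'
      rw [norm_mul, ha, one_mul, norm_neg, norm_mul, norm_pow, norm_pow] at this
      simpa using this
    have hz3 : ‖z‖ = 3 * ‖w‖ := by
      have h3 : ‖z‖ ^ 3 = (3 * ‖w‖) ^ 3 := by rw [hnorm]; ring
      exact (pow_left_inj₀ (norm_nonneg _) (by positivity) (by norm_num)).1 h3
    have hz0 : z ≠ 0 := by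
      intro h
      rw [h, norm_zero] at hz3
      exact hw0 (norm_eq_zero.1 (by linarith))
    -- t z^2 = w (z^2 - w^2)
    have hA : (κ : ℂ) * (t * z ^ 2) = (κ : ℂ) * (w * (z ^ 2 - w ^ 2)) := by
      linear_combination (-t) * h1 + w * h2
    have hA' : t * z ^ 2 = w * (z ^ 2 - w ^ 2) := mul_left_cancel₀ hκc hA
    -- (w - t) z^2 = w^3
    have hB : (w - t) * z ^ 2 = w ^ 3 := by linear_combination -hA'
    have hC : w ^ 4 = (κ : ℂ) * z ^ 4 := by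
      linear_combination (-w) * hB + z ^ 2 * h1
    have hn : ‖w‖ ^ 4 = κ * ‖z‖ ^ 4 := by
      have := congrArg norm hC
      rw [norm_mul, norm_pow, norm_pow, Complex.norm_real, Real.norm_eq_abs, abs_of_pos hκ0] at this
      exact this
    rw [hz3] at hn
    have hw4 : 0 < ‖w‖ ^ 4 := by positivity
    have : κ * 81 = 1 := by
      have h5 : ‖w‖ ^ 4 * 1 = ‖w‖ ^ 4 * (κ * 81) := by linear_combination hn
      exact (mul_left_cancel₀ hw4.ne' h5).symm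
    have h6 : κ * 81 ≤ (1 / 2 ^ 60) * 81 := mul_le_mul_of_nonneg_right hκ (by norm_num)
    norm_num at h6
    linarith

theorem FF_ne_zero (ha : ‖a‖ = 1) (hκ0 : 0 < κ) (hκ : κ ≤ 1 / 2 ^ 60) {v : Fin 3 → ℂ} (hv : v ≠ 0) :
    FF a κ v ≠ 0 := fun h => hv (FF_eq_zero ha hκ0 hκ h)

theorem FF_iter_ne_zero (ha : ‖a‖ = 1) (hκ0 : 0 < κ) (hκ : κ ≤ 1 / 2 ^ 60) {v : Fin 3 → ℂ} (hv : v ≠ 0)
    (n : ℕ) : (FF a κ)^[n] v ≠ 0 := by
  induction n with
  | zero => exact hv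
  | succ n ih => rw [Function.iterate_succ_apply']; exact FF_ne_zero ha hκ0 hκ ih

theorem FF_zero : FF a κ 0 = 0 := by
  funext i
  fin_cases i <;> simp [FF]

theorem continuous_FF : Continuous (FF a κ) := by
  refine continuous_pi fun i => ?_
  fin_cases i <;> simp only [FF] <;> fun_prop

end FFlemmas

section Cone

theorem isOpen_cone {A : Set (ℂ × ℂ)} (hA : IsOpen A) : IsOpen (cone A) := by
  have h1 : IsOpen {v : Fin 3 → ℂ | v 2 ≠ 0} := isOpen_ne_fun (continuous_apply 2) continuous_const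
  have h2 : ContinuousOn (fun v : Fin 3 → ℂ => (v 0 / v 2, v 1 / v 2)) {v : Fin 3 → ℂ | v 2 ≠ 0} := by
    refine ContinuousOn.prodMk ?_ ?_
    · exact (continuous_apply 0).continuousOn.div (continuous_apply 2).continuousOn (fun v hv => hv)
    · exact (continuous_apply 1).continuousOn.div (continuous_apply 2).continuousOn (fun v hv => hv)
  exact h2.isOpen_inter_preimage h1 hA

theorem cone_smul {A : Set (ℂ × ℂ)} {t : ℂ} (ht : t ≠ 0) {v : Fin 3 → ℂ} (hv : v ∈ cone A) :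
    t • v ∈ cone A := by
  refine ⟨by simpa [ht] using hv.1, ?_⟩
  have e0 : (t • v) 0 / (t • v) 2 = v 0 / v 2 := by
    simp only [Pi.smul_apply, smul_eq_mul]
    exact mul_div_mul_left _ _ ht
  have e1 : (t • v) 1 / (t • v) 2 = v 1 / v 2 := by
    simp only [Pi.smul_apply, smul_eq_mul]
    exact mul_div_mul_left _ _ ht
  rw [e0, e1]; exact hv.2

theorem isClosed_insert_cone {A : Set (ℂ × ℂ)} (hA : IsCompact A) :
    IsClosed (insert (0 : Fin 3 → ℂ) (cone A)) := by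
  obtain ⟨M, hM⟩ := hA.isBounded.exists_norm_le
  refine isClosed_of_closure_subset ?_
  intro v hv
  obtain ⟨u, hu, hlim⟩ := mem_closure_iff_seq_limit.1 hv
  by_cases h2 : v 2 = 0
  · -- then v = 0
    left
    have hb : ∀ n, ‖u n 0‖ ≤ |M| * ‖u n 2‖ ∧ ‖u n 1‖ ≤ |M| * ‖u n 2‖ := by
      intro n
      rcases hu n with h | h
      · rw [h]; simp
      · have h3 := hM _ h.2
        have h4 : ‖u n 0 / u n 2‖ ≤ |M| := (norm_fst_le _).trans (h3.trans (le_abs_self M))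
        have h5 : ‖u n 1 / u n 2‖ ≤ |M| := (norm_snd_le (u n 0 / u n 2, u n 1 / u n 2)).trans
          (h3.trans (le_abs_self M))
        have h6 : 0 < ‖u n 2‖ := norm_pos_iff.2 h.1
        rw [norm_div, div_le_iff₀ h6] at h4 h5
        exact ⟨h4, h5⟩
    have l0 : Tendsto (fun n => ‖u n 0‖) atTop (𝓝 ‖v 0‖) := ((continuous_apply 0).tendsto v |>.comp hlim).norm
    have l1 : Tendsto (fun n => ‖u n 1‖) atTop (𝓝 ‖v 1‖) := ((continuous_apply 1).tendsto v |>.comp hlim).norm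
    have l2 : Tendsto (fun n => |M| * ‖u n 2‖) atTop (𝓝 (|M| * ‖v 2‖)) :=
      (((continuous_apply 2).tendsto v |>.comp hlim).norm).const_mul _
    have m0 : ‖v 0‖ ≤ |M| * ‖v 2‖ := le_of_tendsto_of_tendsto' l0 l2 (fun n => (hb n).1)
    have m1 : ‖v 1‖ ≤ |M| * ‖v 2‖ := le_of_tendsto_of_tendsto' l1 l2 (fun n => (hb n).2)
    rw [h2, norm_zero, mul_zero] at m0 m1
    funext i
    fin_cases i
    · exact norm_le_zero_iff.1 m0
    · exact norm_le_zero_iff.1 m1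
    · exact h2
  · right
    refine ⟨h2, ?_⟩
    have hne : ∀ᶠ n in atTop, u n 2 ≠ 0 := by
      have := ((continuous_apply 2).tendsto v |>.comp hlim)
      exact this.eventually_ne h2
    have hmem : ∀ᶠ n in atTop, (u n 0 / u n 2, u n 1 / u n 2) ∈ A := by
      filter_upwards [hne] with n hn
      rcases hu n with h | h
      · rw [h] at hn; exact absurd rfl hn
      · exact h.2
    have hl : Tendsto (fun n => (u n 0 / u n 2, u n 1 / u n 2)) atTop (𝓝 (v 0 / v 2, v 1 / v 2)) := by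
      have l0 : Tendsto (fun n => u n 0) atTop (𝓝 (v 0)) := (continuous_apply 0).tendsto v |>.comp hlim
      have l1 : Tendsto (fun n => u n 1) atTop (𝓝 (v 1)) := (continuous_apply 1).tendsto v |>.comp hlim
      have l2 : Tendsto (fun n => u n 2) atTop (𝓝 (v 2)) := (continuous_apply 2).tendsto v |>.comp hlim
      exact (l0.div l2 h2).prodMk_nhds (l1.div l2 h2)
    exact hA.isClosed.mem_of_tendsto hl hmem

end Cone

section Back

variable {a : ℂ} {κ : ℝ} {X V : ℂ → ℂ}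

theorem RL_sub_RW : RL X V ⊆ RW X V := by
  rintro y ⟨χ, σ, h1, h2, h3, h4⟩
  exact ⟨χ, σ, by linarith, h2, h3, by linarith⟩

/-- analysis of a preimage -/
theorem back_aux (ha : ‖a‖ = 1) (hκ0 : 0 < κ) (hκ : κ ≤ 1 / 2 ^ 60) (hL : LeafData a κ X V)
    {v : Fin 3 → ℂ} (hv : v ≠ 0) {y : ℂ × ℂ} (hy : y ∈ RW X V)
    (h0 : FF a κ v 0 = y.1 * FF a κ v 2) (h1 : FF a κ v 1 = y.2 * FF a κ v 2) :
    v 2 ≠ 0 ∧
    ((v 1 / v 2 - 1) * (a * (v 0 / v 2) - y.1) + (κ : ℂ) * (27 * (v 1 / v 2) ^ 2 -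
      y.1 * ((v 1 / v 2) ^ 2 - (v 0 / v 2) ^ 2)) = 0) ∧
    ((v 1 / v 2 - 1) * (100 * (v 1 / v 2) - y.2) + (κ : ℂ) * (-(100 * (v 0 / v 2) ^ 2) -
      y.2 * ((v 1 / v 2) ^ 2 - (v 0 / v 2) ^ 2)) = 0) ∧
    ((‖v 0 / v 2 - y.1 / a‖ ≤ 1 / 100 ∧ ‖v 1 / v 2 - y.2 / 100‖ ≤ 1 / 100) ∨
      (‖v 1 / v 2 - 1‖ ≤ 1 / 100 ∧ ‖v 0 / v 2‖ ≤ 13 / 4 ∧ 5 / 2 ≤ ‖v 0 / v 2‖)) := by
  obtain ⟨b1, b2⟩ := RW_bound hL hy
  have e1 : (v 1 - v 2) * (a * v 0 - y.1 * v 2) + (κ : ℂ) * (27 * v 1 ^ 2 - y.1 * (v 1 ^ 2 - v 0 ^ 2)) = 0 := by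
    simp [FF] at h0
    linear_combination h0
  have e2 : (v 1 - v 2) * (100 * v 1 - y.2 * v 2) + (κ : ℂ) * (-(100 * v 0 ^ 2) -
      y.2 * (v 1 ^ 2 - v 0 ^ 2)) = 0 := by
    simp [FF] at h1
    linear_combination h1
  have hx : ¬ (v 0 = 0 ∧ v 1 = 0 ∧ v 2 = 0) := by
    rintro ⟨q0, q1, q2⟩
    apply hv
    funext i
    fin_cases i
    · exact q0
    · exact q1
    · exact q2
  obtain ⟨ht, hcases⟩ := pre_cases a ha κ hκ0 hκ (v 0) (v 1) (v 2) y.1 y.2 hx b1 b2 e1 e2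
  refine ⟨ht, ?_, ?_, hcases⟩
  · field_simp
    linear_combination e1
  · field_simp
    linear_combination e2

theorem JJ_scale {z w t : ℂ} (ht : t ≠ 0) : JJ a κ z w t = t ^ 3 * JJ a κ (z / t) (w / t) 1 := by
  simp only [JJ]
  field_simp

theorem back_RW (ha : ‖a‖ = 1) (hκ0 : 0 < κ) (hκ : κ ≤ 1 / 2 ^ 60) (hL : LeafData a κ X V)
    {v : Fin 3 → ℂ} (hv : v ≠ 0) (h : FF a κ v ∈ cone (RW X V)) :
    v ∈ cone (RW X V) ∧ JJ a κ (v 0) (v 1) (v 2) ≠ 0 := by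
  obtain ⟨h2, hy⟩ := h
  have e0 : FF a κ v 0 = (FF a κ v 0 / FF a κ v 2) * FF a κ v 2 := by field_simp
  have e1 : FF a κ v 1 = (FF a κ v 1 / FF a κ v 2) * FF a κ v 2 := by field_simp
  obtain ⟨ht, q1, q2, hc⟩ := back_aux ha hκ0 hκ hL hv hy e0 e1
  obtain ⟨b1, b2⟩ := RW_bound hL hy
  refine ⟨⟨ht, ?_⟩, ?_⟩
  · rcases hc with hc | hc
    · exact mem_RW_of_branch ha hκ0 hκ hL hy q1 q2 hc.1 hc.2
    · exact RL_sub_RW (mem_RL_of_near hL hc.2.1 hc.1)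
  · rw [JJ_scale ht]
    exact mul_ne_zero (pow_ne_zero _ ht) (jac_ne a ha κ hκ0 hκ _ _ _ _ b1 b2 q2 hc)

theorem back_RL (ha : ‖a‖ = 1) (hκ0 : 0 < κ) (hκ : κ ≤ 1 / 2 ^ 60) (hL : LeafData a κ X V)
    {v : Fin 3 → ℂ} (hv : v ≠ 0) (h : FF a κ v ∈ cone (RL X V)) : v ∈ cone (RL X V) := by
  obtain ⟨h2, hy⟩ := h
  have e0 : FF a κ v 0 = (FF a κ v 0 / FF a κ v 2) * FF a κ v 2 := by field_simp
  have e1 : FF a κ v 1 = (FF a κ v 1 / FF a κ v 2) * FF a κ v 2 := by field_simp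
  obtain ⟨ht, q1, q2, hc⟩ := back_aux ha hκ0 hκ hL hv (RL_sub_RW hy) e0 e1
  refine ⟨ht, ?_⟩
  rcases hc with hc | hc
  · exact mem_RL_of_branch ha hκ0 hκ hL hy q1 q2 hc.1 hc.2
  · exact mem_RL_of_near hL hc.2.1 hc.1

end Back

end Pool.Agent.Lib.MP_eb1abe_an

namespace Pool.Agent.Lib.MP_eb1abe_an

open Topology Filter

/-- the totally invariant cone -/
def KK (a : ℂ) (κ : ℝ) (X V : ℂ → ℂ) : Set (Fin 3 → ℂ) :=
  {v | v ≠ 0 ∧ ∀ n : ℕ, (FF a κ)^[n] v ∈ cone (RL X V)}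

section KKlemmas

variable {a : ℂ} {κ : ℝ} {X V : ℂ → ℂ}

theorem cone_ne_zero {A : Set (ℂ × ℂ)} {v : Fin 3 → ℂ} (hv : v ∈ cone A) : v ≠ 0 := by
  intro h
  apply hv.1
  rw [h]; rfl

theorem KK_smul {v : Fin 3 → ℂ} (hv : v ∈ KK a κ X V) {t : ℂ} (ht : t ≠ 0) : t • v ∈ KK a κ X V := by
  refine ⟨smul_ne_zero ht hv.1, fun n => ?_⟩
  rw [FF_iter_smul]
  exact cone_smul (pow_ne_zero _ ht) (hv.2 n)

theorem KK_closed (ha : ‖a‖ = 1) (hκ0 : 0 < κ) (hκ : κ ≤ 1 / 2 ^ 60) (hL : LeafData a κ X V) :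
    IsClosed (insert (0 : Fin 3 → ℂ) (KK a κ X V)) := by
  have e : insert (0 : Fin 3 → ℂ) (KK a κ X V) =
      ⋂ n : ℕ, ((FF a κ)^[n]) ⁻¹' (insert (0 : Fin 3 → ℂ) (cone (RL X V))) := by
    ext v
    simp only [Set.mem_insert_iff, Set.mem_iInter, Set.mem_preimage]
    constructor
    · rintro (h | h) n
      · left
        rw [h]
        induction n with
        | zero => rfl
        | succ n ih => rw [Function.iterate_succ_apply', ih, FF_zero]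
      · right; exact h.2 n
    · intro h
      by_cases hv : v = 0
      · left; exact hv
      · right
        refine ⟨hv, fun n => ?_⟩
        rcases h n with h | h
        · exact absurd h (FF_iter_ne_zero ha hκ0 hκ hv n)
        · exact h
  rw [e]
  refine isClosed_iInter fun n => ?_
  exact (isClosed_insert_cone (isCompact_RL hL)).preimage (continuous_FF.iterate n)

theorem KK_inv (ha : ‖a‖ = 1) (hκ0 : 0 < κ) (hκ : κ ≤ 1 / 2 ^ 60) (hL : LeafData a κ X V)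
    {v : Fin 3 → ℂ} (hv : v ≠ 0) : FF a κ v ∈ KK a κ X V ↔ v ∈ KK a κ X V := by
  constructor
  · intro h
    refine ⟨hv, fun n => ?_⟩
    cases n with
    | zero => exact back_RL ha hκ0 hκ hL hv (h.2 0)
    | succ n => rw [Function.iterate_succ_apply]; exact h.2 n
  · intro h
    refine ⟨FF_ne_zero ha hκ0 hκ hv, fun n => ?_⟩
    rw [← Function.iterate_succ_apply]
    exact h.2 (n + 1)

theorem iter_back (ha : ‖a‖ = 1) (hκ0 : 0 < κ) (hκ : κ ≤ 1 / 2 ^ 60) (hL : LeafData a κ X V) (n : ℕ) :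
    ∀ v : Fin 3 → ℂ, v ≠ 0 → (FF a κ)^[n + 1] v ∈ cone (RW X V) → JJ a κ (v 0) (v 1) (v 2) ≠ 0 := by
  induction n with
  | zero =>
    intro v hv h
    exact (back_RW ha hκ0 hκ hL hv h).2
  | succ n ih =>
    intro v hv h
    rw [Function.iterate_succ_apply'] at h
    exact ih v hv (back_RW ha hκ0 hκ hL (FF_iter_ne_zero ha hκ0 hκ hv (n + 1)) h).1

theorem KK_disjoint (ha : ‖a‖ = 1) (hκ0 : 0 < κ) (hκ : κ ≤ 1 / 2 ^ 60) (hL : LeafData a κ X V) :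
    Disjoint (KK a κ X V) (closure {w : Fin 3 → ℂ | ∃ n : ℕ, 1 ≤ n ∧ ∃ c : Fin 3 → ℂ, c ≠ 0 ∧
      Matrix.det (Matrix.of fun i j => MvPolynomial.eval c (MvPolynomial.pderiv j (PF a κ i))) = 0 ∧
      w = ((FF a κ)^[n]) c}) := by
  have h1 : Disjoint (cone (RW X V)) {w : Fin 3 → ℂ | ∃ n : ℕ, 1 ≤ n ∧ ∃ c : Fin 3 → ℂ, c ≠ 0 ∧
      Matrix.det (Matrix.of fun i j => MvPolynomial.eval c (MvPolynomial.pderiv j (PF a κ i))) = 0 ∧
      w = ((FF a κ)^[n]) c} := by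
    rw [Set.disjoint_left]
    rintro w hw ⟨n, hn, c, hc, hdet, rfl⟩
    obtain ⟨m, rfl⟩ : ∃ m, n = m + 1 := ⟨n - 1, by omega⟩
    have := iter_back ha hκ0 hκ hL m c hc hw
    rw [PF_det] at hdet
    rcases mul_eq_zero.1 hdet with h | h
    · norm_num at h
    · exact this h
  have h2 := h1.closure_right (isOpen_cone (isOpen_RW hL))
  refine h2.mono_left ?_
  intro v hv
  have h3 := hv.2 0
  exact ⟨h3.1, RL_sub_RW h3.2⟩

theorem KK_axis (hL : LeafData a κ X V) {t : ℂ} (ht : t ≠ 0) : (![0, 0, t] : Fin 3 → ℂ) ∈ KK a κ X V := by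
  have h00 : ((0 : ℂ), (0 : ℂ)) ∈ RL X V := ⟨0, 0, by norm_num, by rw [hL.X0], by rw [hL.V0]; simp, by norm_num⟩
  have hc : ∀ s : ℂ, s ≠ 0 → (![0, 0, s] : Fin 3 → ℂ) ∈ cone (RL X V) := by
    intro s hs
    refine ⟨hs, ?_⟩
    have e : ((![0, 0, s] : Fin 3 → ℂ) 0 / (![0, 0, s] : Fin 3 → ℂ) 2,
      (![0, 0, s] : Fin 3 → ℂ) 1 / (![0, 0, s] : Fin 3 → ℂ) 2) = ((0 : ℂ), (0 : ℂ)) := by simp
    rw [e]; exact h00
  have hF : ∀ s : ℂ, FF a κ ![0, 0, s] = ![0, 0, -s ^ 2] := by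
    intro s
    funext i
    fin_cases i <;> simp [FF] <;> ring
  have hit : ∀ n : ℕ, ∃ s : ℂ, s ≠ 0 ∧ (FF a κ)^[n] ![0, 0, t] = ![0, 0, s] := by
    intro n
    induction n with
    | zero => exact ⟨t, ht, rfl⟩
    | succ n ih =>
      obtain ⟨s, hs, e⟩ := ih
      exact ⟨-s ^ 2, neg_ne_zero.2 (pow_ne_zero _ hs), by rw [Function.iterate_succ_apply', e, hF]⟩
  refine ⟨cone_ne_zero (hc t ht), fun n => ?_⟩
  obtain ⟨s, hs, e⟩ := hit n
  rw [e]; exact hc s hs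

end KKlemmas

end Pool.Agent.Lib.MP_eb1abe_an
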